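import Pool.Agent.H215_PID.Lang

set_option autoImplicit false
set_option linter.unusedSectionVars false

/-!
# Basic facts about the forcing language, and the posets
-/

universe u v w

namespace Pool.Agent.H215_PID

open Cardinal Ordinal Set Filter
open Pool.Agent.H215_MRP (Car)

-- #block down
section Down

variable {P : Type u} [Preorder P]

/-- The statement `φ` is preserved by passing to stronger conditions. -/
def Down (φ : Set P) : Prop := ∀ p ∈ φ, ∀ q, q ≤ p → q ∈ φ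

/-- The statement `φ` is forced as soon as it is forced by a dense set of stronger conditions. -/
def Reg (φ : Set P) : Prop := ∀ p, (∀ q, q ≤ p → ∃ r, r ≤ q ∧ r ∈ φ) → p ∈ φ

end Down

-- #end
-- #block lang
section Language

variable {P : Type u} [Preorder P]

theorem mem_fnot {φ : Set P} {p : P} : p ∈ fnot φ ↔ ∀ q, q ≤ p → q ∉ φ := Iff.rfl

theorem mem_fand {φ ψ : Set P} {p : P} : p ∈ fand φ ψ ↔ p ∈ φ ∧ p ∈ ψ := Iff.rfl

theorem mem_fall {ι : Sort v} {φ : ι → Set P} {p : P} : p ∈ fall φ ↔ ∀ i, p ∈ φ i := Iff.rfl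

theorem mem_fground {h : Prop} {p : P} : p ∈ fground (P := P) h ↔ h := Iff.rfl

theorem mem_fex {ι : Sort v} {φ : ι → Set P} {p : P} :
    p ∈ fex φ ↔ ∀ q, q ≤ p → ∃ r, r ≤ q ∧ ∃ i, r ∈ φ i := by
  constructor
  · intro h q hq
    by_contra hc
    push Not at hc
    exact h q hq fun i r hr hri => hc r hr i hri
  · intro h q hq h'
    obtain ⟨r, hr, i, hi⟩ := h q hq
    exact h' i r hr hi

theorem mem_fimp {φ ψ : Set P} {p : P} :
    p ∈ fimp φ ψ ↔ ∀ q, q ≤ p → q ∈ φ → ∃ r, r ≤ q ∧ r ∈ ψ := by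
  constructor
  · intro h q hq h1
    by_contra hc
    push Not at hc
    exact h q hq ⟨h1, fun r hr hrψ => hc r hr hrψ⟩
  · intro h q hq h'
    obtain ⟨r, hr, h1⟩ := h q hq h'.1
    exact h'.2 r hr h1

theorem mem_fOr {φ ψ : Set P} {p : P} :
    p ∈ fOr φ ψ ↔ ∀ q, q ≤ p → ∃ r, r ≤ q ∧ (r ∈ φ ∨ r ∈ ψ) := by
  constructor
  · intro h q hq
    by_contra hc
    push Not at hc
    exact h q hq ⟨fun r hr hrψ => (hc r hr).1 hrψ, fun r hr hrψ => (hc r hr).2 hrψ⟩
  · intro h q hq h'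
    obtain ⟨r, hr, h1 | h1⟩ := h q hq
    · exact h'.1 r hr h1
    · exact h'.2 r hr h1

theorem mem_meets {N : Set P} {p : P} : p ∈ meets N ↔ ∀ q, q ≤ p → ∃ r, r ≤ q ∧ ∃ s ∈ N, r ≤ s := Iff.rfl

theorem down_fnot (φ : Set P) : Down (fnot φ) := fun _ hp _ hq r hr => hp r (hr.trans hq)

theorem down_fand {φ ψ : Set P} (h : Down φ) (h' : Down ψ) : Down (fand φ ψ) :=
  fun _ hp _ hq => ⟨h _ hp.1 _ hq, h' _ hp.2 _ hq⟩

theorem down_fall {ι : Sort v} {φ : ι → Set P} (h : ∀ i, Down (φ i)) : Down (fall φ) :=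
  fun _ hp _ hq i => h i _ (hp i) _ hq

theorem down_fex {ι : Sort v} (φ : ι → Set P) : Down (fex φ) := down_fnot _

theorem down_fimp (φ ψ : Set P) : Down (fimp φ ψ) := down_fnot _

theorem down_fOr (φ ψ : Set P) : Down (fOr φ ψ) := down_fnot _

theorem down_fground (h : Prop) : Down (fground (P := P) h) := fun _ hp _ _ => hp

theorem down_meets (N : Set P) : Down (meets N) := fun _ hp _ hq r hr => hp r (hr.trans hq)

theorem reg_fnot {φ : Set P} (hd : Down φ) : Reg (fnot φ) := by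
  intro p h q hq hqφ
  obtain ⟨r, hr, h1⟩ := h q hq
  exact h1 r le_rfl (hd q hqφ r hr)

theorem reg_fand {φ ψ : Set P} (h : Reg φ) (h' : Reg ψ) : Reg (fand φ ψ) := fun p hp =>
  ⟨h p fun q hq => let ⟨r, hr, h1⟩ := hp q hq; ⟨r, hr, h1.1⟩,
    h' p fun q hq => let ⟨r, hr, h1⟩ := hp q hq; ⟨r, hr, h1.2⟩⟩

theorem reg_fall {ι : Sort v} {φ : ι → Set P} (h : ∀ i, Reg (φ i)) : Reg (fall φ) := fun p hp i =>
  h i p fun q hq => let ⟨r, hr, h1⟩ := hp q hq; ⟨r, hr, h1 i⟩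

theorem reg_fex {ι : Sort v} (φ : ι → Set P) : Reg (fex φ) :=
  reg_fnot (down_fall fun _ => down_fnot _)

theorem reg_fOr (φ ψ : Set P) : Reg (fOr φ ψ) := reg_fnot (down_fand (down_fnot _) (down_fnot _))

theorem reg_fimp {φ : Set P} (hd : Down φ) (ψ : Set P) : Reg (fimp φ ψ) :=
  reg_fnot (down_fand hd (down_fnot _))

theorem reg_fground (h : Prop) : Reg (fground (P := P) h) := fun p hp =>
  let ⟨_, _, h1⟩ := hp p le_rfl; h1

theorem reg_meets (N : Set P) : Reg (meets N) := by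
  intro p h q hq
  obtain ⟨r, hr, h1⟩ := h q hq
  obtain ⟨s, hs, t, ht, hst⟩ := h1 r le_rfl
  exact ⟨s, hs.trans hr, t, ht, hst⟩

/-- modus ponens -/
theorem fimp_mp {φ ψ : Set P} {p : P} (h : p ∈ fimp φ ψ) (hp : p ∈ φ) (hd : Down φ) (hr : Reg ψ) : p ∈ ψ :=
  hr p fun q hq => mem_fimp.1 h q hq (hd p hp q hq)

theorem meets_of_mem {N : Set P} {p : P} (h : p ∈ N) : p ∈ meets N := fun q hq => ⟨q, le_rfl, p, h, hq⟩

theorem meets_of_le {N : Set P} {p s : P} (hs : s ∈ N) (h : p ≤ s) : p ∈ meets N :=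
  fun q hq => ⟨q, le_rfl, s, hs, hq.trans h⟩

theorem exists_of_meets {N : Set P} (hN : Down N) {p : P} (h : p ∈ meets N) : ∃ q, q ≤ p ∧ q ∈ N := by
  obtain ⟨r, hr, s, hs, hle⟩ := h p le_rfl
  exact ⟨r, hr, hN s hs r hle⟩

theorem meets_eq {N : Set P} (hd : Down N) (hr : Reg N) : meets N = N := by
  ext p
  constructor
  · intro h
    refine hr p fun q hq => ?_
    obtain ⟨r, hr', s, hs, hle⟩ := h q hq
    exact ⟨r, hr', hd s hs r hle⟩
  · exact meets_of_mem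

theorem mem_fex_of_mem {ι : Sort v} {φ : ι → Set P} {p : P} (i : ι) (hd : Down (φ i)) (h : p ∈ φ i) :
    p ∈ fex φ := mem_fex.2 fun q hq => ⟨q, le_rfl, i, hd p h q hq⟩

/-- the canonical name for a subset of `X` which belongs to the ground model -/
def chk {X : Type v} (b : Set X) : X → Set P := fun x => {_p | x ∈ b}

theorem mem_fmem_chk {X : Type v} {b : Set X} {x : X} {p : P} : p ∈ fmem (chk b) x ↔ x ∈ b := by
  constructor
  · intro h
    obtain ⟨r, _, s, hs, _⟩ := h p le_rfl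
    exact hs
  · intro h
    exact meets_of_mem (N := chk b x) (p := p) h

theorem down_fmem {X : Type v} (A : X → Set P) (x : X) : Down (fmem A x) := down_meets _

theorem reg_fmem {X : Type v} (A : X → Set P) (x : X) : Reg (fmem A x) := reg_meets _

theorem down_fMem {X : Type v} (I : (X → Set P) → Set P) (A : X → Set P) : Down (fMem I A) := down_meets _

theorem reg_fMem {X : Type v} (I : (X → Set P) → Set P) (A : X → Set P) : Reg (fMem I A) := reg_meets _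

theorem down_fsub {X : Type v} (A B : X → Set P) : Down (fsub A B) := down_fall fun _ => down_fimp _ _

theorem reg_fsub {X : Type v} (A B : X → Set P) : Reg (fsub A B) := reg_fall fun _ => reg_fimp (down_fmem _ _) _

theorem down_feq {X : Type v} (A B : X → Set P) : Down (feq A B) := down_fand (down_fsub _ _) (down_fsub _ _)

theorem reg_feq {X : Type v} (A B : X → Set P) : Reg (feq A B) := reg_fand (reg_fsub _ _) (reg_fsub _ _)

theorem down_fEmb {X : Type v} (A : X → Set P) (Y : Type w) : Down (fEmb A Y) := down_fex _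

theorem reg_fEmb {X : Type v} (A : X → Set P) (Y : Type w) : Reg (fEmb A Y) := reg_fex _

theorem down_fCtbl {X : Type v} (A : X → Set P) : Down (fCtbl A) := down_fex _

theorem reg_fCtbl {X : Type v} (A : X → Set P) : Reg (fCtbl A) := reg_fex _

theorem down_fFin {X : Type v} (A : X → Set P) : Down (fFin A) := down_fex _

theorem reg_fFin {X : Type v} (A : X → Set P) : Reg (fFin A) := reg_fex _

theorem down_fSmall {X : Type v} (κ : Cardinal.{u}) (A : X → Set P) : Down (fSmall κ A) := down_fex _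

theorem reg_fSmall {X : Type v} (κ : Cardinal.{u}) (A : X → Set P) : Reg (fSmall κ A) := reg_fex _

/-- `x ∈ A` for a union -/
theorem mem_fmem_of_feq {X : Type v} {A B : X → Set P} {x : X} {p : P} (h : p ∈ feq A B) (h' : p ∈ fmem A x) :
    p ∈ fmem B x := fimp_mp (h.1 x) h' (down_fmem _ _) (reg_fmem _ _)

theorem mem_fmem_of_fsub {X : Type v} {A B : X → Set P} {x : X} {p : P} (h : p ∈ fsub A B) (h' : p ∈ fmem A x) :
    p ∈ fmem B x := fimp_mp (h x) h' (down_fmem _ _) (reg_fmem _ _)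

theorem feq_symm {X : Type v} {A B : X → Set P} {p : P} (h : p ∈ feq A B) : p ∈ feq B A := ⟨h.2, h.1⟩

theorem fsub_of {X : Type v} {A B : X → Set P} {p : P} (h : ∀ x, ∀ q, q ≤ p → q ∈ fmem A x → q ∈ fmem B x) :
    p ∈ fsub A B := fun x => mem_fimp.2 fun q hq hx => ⟨q, le_rfl, h x q hq hx⟩

theorem feq_trans {X : Type v} {A B C : X → Set P} {p : P} (h : p ∈ feq A B) (h' : p ∈ feq B C) : p ∈ feq A C :=
  ⟨fsub_of fun _ q hq hx => mem_fmem_of_feq (down_feq _ _ _ h' q hq) (mem_fmem_of_feq (down_feq _ _ _ h q hq) hx),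
    fsub_of fun _ q hq hx => mem_fmem_of_feq (down_feq _ _ _ (feq_symm h) q hq)
      (mem_fmem_of_feq (down_feq _ _ _ (feq_symm h') q hq) hx)⟩

end Language

-- #end
-- #block dist
/-! ## Distributivity and closure -/

/-- `P` is `ω`-distributive. -/
def SigmaDistr (P : Type u) [Preorder P] : Prop :=
  ∀ (𝒟 : ℕ → Set P) (p : P), (∀ n q, q ≤ p → ∃ r, r ≤ q ∧ r ∈ 𝒟 n) → (∀ n, Down (𝒟 n)) →
    ∃ q, q ≤ p ∧ ∀ n, q ∈ 𝒟 n

/-- decreasing sequences have lower bounds -/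
def SigmaClosed (P : Type u) [Preorder P] : Prop := ∀ s : ℕ → P, (∀ n, s (n + 1) ≤ s n) → ∃ l, ∀ n, l ≤ s n

/-- `Q` is `θ`-distributive -/
def Distr (Q : Type u) [Preorder Q] (θ : Cardinal.{u}) : Prop :=
  ∀ (A : Type u), #A ≤ θ → ∀ (Ψ : A → Set Q) (p : Q), (∀ a q, q ≤ p → ∃ r, r ≤ q ∧ r ∈ Ψ a) → (∀ a, Down (Ψ a)) →
    ∃ q, q ≤ p ∧ ∀ a, q ∈ Ψ a

/-- directed subsets of cardinality less than `μ` have lower bounds -/
def DClosed (Q : Type u) [Preorder Q] (μ : Cardinal.{u}) : Prop :=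
  ∀ Z : Set Q, Z.Nonempty → (∀ x ∈ Z, ∀ y ∈ Z, ∃ z ∈ Z, z ≤ x ∧ z ≤ y) → #Z < μ → ∃ r, ∀ z ∈ Z, r ≤ z

/-- `P` is the projection of a product of a poset of size at most `θ` and a `θ`-distributive poset. -/
def Decomp (P : Type u) [Preorder P] (θ : Cardinal.{u}) : Prop :=
  ∃ (S T : Type u) (_ : Preorder S) (_ : Preorder T) (g : S → T → P), #S ≤ θ ∧ Distr T θ ∧
    (∀ s' s t' t, s' ≤ s → t' ≤ t → g s' t' ≤ g s t) ∧
    (∀ s t q, q ≤ g s t → ∃ s' t', s' ≤ s ∧ t' ≤ t ∧ g s' t' ≤ q) ∧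
    (∀ s' s t' t, g s' t' ≤ g s t → s' ≤ s) ∧ ∀ q, ∃ s t, g s t ≤ q

-- #end
-- #block gideal
/-! ## Names for ideals of countable ground model sets -/

/-- `I b` is the set of conditions which force `b ∈ I`, where `I` is a P-ideal of countable subsets of `S`. The order
is given by the relation `le`. -/
structure GIdeal {P S : Type u} (le : P → P → Prop) (I : Set S → Set P) (p0 : P) : Prop where
  ctbl : ∀ r b, r ∈ I b → b.Countable
  down : ∀ r b, r ∈ I b → ∀ r', le r' r → r' ∈ I b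
  sub : ∀ r b c, r ∈ I b → c ⊆ b → r ∈ I c
  fin : ∀ r, le r p0 → ∀ F : Set S, F.Finite → r ∈ I F
  union : ∀ r b c, r ∈ I b → r ∈ I c → r ∈ I (b ∪ c)
  pid : ∀ r, le r p0 → ∀ b : ℕ → Set S, (∀ n, r ∈ I (b n)) →
    ∃ r', le r' r ∧ ∃ a, r' ∈ I a ∧ ∀ n, (b n \ a).Finite

/-- `p0` forces that `S` is not the union of countably many sets which are orthogonal to `I`. -/
def ND {P S : Type u} (le : P → P → Prop) (I : Set S → Set P) (p0 : P) : Prop :=
  ∀ C : S → ℕ → Set P, (∀ x n r, r ∈ C x n → ∀ r', le r' r → r' ∈ C x n) →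
    ∀ q, le q p0 → (∀ x q', le q' q → ∃ q'', le q'' q' ∧ ∃ n, q'' ∈ C x n) →
      ∃ q', le q' q ∧ ∃ n, ∃ b : Set S, b.Infinite ∧ q' ∈ I b ∧ ∀ x ∈ b, q' ∈ C x n

-- #end
-- #block rc
/-! ## The product poset and its reduced versions -/

/-- Conditions: an infinite `B ⊆ ω`, an element of `A` and elements of the `T n`. -/
structure RC (A : Type u) (T : ℕ → Type u) : Type u where
  B : Set ℕ
  inf : B.Infinite
  a : A
  f : ∀ n, T n

section RC

variable {A : Type u} {T : ℕ → Type u} [Preorder A] [∀ n, Preorder (T n)]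

/-- The order `≤_E`: `B' ⊆* B`, `a' ≤ a`, `f' n ≤ f n` for `n ∈ E` and for almost all `n ∈ B'`. -/
def leE (E : Set ℕ) (r' r : RC A T) : Prop :=
  (r'.B \ r.B).Finite ∧ r'.a ≤ r.a ∧ (∀ n ∈ E, r'.f n ≤ r.f n) ∧ {n | n ∈ r'.B ∧ ¬ r'.f n ≤ r.f n}.Finite

theorem leE_refl (E : Set ℕ) (r : RC A T) : leE E r r := by
  refine ⟨by simp, le_rfl, fun _ _ => le_rfl, ?_⟩
  simp

theorem leE_trans {E : Set ℕ} {r'' r' r : RC A T} (h : leE E r'' r') (h' : leE E r' r) : leE E r'' r := by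
  refine ⟨(h.1.union h'.1).subset fun n hn => ?_, h.2.1.trans h'.2.1,
    fun n hn => (h.2.2.1 n hn).trans (h'.2.2.1 n hn), ((h.2.2.2.union h'.2.2.2).union h.1).subset fun n hn => ?_⟩
  · by_cases h1 : n ∈ r'.B
    · exact Or.inr ⟨h1, hn.2⟩
    · exact Or.inl ⟨hn.1, h1⟩
  · by_cases h1 : n ∈ r'.B
    · by_cases h2 : r''.f n ≤ r'.f n
      · exact Or.inl (Or.inr ⟨h1, fun h3 => hn.2 (h2.trans h3)⟩)
      · exact Or.inl (Or.inl ⟨hn.1, h2⟩)
    · exact Or.inr ⟨hn.1, h1⟩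

theorem leE_mono {E E' : Set ℕ} (hE : E ⊆ E') {r' r : RC A T} (h : leE E' r' r) : leE E r' r :=
  ⟨h.1, h.2.1, fun n hn => h.2.2.1 n (hE hn), h.2.2.2⟩

/-- the true order of the product: `≤_ω` -/
instance RC.preorder : Preorder (RC A T) where
  le r' r := leE Set.univ r' r
  le_refl r := leE_refl _ r
  le_trans _ _ _ h h' := leE_trans h h'

theorem RC.le_iff {r' r : RC A T} : r' ≤ r ↔ leE Set.univ r' r := Iff.rfl

theorem RC.leE_of_le {E : Set ℕ} {r' r : RC A T} (h : r' ≤ r) : leE E r' r := leE_mono (Set.subset_univ _) h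

/-- The forcing of the theorem: the same conditions with the weaker order `≤_∅`. -/
structure P1 (A : Type u) (T : ℕ → Type u) : Type u where
  /-- the condition -/
  r : RC A T

instance P1.preorder : Preorder (P1 A T) where
  le q p := leE ∅ q.r p.r
  le_refl p := leE_refl _ p.r
  le_trans _ _ _ h h' := leE_trans h h'

theorem P1.le_iff {q p : P1 A T} : q ≤ p ↔ leE ∅ q.r p.r := Iff.rfl

end RC

-- #end
-- #block fn
/-! ## Cohen conditions and their ultrapower tails -/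

/-- The ultrafilter `W` is `κ`-complete. -/
def Compl {K : Type u} (W : Ultrafilter K) (κ : Cardinal.{u}) : Prop :=
  ∀ 𝒜 : Set (Set K), #𝒜 < κ → (∀ A ∈ 𝒜, A ∈ W) → ⋂₀ 𝒜 ∈ W

/-- partial functions from `X` to `2` of size less than `μ` -/
def Fn (X : Type u) (μ : Cardinal.{u}) : Type u := {a : X → Option Bool // #{x | a x ≠ none} < μ}

/-- `a' ≤ a` iff `a'` extends `a` -/
instance Fn.preorder (X : Type u) (μ : Cardinal.{u}) : Preorder (Fn X μ) where
  le a' a := ∀ x, a.1 x ≠ none → a'.1 x = a.1 x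
  le_refl _ _ _ := rfl
  le_trans a b c h h' x hx := by
    have h1 := h' x hx
    have h2 := h x (by rw [h1]; exact hx)
    rw [h2, h1]

theorem Fn.le_iff {X : Type u} {μ : Cardinal.{u}} {a' a : Fn X μ} :
    a' ≤ a ↔ ∀ x, a.1 x ≠ none → a'.1 x = a.1 x := Iff.rfl

open Classical in
/-- the union of `a` and `b`, where `a` has priority (and `a` if this is not a condition) -/
noncomputable def Fn.join {X : Type u} {μ : Cardinal.{u}} (a b : Fn X μ) : Fn X μ :=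
  if h : #{x | (a.1 x).or (b.1 x) ≠ none} < μ then ⟨fun x => (a.1 x).or (b.1 x), h⟩ else a

/-- Functions `h` from `K` to `Fn X μ` such that every `x` is outside the domain of `h α` for `W`-almost all `α`. -/
def Tl (X K : Type u) (μ : Cardinal.{u}) (W : Ultrafilter K) : Type u :=
  {h : K → Fn X μ // ∀ x, ∀ᶠ α in (W : Filter K), (h α).1 x = none}

instance Tl.preorder (X K : Type u) (μ : Cardinal.{u}) (W : Ultrafilter K) : Preorder (Tl X K μ W) where
  le h' h := ∀ᶠ α in (W : Filter K), h'.1 α ≤ h.1 α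
  le_refl _ := Filter.Eventually.of_forall fun _ => le_rfl
  le_trans _ _ _ h h' := by filter_upwards [h, h'] with α h1 h2 using h1.trans h2

theorem Tl.le_iff {X K : Type u} {μ : Cardinal.{u}} {W : Ultrafilter K} {h' h : Tl X K μ W} :
    h' ≤ h ↔ ∀ᶠ α in (W : Filter K), h'.1 α ≤ h.1 α := Iff.rfl

-- #end
-- #block setup
/-- The cardinals `μ 0 = ω₂`, `μ (n + 1) = (2 ^ c n)⁺`. -/
noncomputable def mu (c : ℕ → Cardinal.{u}) : ℕ → Cardinal.{u}
  | 0 => ℵ_ 2
  | n + 1 => Order.succ (2 ^ c n)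

/-- `Car (c n) × Car (mu c n)` -/
abbrev XX (c : ℕ → Cardinal.{u}) (n : ℕ) : Type u := Car (c n) × Car (mu c n)

/-- the product of the posets adding `c n` subsets of `mu c n` -/
abbrev AA (c : ℕ → Cardinal.{u}) : Type u := ∀ n, Fn (XX c n) (mu c n)

/-- the tail posets -/
abbrev TT (c : ℕ → Cardinal.{u}) (W : ∀ n, Ultrafilter (Car (c n))) (n : ℕ) : Type u :=
  Tl (XX c n) (Car (c n)) (mu c n) (W n)

/-- the product poset -/
abbrev RR (c : ℕ → Cardinal.{u}) (W : ∀ n, Ultrafilter (Car (c n))) : Type u := RC (AA c) (TT c W)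

/-- the forcing of the theorem -/
abbrev PP (c : ℕ → Cardinal.{u}) (W : ∀ n, Ultrafilter (Car (c n))) : Type u := P1 (AA c) (TT c W)

/-- The data of the theorem: the `c n` are measurable cardinals with measures `W n`. -/
structure Setup (c : ℕ → Cardinal.{u}) (W : ∀ n, Ultrafilter (Car (c n))) : Prop where
  mono : StrictMono c
  strong : ∀ n, (c n).IsStrongLimit
  unc : ∀ n, ℵ₀ < c n
  compl : ∀ n, Compl (W n) (c n)
  nonpr : ∀ n x, {x} ∉ W n

/-- The condition `r + α` at `n`: replace `a n` by `a n ∪ f n α`. -/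
noncomputable def plus {c : ℕ → Cardinal.{u}} {W : ∀ n, Ultrafilter (Car (c n))} (r : RR c W) (n : ℕ)
    (α : Car (c n)) : RR c W :=
  ⟨r.B, r.inf, Function.update r.a n ((r.a n).join ((r.f n).1 α)), r.f⟩

-- #end
-- #block wit
/-! ## Witnesses (for Theorem C) -/

section Wit

variable {A : Type u} {T : ℕ → Type u} [Preorder A] [∀ n, Preorder (T n)] {S : Type u}

/-- an `(E, n)`-witness for `r` -/
def Wit (I : Set S → Set (RC A T)) (C : S → ℕ → Set (RC A T)) (E : Set ℕ) (n : ℕ) (r r' : RC A T) (b : Set S)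
    (p : S → RC A T) : Prop :=
  b.Infinite ∧ leE E r' r ∧ r' ∈ I b ∧ ∀ x ∈ b, leE E r' (p x) ∧ p x ≤ r ∧ p x ∈ C x n

/-- `r` has no `(E, n)`-witness -/
def Bad (I : Set S → Set (RC A T)) (C : S → ℕ → Set (RC A T)) (E : Set ℕ) (n : ℕ) (r : RC A T) : Prop :=
  ∀ r' b p, ¬ Wit I C E n r r' b p

/-- the witnesses for the reduced order -/
def Wit1 (I : Set S → Set (RC A T)) (C : S → ℕ → Set (RC A T)) (E : Set ℕ) (n : ℕ) (r f h : RC A T) (b : Set S)
    (g p : S → RC A T) : Prop :=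
  b.Infinite ∧ leE ∅ h f ∧ h ∈ I b ∧ ∀ x ∈ b, leE ∅ h (g x) ∧ leE E (g x) f ∧ leE E (g x) (p x) ∧ p x ≤ r ∧ p x ∈ C x n

end Wit

-- #end
-- #block ee
/-! ## The poset for Theorem D -/

section EEdefs

variable {R S : Type u} [Preorder R]

/-- `r` forces that `X` is cofinal in `(I, ⊆*)` -/
def IsCof (I : Set S → Set R) (r : R) (X : Set S → Set R) : Prop :=
  ∀ r' ≤ r, ∀ b, r' ∈ I b → ∃ r'' ≤ r', ∃ b', r'' ∈ X b' ∧ (b \ b').Finite

/-- `X` is a name for a subset of `I` -/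
def NmOK (I : Set S → Set R) (X : Set S → Set R) : Prop :=
  (∀ b, X b ⊆ I b) ∧ ∀ b ρ, ρ ∈ X b → ∀ ρ' ≤ ρ, ρ' ∈ X b

/-- the name for `{b ∈ X | c ⊆ b}` -/
def restr (X : Set S → Set R) (c : Set S) : Set S → Set R := fun b => {ρ | ρ ∈ X b ∧ c ⊆ b}

/-- the range of a partial function -/
def rng {Ω : Type u} (x : Ω → Option S) : Set S := {s | ∃ i, x i = some s}

/-- The conditions: `r` is a condition of `R`, `x` is a countable injective partial function from `ω₁` to `S` with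
range in `I`, and `G` is a countable set of promises. -/
structure EE (R S : Type u) [Preorder R] (I : Set S → Set R) (r0 : R) : Type u where
  r : R
  x : Car.{u} (ℵ_ 1) → Option S
  G : Set ((Set S → Set R) × Set S)
  le : r ≤ r0
  inj : ∀ i j s, x i = some s → x j = some s → i = j
  ctblx : {i | x i ≠ none}.Countable
  mem : r ∈ I (rng x)
  ctblG : G.Countable
  prom : ∀ X c, (X, c) ∈ G → NmOK I X ∧ c ⊆ rng x ∧ IsCof I r (restr X (rng x \ c))

instance EE.preorder (I : Set S → Set R) (r0 : R) : Preorder (EE R S I r0) where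
  le q p := q.r ≤ p.r ∧ (∀ i, p.x i ≠ none → q.x i = p.x i) ∧ p.G ⊆ q.G
  le_refl p := ⟨le_rfl, fun _ _ => rfl, subset_rfl⟩
  le_trans a b c h h' := ⟨h.1.trans h'.1, fun i hi => by
    have h1 := h'.2.1 i hi
    have h2 := h.2.1 i (by rw [h1]; exact hi)
    rw [h2, h1], h'.2.2.trans h.2.2⟩

theorem EE.le_iff {I : Set S → Set R} {r0 : R} {q p : EE R S I r0} :
    q ≤ p ↔ q.r ≤ p.r ∧ (∀ i, p.x i ≠ none → q.x i = p.x i) ∧ p.G ⊆ q.G := Iff.rfl

/-- the conditions below some member of `𝒟` -/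
def dn {P : Type u} [Preorder P] (𝒟 : Set P) : Set P := {d | ∃ e ∈ 𝒟, d ≤ e}

/-- `ρ` forces that below `d` and with new part inside any cofinite subset of `b0` there are conditions in `𝒟` -/
def Kprop (I : Set S → Set R) {r0 : R} (ρ : R) (d : EE R S I r0) (𝒟 : Set (EE R S I r0)) (b0 : Set S) : Prop :=
  ρ ∈ I b0 ∧ ∀ F : Set S, F.Finite → ∀ ρ' ≤ ρ, ∃ d' ∈ dn 𝒟, d' ≤ d ∧ d'.r ≤ ρ' ∧ rng d'.x \ rng d.x ⊆ b0 \ F

/-- the closure properties of the countable models -/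
structure GoodM (I : Set S → Set R) (r0 : R) (β : EE R S I r0 → EE R S I r0 → Set (EE R S I r0) → Set S)
    (Fk : Set S → ℕ → Set S) (M : Set (EE R S I r0 ⊕ Set (EE R S I r0))) : Prop where
  amalg : ∀ e e', Sum.inl e ∈ M → Sum.inl e' ∈ M → (∃ ρ, ρ ≤ e.r ∧ ρ ≤ e'.r) →
    ∃ e'', Sum.inl e'' ∈ M ∧ e''.r ≤ e.r ∧ e''.r ≤ e'.r
  key : ∀ d e 𝒟, Sum.inl d ∈ M → Sum.inl e ∈ M → Sum.inr 𝒟 ∈ M → DenseSet 𝒟 → e.r ≤ d.r →
    ∃ e', Sum.inl e' ∈ M ∧ e'.r ≤ e.r ∧ Kprop I e'.r d 𝒟 (β e' d 𝒟)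
  ext : ∀ d e e' 𝒟 k, Sum.inl d ∈ M → Sum.inl e ∈ M → Sum.inl e' ∈ M → Sum.inr 𝒟 ∈ M →
    Kprop I e.r d 𝒟 (β e d 𝒟) → e'.r ≤ e.r →
    ∃ d', Sum.inl d' ∈ M ∧ d' ∈ dn 𝒟 ∧ d' ≤ d ∧ d'.r ≤ e'.r ∧ rng d'.x \ rng d.x ⊆ β e d 𝒟 \ Fk (β e d 𝒟) k
  up : ∀ d 𝒟, Sum.inl d ∈ M → Sum.inr 𝒟 ∈ M → d ∈ dn 𝒟 → ∃ e ∈ 𝒟, Sum.inl e ∈ M ∧ d ≤ e

end EEdefs

-- #end
-- #block pi
/-- pseudo-intersections of directed families of at most `ℵ₁` infinite subsets of `ω` -/
def PI : Prop :=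
  ∀ (ι : Type u) (B : ι → Set ℕ), #ι < ℵ_ 2 → Nonempty ι → (∀ i, (B i).Infinite) →
    (∀ i j, ∃ k, (B k \ B i).Finite ∧ (B k \ B j).Finite) → ∃ B' : Set ℕ, B'.Infinite ∧ ∀ i, (B' \ B i).Finite

-- #end
-- #block gpid
/-- the dichotomy for names of ideals of countable ground model sets, in a weak form -/
def GPID (P : Type u) [Preorder P] : Prop :=
  ∀ (S : Type u) (I : Set S → Set P) (p : P), GIdeal (fun q p : P => q ≤ p) I p → ND (fun q p : P => q ≤ p) I p →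
    ∃ q ≤ p, ∃ A : Set S, ¬ A.Countable ∧ ∀ b ⊆ A, b.Countable → q ∈ I b

-- #end
-- #block split
/-! ## Splitting conditions -/

section Split

variable {c : ℕ → Cardinal.{u}} {W : ∀ n, Ultrafilter (Car (c n))}

/-- the small part of a condition: `B` and the coordinates `k ≤ m` of `a` -/
structure Sm (c : ℕ → Cardinal.{u}) (m : ℕ) : Type u where
  B : Set ℕ
  inf : B.Infinite
  a : ∀ k : {k : ℕ // k ≤ m}, Fn (XX c k) (mu c k)

instance Sm.preorder (c : ℕ → Cardinal.{u}) (m : ℕ) : Preorder (Sm c m) where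
  le s' s := (s'.B \ s.B).Finite ∧ s'.a ≤ s.a
  le_refl s := ⟨by simp, le_rfl⟩
  le_trans s'' s' s h h' := ⟨(h.1.union h'.1).subset fun n hn => by
    by_cases h1 : n ∈ s'.B
    · exact Or.inr ⟨h1, hn.2⟩
    · exact Or.inl ⟨hn.1, h1⟩, h.2.trans h'.2⟩

/-- the tail: the coordinates `k > m` matter -/
structure Tm (c : ℕ → Cardinal.{u}) (W : ∀ n, Ultrafilter (Car (c n))) (m : ℕ) : Type u where
  a : AA c
  f : ∀ n, TT c W n

instance Tm.preorder (c : ℕ → Cardinal.{u}) (W : ∀ n, Ultrafilter (Car (c n))) (m : ℕ) : Preorder (Tm c W m) where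
  le t' t := ∀ k, m < k → t'.a k ≤ t.a k ∧ t'.f k ≤ t.f k
  le_refl t k _ := ⟨le_rfl, le_rfl⟩
  le_trans t'' t' t h h' k hk := ⟨(h k hk).1.trans (h' k hk).1, (h k hk).2.trans (h' k hk).2⟩

open Classical in
/-- the condition with small part `s` and tail `t` -/
noncomputable def graft {m : ℕ} (s : Sm c m) (t : Tm c W m) : RR c W :=
  ⟨s.B, s.inf, fun k => if h : k ≤ m then s.a ⟨k, h⟩ else t.a k, t.f⟩

end Split

-- #end
-- #block uu
section UUdef

variable {c : ℕ → Cardinal.{u}} {W : ∀ n, Ultrafilter (Car (c n))}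

/-- the name for the ultrafilter -/
def UU {κ : Cardinal.{u}} (e : ∀ n, Car (c n) → Car κ) (X : Car κ → Set (PP c W)) : Set (PP c W) :=
  {p | ∃ k, ∀ n ∈ p.r.B, k ≤ n → ∀ᶠ α in (W n : Filter (Car (c n))), (⟨plus p.r n α⟩ : PP c W) ∈ fmem X (e n α)}

end UUdef

-- #end
end Pool.Agent.H215_PID
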