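import Pool.Agent.H215_PID.Cohen

set_option autoImplicit false
set_option linter.unusedSectionVars false

universe u v w

namespace Pool.Agent.H215_PID

open Cardinal Ordinal Set Filter
open Pool.Agent.H215_MRP (Car IsMeasurable)

section

variable {c : ℕ → Cardinal.{u}} {W : ∀ n, Ultrafilter (Car (c n))}

theorem mu_regular (h : Setup c W) (n : ℕ) : (mu c n).IsRegular := by
  cases n with
  | zero =>
    show Cardinal.IsRegular (ℵ_ 2 : Cardinal.{u})
    rw [← one_add_one_eq_two, ← Cardinal.succ_aleph]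
    exact Cardinal.isRegular_succ (Cardinal.aleph0_le_aleph 1)
  | succ n =>
    show Cardinal.IsRegular (Order.succ ((2 : Cardinal.{u}) ^ c n))
    exact Cardinal.isRegular_succ ((h.unc n).le.trans (Cardinal.cantor (c n)).le)

end

section

variable {c : ℕ → Cardinal.{u}} {W : ∀ n, Ultrafilter (Car (c n))}

theorem mu_lt (h : Setup c W) (n : ℕ) : mu c n < c n := by
  cases n with
  | zero =>
    show ℵ_ 2 < c 0
    have h0 := h.unc 0
    have h1 : (ℵ_ 1 : Cardinal.{u}) ≤ 2 ^ ℵ₀ := aleph_one_le_continuum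
    have h2 : (ℵ_ 1 : Cardinal.{u}) < c 0 := h1.trans_lt ((h.strong 0).two_power_lt h0)
    have h3 : (ℵ_ 2 : Cardinal.{u}) = Order.succ (ℵ_ 1) := by
      rw [← aleph_succ]
      congr 1
      rw [← Ordinal.succ_one]
    rw [h3]
    exact (Order.succ_le_of_lt (cantor (ℵ_ 1))).trans_lt ((h.strong 0).two_power_lt h2)
  | succ n =>
    show Order.succ (2 ^ c n) < c (n + 1)
    have h0 : c n < c (n + 1) := h.mono (Nat.lt_succ_self n)
    have h1 := (h.strong (n + 1)).two_power_lt h0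
    exact (Order.succ_le_of_lt (cantor (2 ^ c n))).trans_lt ((h.strong (n + 1)).two_power_lt h1)

end

section

variable {c : ℕ → Cardinal.{u}} {W : ∀ n, Ultrafilter (Car (c n))}

theorem aleph2_le_mu (h : Setup c W) (n : ℕ) : ℵ_ 2 ≤ mu c n := by
  cases n with
  | zero => exact le_rfl
  | succ n =>
    have h1 : ℵ_ 1 ≤ c n := by
      rw [← Cardinal.succ_aleph0]
      exact Order.succ_le_of_lt (h.unc n)
    have h2 : ℵ_ 1 ≤ 2 ^ c n := h1.trans (Cardinal.cantor (c n)).le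
    have h3 : ℵ_ 2 = Order.succ (ℵ_ 1) := by
      rw [Cardinal.succ_aleph, one_add_one_eq_two]
    rw [h3]
    exact Order.succ_le_succ h2

end

section

variable {c : ℕ → Cardinal.{u}} {W : ∀ n, Ultrafilter (Car (c n))}

theorem mu_succ_le (h : Setup c W) {m k : ℕ} (hk : m < k) : mu c (m + 1) ≤ mu c k := by
  obtain ⟨k', rfl⟩ : ∃ k', k = k' + 1 := ⟨k - 1, by omega⟩
  have hm : m ≤ k' := by omega
  show Order.succ (2 ^ c m) ≤ Order.succ (2 ^ c k')
  exact Order.succ_le_succ (Cardinal.power_le_power_left two_ne_zero (h.mono.monotone hm))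

end

section

variable {c : ℕ → Cardinal.{u}} {W : ∀ n, Ultrafilter (Car (c n))}

theorem small_card (h : Setup c W) {m n : ℕ} (hm : m < n) : #(Fn (XX c m) (mu c m)) < c n := by
  have h1 : #(Fn (XX c m) (mu c m)) ≤ #(XX c m → Option Bool) := mk_subtype_le _
  have hcar : ∀ k : Cardinal.{u}, #(Car k) = k := fun k => by
    rw [Cardinal.mk_toType, card_ord]
  have hinf : ℵ₀ ≤ c m := (h.unc m).le
  have h2 : #(XX c m) = c m * mu c m := by
    rw [Cardinal.mk_prod, hcar, hcar]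
    simp
  have h3 : #(XX c m) ≤ c m := by
    rw [h2]
    exact (mul_le_mul' le_rfl (mu_lt h m).le).trans (mul_eq_self hinf).le
  have h4 : #(XX c m → Option Bool) ≤ 2 ^ c m := by
    have e1 : #(XX c m → Option Bool) = (#(Option Bool)).lift ^ (#(XX c m)).lift := Cardinal.mk_arrow _ _
    rw [e1]
    have e2 : (#(Option Bool)).lift = ((3 : ℕ) : Cardinal.{u}) := by
      simp
    rw [e2, Cardinal.lift_uzero]
    have e3 : ((3 : ℕ) : Cardinal.{u}) ^ #(XX c m) ≤ ((3 : ℕ) : Cardinal.{u}) ^ c m :=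
      Cardinal.power_le_power_left (by norm_num) h3
    refine e3.trans ?_
    have e4 : ((3 : ℕ) : Cardinal.{u}) ≤ (2 : Cardinal.{u}) ^ (2 : Cardinal.{u}) := by
      have : (2 : Cardinal.{u}) ^ (2 : Cardinal.{u}) = ((4 : ℕ) : Cardinal.{u}) := by
        have e5 : (2 : Cardinal.{u}) ^ (2 : Cardinal.{u}) = (2 : Cardinal.{u}) ^ ((2 : ℕ) : Cardinal.{u}) := by
          norm_num
        rw [e5, Cardinal.power_natCast]
        norm_num
      rw [this]
      exact_mod_cast (by norm_num : 3 ≤ 4)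
    refine (Cardinal.power_le_power_right e4).trans ?_
    rw [← Cardinal.power_mul]
    apply Cardinal.power_le_power_left (by norm_num)
    have e6 : (2 : Cardinal.{u}) ≤ c m := by
      have : (2 : Cardinal.{u}) < ℵ₀ := by exact_mod_cast (Cardinal.natCast_lt_aleph0 (n := 2))
      exact this.le.trans hinf
    exact (mul_le_mul' e6 le_rfl).trans (mul_eq_self hinf).le
  exact (h1.trans h4).trans_lt ((h.strong n).two_power_lt (h.mono hm))

end

section

variable {c : ℕ → Cardinal.{u}} {W : ∀ n, Ultrafilter (Car (c n))}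

theorem exists_setup_strong (κ : Cardinal.{u}) (h : IsMeasurable κ) : κ.IsStrongLimit := by
  obtain ⟨hω, U, hU, hc⟩ := h
  refine ⟨(lt_of_le_of_lt zero_le hω).ne', ?_⟩
  intro γ hγ
  by_contra hcon
  rw [not_lt] at hcon
  have h1 : #(Car κ) ≤ #(Set (Car γ)) := by
    rw [Cardinal.mk_set, Cardinal.mk_ord_toType, Cardinal.mk_ord_toType]
    exact hcon
  obtain ⟨E⟩ := (Cardinal.le_def _ _).1 h1
  classical
  have hY : ∀ i : Car γ, ∃ Y : Set (Car κ), Y ∈ U ∧ ∀ α ∈ Y, ∀ β ∈ Y, (i ∈ E α ↔ i ∈ E β) := by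
    intro i
    by_cases hi : {α : Car κ | i ∈ E α} ∈ U
    · exact ⟨_, hi, fun α hα β hβ => ⟨fun _ => hβ, fun _ => hα⟩⟩
    · refine ⟨_, (Ultrafilter.compl_mem_iff_notMem).2 hi, fun α hα β hβ => ⟨fun h => absurd h hα, fun h => absurd h hβ⟩⟩
  choose Y hYU hY2 using hY
  have h2 : ⋂₀ (Set.range Y) ∈ U := by
    apply hc
    · refine lt_of_le_of_lt Cardinal.mk_range_le ?_
      rw [Cardinal.mk_ord_toType]
      exact hγ
    · rintro _ ⟨i, rfl⟩
      exact hYU i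
  have h3 : ∀ α ∈ ⋂₀ (Set.range Y), ∀ β ∈ ⋂₀ (Set.range Y), α = β := by
    intro α hα β hβ
    apply E.injective
    ext i
    exact hY2 i α (hα _ ⟨i, rfl⟩) β (hβ _ ⟨i, rfl⟩)
  obtain ⟨α, hα⟩ := U.nonempty_of_mem h2
  apply hU α
  refine Filter.mem_of_superset h2 ?_
  intro β hβ
  exact h3 β hβ α hα

theorem exists_setup (h : ∃ c : ℕ → Cardinal.{u}, StrictMono c ∧ ∀ n, IsMeasurable (c n)) :
    ∃ (c : ℕ → Cardinal.{u}) (W : ∀ n, Ultrafilter (Car (c n))), Setup c W := by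
  obtain ⟨c, hmono, hm⟩ := h
  choose W hW using fun n => (hm n).2
  exact ⟨c, W, hmono, fun n => exists_setup_strong _ (hm n), fun n => (hm n).1, fun n => (hW n).2,
    fun n => (hW n).1⟩

end

section

variable {c : ℕ → Cardinal.{u}} {W : ∀ n, Ultrafilter (Car (c n))}

theorem rc_dclosed_image {A : Type u} {Q : Type u} [Preorder A] [Preorder Q] (g : Q → A)
    (hg : ∀ x y : Q, x ≤ y → g x ≤ g y) (hA : DClosed A (ℵ_ 2)) (Z : Set Q) (hne : Z.Nonempty)
    (hdir : ∀ x ∈ Z, ∀ y ∈ Z, ∃ z ∈ Z, z ≤ x ∧ z ≤ y) (hcard : #Z < ℵ_ 2) :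
    ∃ a : A, ∀ z ∈ Z, a ≤ g z := by
  obtain ⟨a, ha⟩ := hA (g '' Z) (hne.image g) (by
    rintro _ ⟨x, hx, rfl⟩ _ ⟨y, hy, rfl⟩
    obtain ⟨z, hz, h1, h2⟩ := hdir x hx y hy
    exact ⟨g z, ⟨z, hz, rfl⟩, hg _ _ h1, hg _ _ h2⟩)
    (lt_of_le_of_lt Cardinal.mk_image_le hcard)
  exact ⟨a, fun z hz => ha _ ⟨z, hz, rfl⟩⟩

theorem rc_dclosed {A : Type u} {T : ℕ → Type u} [Preorder A] [∀ n, Preorder (T n)] (hPI : PI.{u})
    (hA : DClosed A (ℵ_ 2)) (hT : ∀ n, DClosed (T n) (ℵ_ 2)) : DClosed (RC A T) (ℵ_ 2) := by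
  intro Z hne hdir hcard
  obtain ⟨B, hBinf, hB⟩ := hPI Z (fun z => z.1.B) hcard hne.to_subtype (fun z => z.1.inf) (by
    intro i j
    obtain ⟨z, hz, h1, h2⟩ := hdir i.1 i.2 j.1 j.2
    exact ⟨⟨z, hz⟩, h1.1, h2.1⟩)
  obtain ⟨a, ha⟩ := rc_dclosed_image (fun z : RC A T => z.a) (fun x y h => (RC.le_iff.1 h).2.1) hA Z hne hdir hcard
  have hf : ∀ n, ∃ f : T n, ∀ z ∈ Z, f ≤ z.f n := fun n =>
    rc_dclosed_image (fun z : RC A T => z.f n) (fun x y h => (RC.le_iff.1 h).2.2.1 n (Set.mem_univ n)) (hT n) Z hne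
      hdir hcard
  choose f hf using hf
  refine ⟨⟨B, hBinf, a, f⟩, fun z hz => ?_⟩
  refine ⟨hB ⟨z, hz⟩, ha z hz, fun n _ => hf n z hz, ?_⟩
  have : {n | n ∈ B ∧ ¬ f n ≤ z.f n} = ∅ := by
    ext n
    simp only [Set.mem_ofPred_eq, Set.mem_empty_iff_false, iff_false, not_and, not_not]
    intro _
    exact hf n z hz
  show Set.Finite {n | n ∈ B ∧ ¬ f n ≤ z.f n}
  rw [this]
  exact Set.finite_empty

end

section

variable {c : ℕ → Cardinal.{u}} {W : ∀ n, Ultrafilter (Car (c n))}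

theorem rr_dclosed (h : Setup c W) (hPI : PI.{u}) : DClosed (RR c W) (ℵ_ 2) := by
  have hmono : ∀ (Q : Type u) [Preorder Q] (μ ν : Cardinal.{u}), ν ≤ μ → DClosed Q μ →
      DClosed Q ν := fun Q _ μ ν hν hQ Z hZ hd hc => hQ Z hZ hd (hc.trans_le hν)
  refine rc_dclosed hPI (dclosed_pi fun n => ?_) fun n => ?_
  · exact hmono _ _ _ (aleph2_le_mu h n) (fn_dclosed (mu_regular h n))
  · exact hmono _ _ _ (aleph2_le_mu h n) (tl_dclosed (mu_regular h n) (h.compl n) (mu_lt h n))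

end

section

variable {c : ℕ → Cardinal.{u}} {W : ∀ n, Ultrafilter (Car (c n))}

theorem aa_sigma (h : Setup c W) : SigmaClosed (AA c) := by
  have h1 : (ℵ₀ : Cardinal.{u}) < ℵ_ 2 := by
    rw [← Cardinal.aleph_zero]
    exact Cardinal.aleph_lt_aleph.2 (by norm_num)
  refine sigmaClosed_of_dclosed h1 (dclosed_pi fun n Z hZ hd hc => ?_)
  exact fn_dclosed (mu_regular h n) Z hZ hd (hc.trans_le (aleph2_le_mu h n))

end

section

variable {c : ℕ → Cardinal.{u}} {W : ∀ n, Ultrafilter (Car (c n))}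

theorem tt_sigma (h : Setup c W) (n : ℕ) : SigmaClosed (TT c W n) := by
  refine sigmaClosed_of_dclosed (μ := mu c n) (lt_of_lt_of_le ?_ (aleph2_le_mu h n))
    (tl_dclosed (mu_regular h n) (h.compl n) (mu_lt h n))
  rw [← Cardinal.aleph_zero]
  exact Cardinal.aleph_lt_aleph.2 (by norm_num)

end

end Pool.Agent.H215_PID
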