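import Pool.Agent.H215_PID.Gen

set_option autoImplicit false
set_option linter.unusedSectionVars false

universe u v w

namespace Pool.Agent.H215_PID

open Cardinal Ordinal Set Filter
open Pool.Agent.H215_MRP (Car IsMeasurable)

section

-- fn_dclosed done
theorem fn_dclosed {X : Type u} {μ : Cardinal.{u}} (hμ : μ.IsRegular) : DClosed (Fn X μ) μ := by
  classical
  intro Z _ hdir hZ
  -- compatible values
  have hcomp : ∀ a ∈ Z, ∀ b ∈ Z, ∀ x, a.1 x ≠ none → b.1 x ≠ none → a.1 x = b.1 x := by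
    intro a ha b hb x hax hbx
    obtain ⟨c, -, hca, hcb⟩ := hdir a ha b hb
    rw [← hca x hax, ← hcb x hbx]
  set r : X → Option Bool := fun x =>
    if h : ∃ z ∈ Z, z.1 x ≠ none then h.choose.1 x else none with hr
  have hrx : ∀ z ∈ Z, ∀ x, z.1 x ≠ none → r x = z.1 x := by
    intro z hz x hzx
    have h : ∃ z ∈ Z, z.1 x ≠ none := ⟨z, hz, hzx⟩
    have e : r x = h.choose.1 x := by
      rw [hr]
      exact dif_pos h
    rw [e]
    exact hcomp _ h.choose_spec.1 _ hz x h.choose_spec.2 hzx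
  have hsub : {x | r x ≠ none} ⊆ ⋃ z : Z, {x | z.1.1 x ≠ none} := by
    intro x hx
    by_cases h : ∃ z ∈ Z, z.1 x ≠ none
    · obtain ⟨z, hz, hzx⟩ := h
      exact mem_iUnion.2 ⟨⟨z, hz⟩, hzx⟩
    · exfalso
      apply hx
      rw [hr]
      exact dif_neg h
  have hcard : #{x | r x ≠ none} < μ := by
    refine lt_of_le_of_lt (mk_le_mk_of_subset hsub) ?_
    exact (card_iUnion_lt_iff_forall_of_isRegular hμ hZ).2 fun z => z.1.2
  exact ⟨⟨r, hcard⟩, fun z hz x hx => hrx z hz x hx⟩

end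

section

theorem compl_iff_forall {K ι : Type u} {W : Ultrafilter K} {κ : Cardinal.{u}} (hW : Compl W κ) (hι : #ι < κ)
    {p : ι → K → Prop} (h : ∀ i, ∀ᶠ α in (W : Filter K), p i α) : ∀ᶠ α in (W : Filter K), ∀ i, p i α := by
  have h1 : ⋂₀ (Set.range fun i => {α | p i α}) ∈ W := by
    apply hW
    · exact lt_of_le_of_lt Cardinal.mk_range_le hι
    · rintro A ⟨i, rfl⟩
      exact h i
  refine Filter.mem_of_superset (show ⋂₀ (Set.range fun i => {α | p i α}) ∈ (W : Filter K) from h1) ?_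
  intro α hα i
  exact hα _ ⟨i, rfl⟩

end

section

theorem compl_const {K L : Type u} {W : Ultrafilter K} {κ : Cardinal.{u}} (hW : Compl W κ) (hL : #L < κ)
    (g : K → L) : ∃ l, ∀ᶠ α in (W : Filter K), g α = l := by
  by_contra hcon
  push Not at hcon
  have h1 : ∀ l : L, ∀ᶠ α in (W : Filter K), g α ≠ l := hcon
  have h2 := compl_iff_forall hW hL h1
  obtain ⟨α, hα⟩ := h2.exists
  exact hα (g α) rfl

end

section

theorem tl_dclosed {X K : Type u} {μ κ : Cardinal.{u}} {W : Ultrafilter K} (hμ : μ.IsRegular) (hW : Compl W κ)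
    (hκ : μ < κ) : DClosed (Tl X K μ W) μ := by
  classical
  intro Z hZ hdir hcard
  have hZκ : #Z < κ := hcard.trans hκ
  have hZZ : #(Z × Z) < κ := by
    rw [mk_prod, Cardinal.lift_id]
    exact (mul_lt_of_lt hμ.aleph0_le hcard hcard).trans hκ
  -- almost everywhere the values agree
  have hgood : ∀ᶠ α in (W : Filter K), ∀ i : Z × Z, ∀ x, (i.1.1.1 α).1 x ≠ none →
      (i.2.1.1 α).1 x ≠ none → (i.1.1.1 α).1 x = (i.2.1.1 α).1 x := by
    apply compl_iff_forall hW hZZ
    rintro ⟨⟨z, hz⟩, ⟨z', hz'⟩⟩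
    obtain ⟨w, _, h1, h2⟩ := hdir z hz z' hz'
    filter_upwards [h1, h2] with α h1 h2 x hx hx'
    exact (h1 x hx).symm.trans (h2 x hx')
  let val : K → X → Option Bool := fun α x =>
    if h : ∃ z : Z, (z.1.1 α).1 x ≠ none then ((Classical.choose h).1.1 α).1 x else none
  have hval0 : ∀ α x, (∀ z : Z, (z.1.1 α).1 x = none) → val α x = none := by
    intro α x h
    change dite _ _ _ = _
    rw [dif_neg]
    rintro ⟨z, hz⟩
    exact hz (h z)
  have hval1 : ∀ α x, (∃ z : Z, (z.1.1 α).1 x ≠ none) →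
      ∃ z : Z, (z.1.1 α).1 x ≠ none ∧ val α x = (z.1.1 α).1 x := by
    intro α x h
    refine ⟨Classical.choose h, Classical.choose_spec h, ?_⟩
    change dite _ _ _ = _
    rw [dif_pos h]
  have hsupp : ∀ α, #{x | val α x ≠ none} < μ := by
    intro α
    have hsub : {x | val α x ≠ none} ⊆ ⋃ z : Z, {x | (z.1.1 α).1 x ≠ none} := by
      intro x hx
      rw [Set.mem_iUnion]
      by_contra hne
      push Not at hne
      apply hx
      apply hval0
      intro z
      have := hne z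
      rwa [Set.mem_ofPred_eq, not_not] at this
    refine (mk_le_mk_of_subset hsub).trans_lt ?_
    rw [card_iUnion_lt_iff_forall_of_isRegular hμ hcard]
    intro z
    exact (z.1.1 α).2
  refine ⟨⟨fun α => ⟨val α, hsupp α⟩, ?_⟩, ?_⟩
  · intro x
    have : ∀ᶠ α in (W : Filter K), ∀ z : Z, (z.1.1 α).1 x = none :=
      compl_iff_forall hW hZκ fun z => z.1.2 x
    filter_upwards [this] with α hα
    exact hval0 α x hα
  · intro z hz
    change ∀ᶠ α in (W : Filter K), ∀ x, (z.1 α).1 x ≠ none → val α x = (z.1 α).1 x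
    filter_upwards [hgood] with α hα
    intro x hx
    obtain ⟨z', hz', h⟩ := hval1 α x ⟨⟨z, hz⟩, hx⟩
    rw [h]
    exact hα (z', ⟨z, hz⟩) x hz' hx

end

section

theorem fn_join {X : Type u} {μ : Cardinal.{u}} (hμ : ℵ₀ ≤ μ) (a b : Fn X μ) (x : X) :
    (a.join b).1 x = (a.1 x).or (b.1 x) := by
  have h : #{x | (a.1 x).or (b.1 x) ≠ none} < μ := by
    have hsub : {x | (a.1 x).or (b.1 x) ≠ none} ⊆ {x | a.1 x ≠ none} ∪ {x | b.1 x ≠ none} := by
      intro y hy
      by_cases h1 : a.1 y = none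
      · right
        intro h2
        apply hy
        rw [h1, h2]
        rfl
      · exact Or.inl h1
    exact lt_of_le_of_lt ((mk_le_mk_of_subset hsub).trans (mk_union_le _ _)) (add_lt_of_lt hμ a.2 b.2)
  have h2 : a.join b = (⟨fun x => (a.1 x).or (b.1 x), h⟩ : {a : X → Option Bool // #{x | a x ≠ none} < μ}) := dif_pos h
  rw [h2]

end

section

theorem fn_limit {X K : Type u} {μ κ : Cardinal.{u}} {W : Ultrafilter K} (hμ : ℵ₀ ≤ μ) (hW : Compl W κ)
    (hκ : μ < κ) (g : K → Fn X μ) :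
    ∃ (c : Fn X μ) (h : Tl X K μ W), (∀ᶠ α in (W : Filter K), c.join (h.1 α) = g α) ∧
      ∀ (a : Fn X μ) (f : Tl X K μ W), (∀ᶠ α in (W : Filter K), g α ≤ a.join (f.1 α)) → c ≤ a ∧ h ≤ f := by
  classical
  have hex : ∀ x, ∃ v : Option Bool, ∀ᶠ α in (W : Filter K), (g α).1 x = v := by
    intro x
    by_contra hne
    have hne' : ∀ v : Option Bool, ∀ᶠ α in (W : Filter K), ¬ (g α).1 x = v := fun v =>
      Ultrafilter.eventually_not.2 fun hv => hne ⟨v, hv⟩
    have h1 := hne' none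
    have h2 := hne' (some true)
    have h3 := hne' (some false)
    obtain ⟨α, ⟨h1, h2⟩, h3⟩ := ((h1.and h2).and h3).exists
    rcases hv : (g α).1 x with _ | v
    · exact h1 hv
    · cases v
      · exact h3 hv
      · exact h2 hv
  choose c₀ hc₀ using hex
  have hsupp : #{x | c₀ x ≠ none} < μ := by
    by_contra hlt
    push Not at hlt
    obtain ⟨Y, hY, hYμ⟩ := Cardinal.le_mk_iff_exists_subset.1 hlt
    have h1 : ∀ᶠ α in (W : Filter K), ∀ y : Y, (g α).1 y = c₀ y :=
      compl_iff_forall hW (by rw [hYμ]; exact hκ) fun y => hc₀ y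
    obtain ⟨α, hα⟩ := h1.exists
    have h2 : Y ⊆ {x | (g α).1 x ≠ none} := by
      intro y hy
      show (g α).1 y ≠ none
      rw [hα ⟨y, hy⟩]
      exact hY hy
    have h3 := Cardinal.mk_le_mk_of_subset h2
    rw [hYμ] at h3
    exact absurd (h3.trans_lt (g α).2) (lt_irrefl _)
  have hhs : ∀ α, #{x | (if c₀ x = none then (g α).1 x else none) ≠ none} < μ := by
    intro α
    refine lt_of_le_of_lt (Cardinal.mk_le_mk_of_subset ?_) (g α).2
    intro x hx
    simp only [Set.mem_ofPred_eq] at hx ⊢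
    split_ifs at hx with h1
    · exact hx
    · exact absurd rfl hx
  let c : Fn X μ := ⟨c₀, hsupp⟩
  let h : Tl X K μ W := ⟨fun α => ⟨fun x => if c₀ x = none then (g α).1 x else none, hhs α⟩, by
    intro x
    filter_upwards [hc₀ x] with α hα
    show (if c₀ x = none then (g α).1 x else none) = none
    split_ifs with h1
    · rw [hα, h1]
    · rfl⟩
  have hcv : ∀ x, c.1 x = c₀ x := fun _ => rfl
  have hhv : ∀ α x, (h.1 α).1 x = if c₀ x = none then (g α).1 x else none := fun _ _ => rfl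
  refine ⟨c, h, ?_, ?_⟩
  · have h1 : ∀ᶠ α in (W : Filter K), ∀ y : {x | c₀ x ≠ none}, (g α).1 y = c₀ y :=
      compl_iff_forall hW (hsupp.trans hκ) fun y => hc₀ y
    filter_upwards [h1] with α hα
    refine Subtype.ext (funext fun x => ?_)
    rw [fn_join hμ, hcv, hhv]
    by_cases hx : c₀ x = none
    · rw [hx]; simp
    · rw [if_neg hx, hα ⟨x, hx⟩]
      simp
  · intro a f haf
    have hca : c ≤ a := by
      rw [Fn.le_iff]
      intro x hx
      obtain ⟨α, h1, h2⟩ := (haf.and (hc₀ x)).exists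
      have h3 : (a.join (f.1 α)).1 x = a.1 x := by
        rw [fn_join hμ]
        rcases hv : a.1 x with _ | v
        · exact absurd hv hx
        · simp
      have h4 := (Fn.le_iff.1 h1) x (by rw [h3]; exact hx)
      rw [hcv, ← h2, h4, h3]
    refine ⟨hca, ?_⟩
    rw [Tl.le_iff]
    have h1 : ∀ᶠ α in (W : Filter K), ∀ y : {x | c₀ x ≠ none}, (f.1 α).1 y = none :=
      compl_iff_forall hW (hsupp.trans hκ) fun y => f.2 y
    filter_upwards [h1, haf] with α h1 h2
    rw [Fn.le_iff]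
    intro x hx
    have h3 : c₀ x = none := by
      by_contra h3
      exact hx (h1 ⟨x, h3⟩)
    have h4 : a.1 x = none := by
      by_contra h4
      have h5 := (Fn.le_iff.1 hca) x h4
      rw [hcv, h3] at h5
      exact h4 h5.symm
    have h5 : (a.join (f.1 α)).1 x = (f.1 α).1 x := by
      rw [fn_join hμ, h4]
      simp
    have h6 := (Fn.le_iff.1 h2) x (by rw [h5]; exact hx)
    rw [hhv, if_pos h3, h6, h5]

end

section

/-- for a given `h α` almost all `h α'` have disjoint domain -/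
theorem tl_disjoint {X K : Type u} {μ κ : Cardinal.{u}} {W : Ultrafilter K} (hW : Compl W κ)
    (hκ : μ < κ) (a : Fn X μ) (f : Tl X K μ W) :
    ∀ᶠ α in (W : Filter K), ∀ x, a.1 x ≠ none → (f.1 α).1 x = none := by
  have hι : #{x // a.1 x ≠ none} < κ := lt_trans a.2 hκ
  have h := compl_iff_forall (ι := {x // a.1 x ≠ none}) hW hι
    (p := fun x α => (f.1 α).1 x.1 = none) (fun x => f.2 x.1)
  filter_upwards [h] with α hα x hx
  exact hα ⟨x, hx⟩

end

section

theorem join_mono {X K : Type u} {μ κ : Cardinal.{u}} {W : Ultrafilter K} (hμ : ℵ₀ ≤ μ) (hW : Compl W κ)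
    (hκ : μ < κ) {a' a : Fn X μ} {f' f : Tl X K μ W} (ha : a' ≤ a) (hf : f' ≤ f) :
    ∀ᶠ α in (W : Filter K), a'.join (f'.1 α) ≤ a.join (f.1 α) := by
  filter_upwards [tl_disjoint hW hκ a' f, Tl.le_iff.1 hf] with α h1 h2
  rw [Fn.le_iff]
  intro x hx
  rw [fn_join hμ] at hx
  rw [fn_join hμ, fn_join hμ]
  by_cases h3 : a.1 x = none
  · rw [h3] at hx ⊢
    have hx' : (f.1 α).1 x ≠ none := hx
    have h4 : a'.1 x = none := by
      by_contra h5
      exact hx' (h1 x h5)
    rw [h4, Fn.le_iff.1 h2 x hx']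
  · have h4 := Fn.le_iff.1 ha x h3
    rw [h4]
    obtain ⟨y, hy⟩ := Option.ne_none_iff_exists'.1 h3
    rw [hy]
    rfl

end

section

theorem join_le_left {X : Type u} {μ : Cardinal.{u}} (a b : Fn X μ) : a.join b ≤ a := by
  classical
  intro x hx
  by_cases h : #{x | (a.1 x).or (b.1 x) ≠ none} < μ
  · have h1 : a.join b = ⟨fun x => (a.1 x).or (b.1 x), h⟩ := dif_pos h
    rw [h1]
    show (a.1 x).or (b.1 x) = a.1 x
    cases hax : a.1 x with
    | none => exact absurd hax hx
    | some v => rfl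
  · have h1 : a.join b = a := dif_neg h
    rw [h1]

end

end Pool.Agent.H215_PID
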