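import Pool.Agent.H215_PID.Gen

set_option autoImplicit false
set_option linter.unusedSectionVars false

universe u v w

namespace Pool.Agent.H215_PID

open Cardinal Ordinal Set Filter
open Pool.Agent.H215_MRP (Car IsMeasurable)

section

variable {P : Type u} [Preorder P]

theorem not_meas_of_injPow_fmem_compl {X : Type v} (A : X → Set P) (x : X) :
    fmem (ncompl A) x = fnot (fmem A x) :=
  meets_eq (down_fnot _) (reg_fnot (down_fmem _ _))

theorem not_meas_of_injPow_inter_compl {X : Type v} (A : X → Set P) (p : P) :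
    p ∈ fsub (ninter A (ncompl A)) nempty := by
  refine fsub_of fun x q _ hx => ?_
  obtain ⟨r, _, s, hs, _⟩ := mem_meets.1 hx q le_rfl
  have h2 : s ∈ fmem (ncompl A) x := hs.2
  rw [not_meas_of_injPow_fmem_compl] at h2
  exact absurd hs.1 (h2 s le_rfl)

theorem not_meas_of_injPow {lam γ : Cardinal.{u}} (h : γ < lam) {p : P} (hp : p ∈ fInjPow P lam γ) :
    p ∈ fnot (fMeasurable P lam) := by
  intro q hq hM
  obtain ⟨q1, hq1, U, hU, hsing, hcomp⟩ := mem_fex.1 hM.2.2 q le_rfl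
  obtain ⟨q2, hq2, E, hE⟩ := mem_fex.1 hp q1 (hq1.trans hq)
  obtain ⟨_, hne, hup, hint, hult⟩ := hU
  -- facts below `q2`
  have F2 : ∀ r, r ≤ q2 → r ∉ fMem U nempty := fun r hr => hne r (hr.trans hq2)
  have Fup : ∀ (r : P) (A B : Car lam → Set P), r ≤ q2 → r ∈ fMem U A → r ∈ fsub A B → r ∈ fMem U B := by
    intro r A B hr h1 h2
    exact fimp_mp (down_fimp _ _ _ (hup A B) r (hr.trans hq2)) ⟨h1, h2⟩ (down_fand (down_fMem _ _) (down_fsub _ _))
      (reg_fMem _ _)
  have F3 : ∀ (r : P) (A B : Car lam → Set P), r ≤ q2 → r ∈ fMem U A → r ∈ fMem U B → r ∈ fMem U (ninter A B) := by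
    intro r A B hr h1 h2
    exact fimp_mp (down_fimp _ _ _ (hint A B) r (hr.trans hq2)) ⟨h1, h2⟩ (down_fand (down_fMem _ _) (down_fMem _ _))
      (reg_fMem _ _)
  have F4 : ∀ (r : P) (A : Car lam → Set P), r ≤ q2 → r ∈ fOr (fMem U A) (fMem U (ncompl A)) := fun r A hr =>
    down_fOr _ _ _ (hult A) r (hr.trans hq2)
  have F5 : ∀ (r : P) (x : Car lam), r ≤ q2 → r ∉ fMem U (nsing x) := fun r x hr => hsing x r (hr.trans hq2)
  have F6 : ∀ (r : P) (A : Car γ → Car lam → Set P), r ≤ q2 → (∀ i, r ∈ fMem U (A i)) → r ∈ fMem U (nInter A) := by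
    intro r A hr h1
    exact fimp_mp (down_fimp _ _ _ (hcomp ⟨γ, h⟩ A) r (hr.trans hq2)) h1 (down_fall fun _ => down_fMem _ _)
      (reg_fMem _ _)
  let B : Car γ → Car lam → Set P := fun i x => fmem (E x) i
  have hB : ∀ i x, fmem (B i) x = fmem (E x) i := fun i x => meets_eq (down_fmem _ _) (reg_fmem _ _)
  let A : Car γ → Car lam → Set P := fun i x =>
    fOr (fand (fmem (E x) i) (fMem U (B i))) (fand (fnot (fmem (E x) i)) (fMem U (ncompl (B i))))
  have hA : ∀ i x, fmem (A i) x = A i x := fun i x => meets_eq (down_fOr _ _) (reg_fOr _ _)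
  have hI : ∀ x, fmem (nInter A) x = fall fun i => fmem (A i) x := fun x =>
    meets_eq (down_fall fun _ => down_fmem _ _) (reg_fall fun _ => reg_fmem _ _)
  -- every `A i` belongs to `U`
  have hAU : ∀ i, q2 ∈ fMem U (A i) := by
    intro i
    refine reg_fMem _ _ q2 fun q' hq' => ?_
    obtain ⟨r, hr, h1 | h1⟩ := mem_fOr.1 (F4 q' (B i) hq') q' le_rfl
    · refine ⟨r, hr, Fup r (B i) (A i) (hr.trans hq') h1 (fsub_of fun x s hs hx => ?_)⟩
      rw [hA]
      rw [hB] at hx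
      exact mem_fOr.2 fun t ht => ⟨t, le_rfl, Or.inl ⟨down_fmem _ _ _ hx t ht, down_fMem _ _ _ h1 t (ht.trans hs)⟩⟩
    · refine ⟨r, hr, Fup r (ncompl (B i)) (A i) (hr.trans hq') h1 (fsub_of fun x s hs hx => ?_)⟩
      rw [hA]
      rw [not_meas_of_injPow_fmem_compl, hB] at hx
      exact mem_fOr.2 fun t ht => ⟨t, le_rfl, Or.inr ⟨down_fnot _ _ hx t ht, down_fMem _ _ _ h1 t (ht.trans hs)⟩⟩
  have hIU := F6 q2 A le_rfl hAU
  -- the intersection has a member
  obtain ⟨r, x, hr, hx⟩ : ∃ (r : P) (x : Car lam), r ≤ q2 ∧ r ∈ fmem (nInter A) x := by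
    by_contra hc
    push Not at hc
    exact F2 q2 le_rfl (Fup q2 (nInter A) nempty le_rfl hIU (fsub_of fun x s hs hx => absurd hx (hc s x hs)))
  rw [hI] at hx
  -- two members of the intersection have the same value under `E`
  have key : ∀ (s : P) (y z : Car lam) (i : Car γ), s ≤ q2 → s ∈ fmem (A i) y → s ∈ fmem (A i) z →
      s ∈ fmem (E y) i → s ∈ fmem (E z) i := by
    intro s y z i hs hy hz hyi
    rw [hA] at hy hz
    refine reg_fmem _ _ s fun t ht => ?_
    obtain ⟨r1, hr1, h1 | h1⟩ := mem_fOr.1 hy t ht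
    · obtain ⟨r2, hr2, h2 | h2⟩ := mem_fOr.1 hz r1 (hr1.trans ht)
      · exact ⟨r2, hr2.trans hr1, h2.1⟩
      · have hle : r2 ≤ q2 := hr2.trans (hr1.trans (ht.trans hs))
        exact absurd (Fup r2 _ nempty hle (F3 r2 (B i) (ncompl (B i)) hle (down_fMem _ _ _ h1.2 r2 hr2) h2.2)
          (not_meas_of_injPow_inter_compl _ _)) (F2 r2 hle)
    · exact absurd (down_fmem _ _ _ hyi r1 (hr1.trans ht)) (h1.1 r1 le_rfl)
  refine F5 r x hr (Fup r (nInter A) (nsing x) hr (down_fMem _ _ _ hIU r hr) (fsub_of fun y r' hr' hy => ?_))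
  rw [hI] at hy
  have hx' : ∀ i, r' ∈ fmem (A i) x := fun i => down_fmem _ _ _ (hx i) r' hr'
  have hfeq : r' ∈ feq (E x) (E y) :=
    ⟨fsub_of fun i s hs h1 => key s x y i (hs.trans (hr'.trans hr)) (down_fmem _ _ _ (hx' i) s hs)
      (down_fmem _ _ _ (hy i) s hs) h1,
     fsub_of fun i s hs h1 => key s y x i (hs.trans (hr'.trans hr)) (down_fmem _ _ _ (hy i) s hs)
      (down_fmem _ _ _ (hx' i) s hs) h1⟩
  have hxy' : r' ∈ fground (P := P) (x = y) :=
    fimp_mp (down_fimp _ _ _ (hE x y) r' (hr'.trans hr)) hfeq (down_feq _ _) (reg_fground _)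
  have hxy : x = y := hxy'
  exact meets_of_mem (N := nsing x y) (p := r') (show y = x from hxy.symm)

end

section

variable {P : Type u} [Preorder P]

theorem not_meas_of_cover_aux1 {X : Type v} {A : X → Set P} {x : X} {p : P}
    (h : p ∈ fmem (ncompl A) x) : ∃ q, q ≤ p ∧ q ∉ fmem A x := by
  obtain ⟨q, hq, hq2⟩ := exists_of_meets (N := ncompl A x) (down_fnot _) h
  exact ⟨q, hq, hq2 q le_rfl⟩

theorem not_meas_of_cover_aux2 {X : Type v} {ι : Type w} {A : ι → X → Set P} {x : X} {p : P}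
    (h : p ∈ fmem (nInter A) x) : ∃ q, q ≤ p ∧ ∀ i, q ∈ fmem (A i) x := by
  obtain ⟨q, hq, hq2⟩ := exists_of_meets (N := nInter A x) (down_fall fun i => down_fmem _ _) h
  exact ⟨q, hq, hq2⟩

theorem not_meas_of_cover_aux3 {X : Type v} {U : (X → Set P) → Set P} {p : P}
    (hco : p ∈ fall fun A : X → Set P => fOr (fMem U A) (fMem U (ncompl A))) (A : X → Set P)
    (h : ∀ q, q ≤ p → q ∉ fMem U A) : p ∈ fMem U (ncompl A) := by
  refine reg_fMem U _ p fun q hq => ?_
  obtain ⟨r, hr, h1 | h1⟩ := mem_fOr.1 (hco A) q hq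
  · exact absurd h1 (h r (hr.trans hq))
  · exact ⟨r, hr, h1⟩

theorem not_meas_of_cover_aux4 {X : Type v} {U : (X → Set P) → Set P} {p : P}
    (hne : p ∈ fnot (fMem U nempty))
    (hup : p ∈ fall fun A : X → Set P => fall fun B : X → Set P =>
      fimp (fand (fMem U A) (fsub A B)) (fMem U B))
    (A : X → Set P) (h : p ∈ fMem U A) (hA : ∀ x, ∀ q, q ≤ p → q ∉ fmem A x) : False := by
  have h1 : p ∈ fsub A nempty := fsub_of fun x q hq hx => absurd hx (hA x q hq)
  have h2 : p ∈ fMem U nempty :=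
    fimp_mp (hup A nempty) ⟨h, h1⟩ (down_fand (down_fMem _ _) (down_fsub _ _)) (reg_fMem _ _)
  exact hne p le_rfl h2

theorem not_meas_of_cover {lam : Cardinal.{u}} (h : ℵ₀ < lam) (Y : ℕ → Set (Car lam)) (hY : ∀ n, #(Y n) < lam)
    (hU : ∀ x, ∃ n, x ∈ Y n) (p : P) : p ∈ fnot (fMeasurable P lam) := by
  intro q _ hq
  obtain ⟨-, -, hex⟩ := hq
  obtain ⟨r0, -, U, hUlt, hsing, hcpl⟩ := mem_fex.1 hex q le_rfl
  obtain ⟨-, hne, hup, hinter, hco⟩ := hUlt
  -- some `Y n` is forced into `U`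
  have claim : ∃ r, r ≤ r0 ∧ ∃ n, r ∈ fMem U (chk (Y n)) := by
    by_contra hno
    push Not at hno
    have h1 : ∀ n, r0 ∈ fMem U (ncompl (chk (Y n))) := fun n =>
      not_meas_of_cover_aux3 hco _ fun q hq => hno q hq n
    obtain ⟨hD⟩ := Cardinal.denumerable_iff.2 (show #(Car (ℵ₀ : Cardinal.{u})) = ℵ₀ from
      Cardinal.mk_ord_toType ℵ₀)
    let j : Car (ℵ₀ : Cardinal.{u}) ≃ ℕ := Denumerable.eqv _
    let A : Car (ℵ₀ : Cardinal.{u}) → Car lam → Set P := fun i => ncompl (chk (Y (j i)))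
    have h2 : r0 ∈ fMem U (nInter A) :=
      fimp_mp (hcpl ⟨ℵ₀, h⟩ A) (fun i => h1 (j i)) (down_fall fun i => down_fMem _ _) (reg_fMem _ _)
    refine not_meas_of_cover_aux4 hne hup _ h2 fun x q _ hx => ?_
    obtain ⟨q1, -, hq1⟩ := not_meas_of_cover_aux2 hx
    obtain ⟨n, hn⟩ := hU x
    obtain ⟨q2, -, hq2⟩ := not_meas_of_cover_aux1 (hq1 (j.symm n))
    rw [Equiv.apply_symm_apply] at hq2
    exact hq2 (mem_fmem_chk.2 hn)
  obtain ⟨r, hr, n, hn⟩ := claim
  have hne' := down_fnot _ _ hne r hr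
  have hup' : r ∈ fall fun A : Car lam → Set P => fall fun B : Car lam → Set P =>
      fimp (fand (fMem U A) (fsub A B)) (fMem U B) :=
    down_fall (fun A => down_fall fun B => down_fimp _ _) _ hup r hr
  have hco' : r ∈ fall fun A : Car lam → Set P => fOr (fMem U A) (fMem U (ncompl A)) :=
    down_fall (fun A => down_fOr _ _) _ hco r hr
  obtain ⟨e⟩ := Cardinal.eq.1 (show #(Car (#(Y n))) = #(Y n) from Cardinal.mk_ord_toType _)
  let A : Car (#(Y n)) → Car lam → Set P := fun i => ncompl (nsing (e i : Car lam))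
  have h1 : ∀ i, r ∈ fMem U (A i) := fun i =>
    not_meas_of_cover_aux3 hco' _ fun q hq h2 => hsing (e i : Car lam) q (hq.trans hr) h2
  have h2 : r ∈ fMem U (nInter A) :=
    fimp_mp (down_fimp _ _ _ (hcpl ⟨#(Y n), hY n⟩ A) r hr) h1 (down_fall fun i => down_fMem _ _)
      (reg_fMem _ _)
  have h3 : r ∈ fMem U (ninter (chk (Y n)) (nInter A)) :=
    fimp_mp (down_fimp _ _ _ (hinter (chk (Y n)) (nInter A)) r hr) ⟨hn, h2⟩
      (down_fand (down_fMem _ _) (down_fMem _ _)) (reg_fMem _ _)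
  refine not_meas_of_cover_aux4 hne' hup' _ h3 fun x q _ hx => ?_
  obtain ⟨q1, -, hq1⟩ := exists_of_meets (N := ninter (chk (Y n)) (nInter A) x)
    (down_fand (down_fmem _ _) (down_fmem _ _)) hx
  have hxY : x ∈ Y n := mem_fmem_chk.1 hq1.1
  obtain ⟨q2, -, hq2⟩ := not_meas_of_cover_aux2 hq1.2
  obtain ⟨q3, -, hq3⟩ := not_meas_of_cover_aux1 (hq2 (e.symm ⟨x, hxY⟩))
  rw [Equiv.apply_symm_apply] at hq3
  exact hq3 (meets_of_mem (N := nsing x x) (p := q3) rfl)

end

section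

variable {P : Type u} [Preorder P]

theorem not_meas_small {lam : Cardinal.{u}} (h : lam ≤ ℵ₀) (p : P) : p ∈ fnot (fMeasurable P lam) := by
  intro q _ hm
  have hc : Countable (Car lam) := by
    rw [← Cardinal.mk_le_aleph0_iff]
    have : #(Car lam) = lam := by
      unfold Car
      rw [Cardinal.mk_toType, Cardinal.card_ord]
    rw [this]
    exact h
  obtain ⟨j, hj⟩ := exists_injective_nat (Car lam)
  refine hm.2.1 q le_rfl ?_
  have hR : ∀ (x : Car lam) (n : ℕ) (r : P), r ∈ meets (P := P) {_p | j x = n} → j x = n := by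
    intro x n r hr
    obtain ⟨_, _, _, hs, _⟩ := hr r le_rfl
    exact hs
  refine mem_fex_of_mem (φ := fun R : Car lam → ℕ → Set P =>
    fand (fall fun x => fimp (fmem (nuniv : Car lam → Set P) x) (fex fun y => meets (R x y)))
      (fand (fFunctional R) (fInjective R))) (fun x n => {_p | j x = n}) ?_ ?_
  · exact down_fand (down_fall fun _ => down_fimp _ _)
      (down_fand (down_fall fun _ => down_fall fun _ => down_fall fun _ => down_fimp _ _)
        (down_fall fun _ => down_fall fun _ => down_fall fun _ => down_fimp _ _))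
  · refine ⟨?_, ?_, ?_⟩
    · intro x
      refine mem_fimp.2 fun r _ _ => ⟨r, le_rfl, ?_⟩
      refine mem_fex_of_mem (j x) (down_meets _) ?_
      exact meets_of_mem rfl
    · intro x y y'
      refine mem_fimp.2 fun r _ hr' => ⟨r, le_rfl, ?_⟩
      exact (hR x y r hr'.1).symm.trans (hR x y' r hr'.2)
    · intro x x' y
      refine mem_fimp.2 fun r _ hr' => ⟨r, le_rfl, ?_⟩
      exact hj ((hR x y r hr'.1).trans (hR x' y r hr'.2).symm)

end

end Pool.Agent.H215_PID
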