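import Pool.Agent.H215_PID.Gen

set_option autoImplicit false
set_option linter.unusedSectionVars false

universe u v w

namespace Pool.Agent.H215_PID

open Cardinal Ordinal Set Filter
open Pool.Agent.H215_MRP (Car IsMeasurable)

section

variable {A : Type u} {T : ℕ → Type u} [Preorder A] [∀ n, Preorder (T n)] {S : Type u}

/-- the projection property -/
theorem leE_proj {E : Set ℕ} {r' r : RC A T} (h : leE E r' r) :
    ∃ r'', r'' ≤ r ∧ leE E r'' r' ∧ leE E r' r'' := by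
  classical
  refine ⟨⟨r'.B, r'.inf, r'.a, fun n => if r'.f n ≤ r.f n then r'.f n else r.f n⟩, ?_, ?_, ?_⟩
  · refine ⟨h.1, h.2.1, fun n _ => ?_, ?_⟩
    · show (if r'.f n ≤ r.f n then r'.f n else r.f n) ≤ r.f n
      split_ifs with h1
      · exact h1
      · exact le_rfl
    · refine Set.Finite.subset Set.finite_empty fun n hn => hn.2 ?_
      show (if r'.f n ≤ r.f n then r'.f n else r.f n) ≤ r.f n
      split_ifs with h1
      · exact h1
      · exact le_rfl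
  · refine ⟨by simp, le_rfl, fun n hn => ?_, h.2.2.2.subset fun n hn => ⟨hn.1, fun h1 => hn.2 ?_⟩⟩
    · show (if r'.f n ≤ r.f n then r'.f n else r.f n) ≤ r'.f n
      rw [if_pos (h.2.2.1 n hn)]
    · show (if r'.f n ≤ r.f n then r'.f n else r.f n) ≤ r'.f n
      rw [if_pos h1]
  · refine ⟨by simp, le_rfl, fun n hn => ?_, h.2.2.2.subset fun n hn => ⟨hn.1, fun h1 => hn.2 ?_⟩⟩
    · show r'.f n ≤ (if r'.f n ≤ r.f n then r'.f n else r.f n)
      rw [if_pos (h.2.2.1 n hn)]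
    · show r'.f n ≤ (if r'.f n ≤ r.f n then r'.f n else r.f n)
      rw [if_pos h1]

end

section

variable {A : Type u} {T : ℕ → Type u} [Preorder A] [∀ n, Preorder (T n)] {S : Type u}

theorem rc_sigmaClosed (hA : SigmaClosed A) (hT : ∀ n, SigmaClosed (T n)) : SigmaClosed (RC A T) := by
  intro s hs
  have hmono : ∀ i j, i ≤ j → leE Set.univ (s j) (s i) := by
    intro i j hij
    induction j, hij using Nat.le_induction with
    | base => exact leE_refl _ _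
    | succ j _ ih => exact leE_trans (hs j) ih
  have hex : ∀ i k : ℕ, ∃ m, k < m ∧ ∀ j ≤ i, m ∈ (s j).B := by
    intro i k
    have hfin : (⋃ j ∈ Set.Iic i, ((s i).B \ (s j).B)).Finite :=
      Set.Finite.biUnion (Set.finite_Iic i) fun j hj => (hmono j i hj).1
    have hinf : ((s i).B \ ((⋃ j ∈ Set.Iic i, ((s i).B \ (s j).B)) ∪ Set.Iic k)).Infinite :=
      (s i).inf.sdiff (hfin.union (Set.finite_Iic k))
    obtain ⟨m, hm⟩ := hinf.nonempty
    refine ⟨m, ?_, ?_⟩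
    · by_contra h
      exact hm.2 (Or.inr (not_lt.1 h))
    · intro j hj
      by_contra h
      apply hm.2
      left
      simp only [Set.mem_iUnion]
      exact ⟨j, hj, hm.1, h⟩
  choose g hg1 hg2 using hex
  let m : ℕ → ℕ := fun i => Nat.rec (g 0 0) (fun i m => g (i + 1) m) i
  have hm0 : m 0 = g 0 0 := rfl
  have hmS : ∀ i, m (i + 1) = g (i + 1) (m i) := fun i => rfl
  have hmmono : StrictMono m := by
    apply strictMono_nat_of_lt_succ
    intro i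
    rw [hmS]
    exact hg1 _ _
  have hmem : ∀ i j, j ≤ i → m i ∈ (s j).B := by
    intro i j hj
    cases i with
    | zero => rw [hm0]; exact hg2 _ _ _ hj
    | succ i => rw [hmS]; exact hg2 _ _ _ hj
  obtain ⟨a, ha⟩ := hA (fun i => (s i).a) (fun i => (hs i).2.1)
  have hf : ∀ n, ∃ l, ∀ i, l ≤ (s i).f n := fun n =>
    hT n (fun i => (s i).f n) (fun i => (hs i).2.2.1 n (Set.mem_univ n))
  choose f hf using hf
  refine ⟨⟨Set.range m, Set.infinite_range_of_injective hmmono.injective, a, f⟩, ?_⟩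
  intro i
  rw [RC.le_iff]
  refine ⟨?_, ha i, fun n _ => hf n i, ?_⟩
  · refine ((Set.finite_Iio i).image m).subset ?_
    rintro n ⟨⟨j, rfl⟩, hn⟩
    refine ⟨j, ?_, rfl⟩
    by_contra h
    exact hn (hmem j i (not_lt.1 h))
  · convert Set.finite_empty
    ext n
    simp only [Set.mem_ofPred_eq, Set.mem_empty_iff_false, iff_false, not_and, not_not]
    intro _
    exact hf n i

end

section

variable {A : Type u} {T : ℕ → Type u} [Preorder A] [∀ n, Preorder (T n)] {S : Type u}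

theorem fuse1 (hT : ∀ n, SigmaClosed (T n)) {E : Set ℕ} (q : RC A T) (f : ℕ → RC A T)
    (hf : ∀ i, leE E (f (i + 1)) (f i)) (hq : ∀ i, leE ∅ q (f i)) (hE : (E ∩ q.B).Finite) :
    ∃ r', leE ∅ r' q ∧ ∀ i, leE E r' (f i) := by
  classical
  have hex : ∀ n, ∃ x : T n, n ∈ E → ∀ i, x ≤ (f i).f n := by
    intro n
    by_cases hn : n ∈ E
    · obtain ⟨x, hx⟩ := hT n (fun i => (f i).f n) (fun i => (hf i).2.2.1 n hn)
      exact ⟨x, fun _ => hx⟩
    · exact ⟨q.f n, fun h => absurd h hn⟩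
  choose l hl using hex
  refine ⟨⟨q.B, q.inf, q.a, fun n => if n ∈ E then l n else q.f n⟩, ?_, ?_⟩
  · refine ⟨by simp, le_rfl, fun n hn => absurd hn (Set.notMem_empty n), hE.subset ?_⟩
    rintro n ⟨hn1, hn2⟩
    refine ⟨?_, hn1⟩
    by_contra hnE
    apply hn2
    simp only [if_neg hnE]
    exact le_rfl
  · intro i
    refine ⟨(hq i).1, (hq i).2.1, fun n hn => ?_, (hq i).2.2.2.subset ?_⟩
    · simp only [if_pos hn]
      exact hl n hn i
    · rintro n ⟨hn1, hn2⟩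
      refine ⟨hn1, ?_⟩
      by_cases hnE : n ∈ E
      · exfalso
        apply hn2
        simp only [if_pos hnE]
        exact hl n hnE i
      · simpa only [if_neg hnE] using hn2

end

section

variable {A : Type u} {T : ℕ → Type u} [Preorder A] [∀ n, Preorder (T n)] {S : Type u}

theorem fuse2 (hT : ∀ n, SigmaClosed (T n)) (q : RC A T) (f : ℕ → RC A T)
    (hf : ∀ i, f (i + 1) ≤ f i) (hq : ∀ i, leE ∅ q (f i)) (m : ℕ → ℕ) (hm : StrictMono m)
    (hmB : ∀ i, m i ∈ q.B) (hqm : ∀ i j, i < j → q.f (m i) ≤ (f j).f (m i)) :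
    ∃ r', leE ∅ r' q ∧ ∀ i, r' ≤ f i := by
  classical
  have hmono : ∀ i j, i ≤ j → f j ≤ f i := by
    intro i j hij
    induction hij with
    | refl => exact le_rfl
    | step _ ih => exact (hf _).trans ih
  have hmonof : ∀ n i j, i ≤ j → (f j).f n ≤ (f i).f n := fun n i j hij =>
    (hmono i j hij).2.2.1 n (Set.mem_univ n)
  have hl : ∀ n, ∃ l : T n, ∀ i, l ≤ (f i).f n := fun n =>
    hT n (fun i => (f i).f n) (fun i => hmonof n i (i + 1) (Nat.le_succ i))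
  choose l hl using hl
  refine ⟨⟨Set.range m, Set.infinite_range_of_injective hm.injective, q.a,
    fun n => if n ∈ Set.range m then q.f n else l n⟩, ?_, ?_⟩
  · refine ⟨?_, le_rfl, ?_, ?_⟩
    · have h1 : (Set.range m \ q.B) = ∅ := by
        ext n
        simp only [Set.mem_diff, Set.mem_range, Set.mem_empty_iff_false, iff_false, not_and, not_not]
        rintro ⟨i, rfl⟩
        exact hmB i
      show (Set.range m \ q.B).Finite
      rw [h1]; exact Set.finite_empty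
    · intro n hn
      exact absurd hn (Set.notMem_empty n)
    · have h1 : {n | n ∈ Set.range m ∧ ¬ (if n ∈ Set.range m then q.f n else l n) ≤ q.f n} = ∅ := by
        ext n
        simp only [Set.mem_setOf_eq, Set.mem_empty_iff_false, iff_false, not_and, not_not]
        intro hn
        rw [if_pos hn]
      show {n | n ∈ Set.range m ∧ ¬ (if n ∈ Set.range m then q.f n else l n) ≤ q.f n}.Finite
      rw [h1]; exact Set.finite_empty
  · intro j
    have key : ∀ n, (if n ∈ Set.range m then q.f n else l n) ≤ (f j).f n := by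
      intro n
      by_cases hn : n ∈ Set.range m
      · rw [if_pos hn]
        obtain ⟨i, rfl⟩ := hn
        rcases lt_or_ge i j with hij | hij
        · exact hqm i j hij
        · exact (hqm i (i + 1) (Nat.lt_succ_self i)).trans
            (hmonof (m i) j (i + 1) (hij.trans (Nat.le_succ i)))
      · rw [if_neg hn]
        exact hl n j
    refine ⟨?_, (hq j).2.1, fun n _ => key n, ?_⟩
    · refine (hq j).1.subset ?_
      rintro n ⟨⟨i, rfl⟩, hn⟩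
      exact ⟨hmB i, hn⟩
    · have h1 : {n | n ∈ Set.range m ∧ ¬ (if n ∈ Set.range m then q.f n else l n) ≤ (f j).f n} = ∅ := by
        ext n
        simp only [Set.mem_setOf_eq, Set.mem_empty_iff_false, iff_false, not_and, not_not]
        intro _
        exact key n
      show {n | n ∈ Set.range m ∧ ¬ (if n ∈ Set.range m then q.f n else l n) ≤ (f j).f n}.Finite
      rw [h1]; exact Set.finite_empty

end

section

variable {A : Type u} {T : ℕ → Type u} [Preorder A] [∀ n, Preorder (T n)] {S : Type u}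

theorem bad_mono {I : Set S → Set (RC A T)} {C : S → ℕ → Set (RC A T)} {E : Set ℕ} {n : ℕ} {r r' : RC A T}
    (hr : r' ≤ r) (h : Bad I C E n r) : Bad I C E n r' := by
  rintro r'' b p ⟨h1, h2, h3, h4⟩
  exact h r'' b p ⟨h1, leE_trans h2 (RC.leE_of_le hr), h3, fun x hx =>
    ⟨(h4 x hx).1, (h4 x hx).2.1.trans hr, (h4 x hx).2.2⟩⟩

end

section

variable {A : Type u} {T : ℕ → Type u} [Preorder A] [∀ n, Preorder (T n)] {S : Type u}

theorem bad_mono_set {I : Set S → Set (RC A T)} {C : S → ℕ → Set (RC A T)} {s E : Set ℕ} {n : ℕ} {r : RC A T}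
    (hE : s ⊆ E) (h : Bad I C s n r) : Bad I C E n r := by
  intro r' b p hw
  exact h r' b p ⟨hw.1, leE_mono hE hw.2.1, hw.2.2.1,
    fun x hx => ⟨leE_mono hE (hw.2.2.2 x hx).1, (hw.2.2.2 x hx).2.1, (hw.2.2.2 x hx).2.2⟩⟩

end

section

variable {A : Type u} {T : ℕ → Type u} [Preorder A] [∀ n, Preorder (T n)] {S : Type u}

theorem claim1a (hA : SigmaClosed A) (hT : ∀ n, SigmaClosed (T n)) {I : Set S → Set (RC A T)} {r0 r1 r : RC A T}
    (hI : GIdeal (leE ∅) I r0) (hND : ND (leE ∅) I r0) {C : S → ℕ → Set (RC A T)}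
    (hC : ∀ x n r, r ∈ C x n → ∀ r' ≤ r, r' ∈ C x n) (hr1 : r1 ≤ r0)
    (hdense : ∀ x, ∀ q' ≤ r1, ∃ q'' ≤ q', ∃ n, q'' ∈ C x n) (hr : r ≤ r1) (E : Set ℕ) :
    ∃ f ≤ r, ∃ n, ∀ f' ≤ f, ∃ h b g p, Wit1 I C E n r f' h b g p := by
  by_contra hcon
  push Not at hcon
  -- inheritance
  have hinh : ∀ n (f' f'' : RC A T), f'' ≤ f' → (∀ h b g p, ¬ Wit1 I C E n r f' h b g p) →
      ∀ h b g p, ¬ Wit1 I C E n r f'' h b g p := by
    intro n f' f'' hle hno h b g p hW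
    refine hno h b g p ⟨hW.1, leE_trans hW.2.1 (RC.leE_of_le hle), hW.2.2.1, fun x hx => ?_⟩
    obtain ⟨h1, h2, h3, h4, h5⟩ := hW.2.2.2 x hx
    exact ⟨h1, leE_trans h2 (RC.leE_of_le hle), h3, h4, h5⟩
  have hstep : ∀ n (f : {f : RC A T // f ≤ r}), ∃ f' : {f : RC A T // f ≤ r}, f'.1 ≤ f.1 ∧
      ∀ h b g p, ¬ Wit1 I C E n r f'.1 h b g p := by
    intro n f
    obtain ⟨f', hf', hno⟩ := hcon f.1 f.2 n
    exact ⟨⟨f', hf'.trans f.2⟩, hf', hno⟩
  choose nxt hnxt1 hnxt2 using hstep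
  let s : ℕ → {f : RC A T // f ≤ r} := fun n => Nat.rec ⟨r, le_rfl⟩ (fun n f => nxt n f) n
  have hs : ∀ n, s (n + 1) = nxt n (s n) := fun n => rfl
  obtain ⟨w, hw⟩ := rc_sigmaClosed hA hT (fun n => (s n).1) (fun n => by
    show (s (n + 1)).1 ≤ (s n).1
    rw [hs]
    exact hnxt1 n (s n))
  have hwr : w ≤ r := (hw 0).trans (s 0).2
  have hwno : ∀ n h b g p, ¬ Wit1 I C E n r w h b g p := by
    intro n
    refine hinh n (s (n + 1)).1 w (hw (n + 1)) ?_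
    rw [hs]
    exact hnxt2 n (s n)
  have hwr0 : w ≤ r0 := hwr.trans (hr.trans hr1)
  obtain ⟨q', hq', n, b, hb, hqI, hqC⟩ := hND
    (fun x n => {h | ∃ g p, leE ∅ h g ∧ leE E g w ∧ leE E g p ∧ p ≤ r ∧ p ∈ C x n})
    (by
      rintro x n h ⟨g, p, h1, h2⟩ h' hh'
      exact ⟨g, p, leE_trans hh' h1, h2⟩)
    w (RC.leE_of_le hwr0)
    (by
      intro x h hh
      obtain ⟨h', hh'w, hh1, hh2⟩ := leE_proj hh
      obtain ⟨p, hp, n, hpC⟩ := hdense x h' (hh'w.trans (hwr.trans hr))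
      refine ⟨p, leE_trans (RC.leE_of_le hp) hh1, n, p, p, leE_refl _ _, RC.leE_of_le (hp.trans hh'w), leE_refl _ _,
        hp.trans (hh'w.trans hwr), hpC⟩)
  have hch : ∀ x, ∃ gp : RC A T × RC A T, x ∈ b →
      leE ∅ q' gp.1 ∧ leE E gp.1 w ∧ leE E gp.1 gp.2 ∧ gp.2 ≤ r ∧ gp.2 ∈ C x n := by
    intro x
    by_cases hx : x ∈ b
    · obtain ⟨g, p, h⟩ := hqC x hx
      exact ⟨(g, p), fun _ => h⟩
    · exact ⟨(w, w), fun h => absurd h hx⟩
  choose gp hgp using hch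
  exact hwno n q' b (fun x => (gp x).1) (fun x => (gp x).2) ⟨hb, hq', hqI, fun x hx => hgp x hx⟩

end

section

variable {A : Type u} {T : ℕ → Type u} [Preorder A] [∀ n, Preorder (T n)] {S : Type u}

/-- step (i) -/
theorem claim1b_one {I : Set S → Set (RC A T)} {r : RC A T} {C : S → ℕ → Set (RC A T)} {E : Set ℕ}
    {f : RC A T} {n : ℕ} (h : ∀ f' ≤ f, ∃ h b g p, Wit1 I C E n r f' h b g p) (f1 g1 : RC A T)
    (h1 : leE E f1 f) (h2 : leE ∅ g1 f1) :
    ∃ h b g p, Wit1 I C E n r f1 h b g p ∧ leE ∅ h g1 := by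
  obtain ⟨f2, a1, a2, a3⟩ := leE_proj h1
  have b1 : leE ∅ g1 f2 := leE_trans h2 (leE_mono (Set.empty_subset _) a3)
  obtain ⟨g2, c1, c2, c3⟩ := leE_proj b1
  obtain ⟨k, b, g, p, hb, d1, d2, d3⟩ := h g2 (c1.trans a1)
  refine ⟨k, b, g, p, ⟨hb, leE_trans (leE_trans d1 c2) h2, d2, fun x hx => ?_⟩, leE_trans d1 c2⟩
  obtain ⟨e1, e2, e3, e4, e5⟩ := d3 x hx
  exact ⟨e1, leE_trans (leE_trans e2 (RC.leE_of_le c1)) a2, e3, e4, e5⟩

/-- the operations of step (ii) -/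
def claim1b_op (f : RC A T) (ce pr wh : RC A T → RC A T → RC A T)
    (we : RC A T → RC A T → ℕ → RC A T) : ℕ → List (RC A T) → RC A T
  | 0, [x, y] => ce x y
  | 1, [x, y] => pr x y
  | 2, [x, y] => wh x y
  | k + 3, [x, y] => we x y k
  | _, _ => f

theorem claim1b (hA : SigmaClosed A) (hT : ∀ n, SigmaClosed (T n)) {I : Set S → Set (RC A T)} {r0 r : RC A T}
    (hI : GIdeal (leE ∅) I r0) {C : S → ℕ → Set (RC A T)} (hr : r ≤ r0) {E : Set ℕ} (hE : (E ∩ r.B).Finite)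
    {f : RC A T} (hf : f ≤ r) {n : ℕ} (h : ∀ f' ≤ f, ∃ h b g p, Wit1 I C E n r f' h b g p) :
    ¬ Bad I C E n r := by
  classical
  intro hbad
  -- choice functions
  have hw0 : ∀ f1 g1 : RC A T, ∃ (h : RC A T) (b : Set S) (g p : S → RC A T) (e : ℕ → RC A T),
      leE E f1 f → leE ∅ g1 f1 →
        Wit1 I C E n r f1 h b g p ∧ leE ∅ h g1 ∧ ∀ x ∈ b, ∃ i, e i = g x := by
    intro f1 g1
    by_cases hh : leE E f1 f ∧ leE ∅ g1 f1
    · obtain ⟨k, b, g, p, hW, hk⟩ := claim1b_one h f1 g1 hh.1 hh.2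
      have hbc : b.Countable := hI.ctbl k b hW.2.2.1
      obtain ⟨en, hen⟩ := hbc.exists_eq_range hW.1.nonempty
      refine ⟨k, b, g, p, fun i => g (en i), fun _ _ => ⟨hW, hk, fun x hx => ?_⟩⟩
      rw [hen] at hx
      obtain ⟨i, rfl⟩ := hx
      exact ⟨i, rfl⟩
    · exact ⟨f, ∅, fun _ => f, fun _ => f, fun _ => f, fun h1 h2 => absurd ⟨h1, h2⟩ hh⟩
  choose wh wb wg wp we hw using hw0
  have hce0 : ∀ x y : RC A T, ∃ c : RC A T, (∃ z, leE ∅ z x ∧ leE ∅ z y) →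
      leE ∅ c x ∧ leE ∅ c y := by
    intro x y
    by_cases hh : ∃ z : RC A T, leE ∅ z x ∧ leE ∅ z y
    · obtain ⟨z, hz⟩ := hh
      exact ⟨z, fun _ => hz⟩
    · exact ⟨f, fun h1 => absurd h1 hh⟩
  choose ce hce using hce0
  have hpr0 : ∀ x y : RC A T, ∃ c : RC A T, leE ∅ x y → c ≤ y ∧ leE ∅ c x := by
    intro x y
    by_cases hh : leE ∅ x y
    · obtain ⟨z, h1, h2, -⟩ := leE_proj hh
      exact ⟨z, fun _ => ⟨h1, h2⟩⟩
    · exact ⟨f, fun h1 => absurd h1 hh⟩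
  choose pr hpr using hpr0
  -- the countable closed set
  obtain ⟨M, hfM0, hMc, hMcl⟩ := exists_closed ({f} : Set (RC A T)) (countable_singleton f)
    (claim1b_op f ce pr wh we)
  have hfM : f ∈ M := hfM0 rfl
  have hpair : ∀ x ∈ M, ∀ y ∈ M, ∀ z ∈ [x, y], z ∈ M := by
    intro x hx y hy z hz
    simp only [List.mem_cons, List.not_mem_nil, or_false] at hz
    rcases hz with rfl | rfl
    · exact hx
    · exact hy
  have hMce : ∀ x ∈ M, ∀ y ∈ M, ce x y ∈ M := fun x hx y hy => hMcl 0 [x, y] (hpair x hx y hy)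
  have hMpr : ∀ x ∈ M, ∀ y ∈ M, pr x y ∈ M := fun x hx y hy => hMcl 1 [x, y] (hpair x hx y hy)
  have hMwh : ∀ x ∈ M, ∀ y ∈ M, wh x y ∈ M := fun x hx y hy => hMcl 2 [x, y] (hpair x hx y hy)
  have hMwe : ∀ x ∈ M, ∀ y ∈ M, ∀ k, we x y k ∈ M := fun x hx y hy k =>
    hMcl (k + 3) [x, y] (hpair x hx y hy)
  obtain ⟨m, hm⟩ := hMc.exists_eq_range ⟨f, hfM⟩
  -- the generic sequence
  obtain ⟨s, hs0, hsM, hsd, hsO⟩ := rasiowa (fun x y : RC A T => x ≤ y) M
    (fun k => {q | leE E (m k) f → (¬ ∃ z, leE ∅ z q ∧ leE ∅ z (m k)) ∨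
      ∃ g1 ∈ M, leE ∅ g1 (m k) ∧ leE ∅ q (wh (m k) g1)}) f hfM (by
    intro k q hq
    have hmk : m k ∈ M := by rw [hm]; exact mem_range_self k
    by_cases h1 : leE E (m k) f
    · by_cases h2 : ∃ z : RC A T, leE ∅ z q ∧ leE ∅ z (m k)
      · obtain ⟨c1, c2⟩ := hce q (m k) h2
        have hg1 := hMce q hq (m k) hmk
        have hwit := hw (m k) (ce q (m k)) h1 c2
        have c3 : leE ∅ (wh (m k) (ce q (m k))) q := leE_trans hwit.2.1 c1
        obtain ⟨c4, c5⟩ := hpr _ _ c3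
        refine ⟨pr (wh (m k) (ce q (m k))) q, hMpr _ (hMwh _ hmk _ hg1) _ hq, c4, fun _ => Or.inr
          ⟨ce q (m k), hg1, c2, c5⟩⟩
      · exact ⟨q, hq, le_refl q, fun _ => Or.inl h2⟩
    · exact ⟨q, hq, le_refl q, fun h' => absurd h' h1⟩)
  -- a lower bound
  obtain ⟨w, hws⟩ := rc_sigmaClosed hA hT s hsd
  have hwf : w ≤ f := by
    have := hws 0
    rwa [hs0] at this
  have hwr0 : leE ∅ w r0 := RC.leE_of_le ((hwf.trans hf).trans hr)
  have hwr : leE ∅ w r := RC.leE_of_le (hwf.trans hf)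
  obtain ⟨q, hqw, a, hqa, hfin0⟩ := hI.pid w hwr0
    (fun k => if leE E (m k.unpair.1) f ∧ leE ∅ (m k.unpair.2) (m k.unpair.1) ∧
      leE ∅ w (wh (m k.unpair.1) (m k.unpair.2)) then wb (m k.unpair.1) (m k.unpair.2) else ∅)
    (by
      intro k
      split_ifs with hk
      · exact hI.down _ _ (hw _ _ hk.1 hk.2.1).1.2.2.1 w hk.2.2
      · exact hI.fin w hwr0 ∅ finite_empty)
  have hfin : ∀ f1 ∈ M, ∀ g1 ∈ M, leE E f1 f → leE ∅ g1 f1 → leE ∅ w (wh f1 g1) →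
      (wb f1 g1 \ a).Finite := by
    intro f1 hf1 g1 hg1 h1 h2 h3
    rw [hm] at hf1 hg1
    obtain ⟨i, rfl⟩ := hf1
    obtain ⟨j, rfl⟩ := hg1
    have := hfin0 (Nat.pair i j)
    simp only [Nat.unpair_pair] at this
    rwa [if_pos ⟨h1, h2, h3⟩] at this
  -- one step of the recursion
  have hstep : ∀ (F : {F : RC A T // F ∈ M ∧ leE E F f ∧ leE ∅ q F}) (X : Finset S),
      ∃ (F' : {F : RC A T // F ∈ M ∧ leE E F f ∧ leE ∅ q F}) (x : S) (p' : RC A T),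
        x ∉ X ∧ x ∈ a ∧ leE E F'.1 F.1 ∧ leE E F'.1 p' ∧ p' ≤ r ∧ p' ∈ C x n := by
    rintro ⟨F, hFM, hFf, hqF⟩ X
    have hFM' := hFM
    rw [hm] at hFM'
    obtain ⟨k, hk⟩ := hFM'
    have hO := hsO k
    rw [hk] at hO
    rcases hO hFf with hno | ⟨g1, hg1, c1, c2⟩
    · exact absurd ⟨q, leE_trans hqw (RC.leE_of_le (hws (k + 1))), hqF⟩ hno
    · have hwh : leE ∅ w (wh F g1) := leE_trans (RC.leE_of_le (hws (k + 1))) c2
      obtain ⟨hW, hWg, hen⟩ := hw F g1 hFf c1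
      obtain ⟨hbinf, hWh, hWI, hWx⟩ := hW
      have hfinb := hfin F hFM g1 hg1 hFf c1 hwh
      have hinf : ((wb F g1 ∩ a) \ (X : Set S)).Infinite := by
        refine Set.Infinite.sdiff ?_ X.finite_toSet
        intro hfi
        refine hbinf ((hfinb.union hfi).subset fun x hx => ?_)
        by_cases hxa : x ∈ a
        · exact Or.inr ⟨hx, hxa⟩
        · exact Or.inl ⟨hx, hxa⟩
      obtain ⟨x, ⟨hxb, hxa⟩, hxX⟩ := hinf.nonempty
      obtain ⟨e1, e2, e3, e4, e5⟩ := hWx x hxb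
      obtain ⟨i, hi⟩ := hen x hxb
      refine ⟨⟨wg F g1 x, ?_, leE_trans e2 hFf, leE_trans (leE_trans hqw hwh) e1⟩, x, wp F g1 x,
        by simpa using hxX, hxa, e2, e3, e4, e5⟩
      rw [← hi]
      exact hMwe F hFM g1 hg1 i
  choose nx xx pp hst using hstep
  have hqf : leE ∅ q f := leE_trans hqw (RC.leE_of_le hwf)
  let seq : ℕ → {F : RC A T // F ∈ M ∧ leE E F f ∧ leE ∅ q F} × Finset S := fun i =>
    Nat.rec (⟨f, hfM, leE_refl E f, hqf⟩, ∅) (fun _ σ => (nx σ.1 σ.2, insert (xx σ.1 σ.2) σ.2)) i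
  have hseq0 : (seq 0).1.1 = f := rfl
  have hseqS : ∀ i, seq (i + 1) = (nx (seq i).1 (seq i).2, insert (xx (seq i).1 (seq i).2) (seq i).2) :=
    fun i => rfl
  let y : ℕ → S := fun i => xx (seq i).1 (seq i).2
  let P : ℕ → RC A T := fun i => pp (seq i).1 (seq i).2
  have hmem : ∀ i j, j < i → y j ∈ (seq i).2 := by
    intro i
    induction i with
    | zero => intro j hj; exact absurd hj (Nat.not_lt_zero j)
    | succ i ih =>
      intro j hj
      rw [hseqS i]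
      rcases Nat.lt_succ_iff_lt_or_eq.1 hj with h1 | h1
      · exact Finset.mem_insert_of_mem (ih j h1)
      · subst h1
        exact Finset.mem_insert_self _ _
  have hyinj : Function.Injective y := by
    intro i j hij
    by_contra hne
    rcases lt_or_gt_of_ne hne with h1 | h1
    · have h2 := hmem j i h1
      rw [hij] at h2
      exact (hst (seq j).1 (seq j).2).1 h2
    · have h2 := hmem i j h1
      rw [← hij] at h2
      exact (hst (seq i).1 (seq i).2).1 h2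
  have hqB : (E ∩ q.B).Finite := by
    have h1 : leE ∅ q r := leE_trans hqw hwr
    refine (hE.union h1.1).subset fun k hk => ?_
    by_cases h2 : k ∈ r.B
    · exact Or.inl ⟨hk.1, h2⟩
    · exact Or.inr ⟨hk.2, h2⟩
  obtain ⟨r', hr'q, hr'f⟩ := fuse1 hT q (fun i => (seq i).1.1)
    (fun i => (hst (seq i).1 (seq i).2).2.2.1) (fun i => (seq i).1.2.2.2) hqB
  have hr'r : leE E r' r := leE_trans (hr'f 0) (RC.leE_of_le hf)
  refine hbad r' (range y) (fun x => if hx : ∃ i, y i = x then P hx.choose else f)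
    ⟨Set.infinite_range_of_injective hyinj, hr'r, ?_, ?_⟩
  · refine hI.sub r' a _ (hI.down q a hqa r' hr'q) ?_
    rintro _ ⟨i, rfl⟩
    exact (hst (seq i).1 (seq i).2).2.1
  · intro x hx
    have hx' : ∃ i, y i = x := hx
    dsimp only
    rw [dif_pos hx']
    have hc := hx'.choose_spec
    set i := hx'.choose with hi
    obtain ⟨-, -, -, e3, e4, e5⟩ := hst (seq i).1 (seq i).2
    refine ⟨leE_trans (hr'f (i + 1)) e3, e4, ?_⟩
    rw [← hc]
    exact e5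

end

section

variable {A : Type u} {T : ℕ → Type u} [Preorder A] [∀ n, Preorder (T n)] {S : Type u}

theorem claim2 (hA : SigmaClosed A) (hT : ∀ n, SigmaClosed (T n)) (I : Set S → Set (RC A T))
    (C : S → ℕ → Set (RC A T)) (r : RC A T) :
    ∃ r1 ≤ r, ∀ (s : Finset ℕ) (n : ℕ), Bad I C (↑s) n r1 ∨ ∀ r' ≤ r1, ¬ Bad I C (↑s) n r' := by
  have key : ∀ (r' : RC A T) (sn : Finset ℕ × ℕ), ∃ u ≤ r',
      Bad I C (↑sn.1) sn.2 u ∨ ∀ r'' ≤ u, ¬ Bad I C (↑sn.1) sn.2 r'' := by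
    intro r' sn
    by_cases h : ∃ r'' ≤ r', Bad I C (↑sn.1) sn.2 r''
    · obtain ⟨u, hu, hb⟩ := h
      exact ⟨u, hu, Or.inl hb⟩
    · exact ⟨r', le_rfl, Or.inr fun r'' hr hb => h ⟨r'', hr, hb⟩⟩
  have inh : ∀ (u u' : RC A T) (E : Set ℕ) (n : ℕ), u' ≤ u →
      (Bad I C E n u ∨ ∀ r'' ≤ u, ¬ Bad I C E n r'') →
      (Bad I C E n u' ∨ ∀ r'' ≤ u', ¬ Bad I C E n r'') := by
    intro u u' E n hle h
    rcases h with h | h
    · left
      rintro r'' b p ⟨h1, h2, h3, h4⟩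
      exact h r'' b p ⟨h1, leE_trans h2 (RC.leE_of_le hle), h3, fun x hx =>
        ⟨(h4 x hx).1, (h4 x hx).2.1.trans hle, (h4 x hx).2.2⟩⟩
    · right
      intro r'' hr
      exact h r'' (hr.trans hle)
  choose g hg hg' using key
  obtain ⟨e, he⟩ := exists_surjective_nat (Finset ℕ × ℕ)
  let s : ℕ → RC A T := fun k => Nat.rec r (fun k u => g u (e k)) k
  have hs : ∀ k, s (k + 1) ≤ s k := fun k => hg (s k) (e k)
  obtain ⟨l, hl⟩ := rc_sigmaClosed hA hT s hs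
  refine ⟨l, hl 0, fun F n => ?_⟩
  obtain ⟨k, hk⟩ := he (F, n)
  have h1 := hg' (s k) (e k)
  rw [hk] at h1
  have h2 : s (k + 1) = g (s k) (F, n) := by
    show g (s k) (e k) = _
    rw [hk]
  apply inh (g (s k) (F, n)) l _ _ _ h1
  rw [← h2]
  exact hl (k + 1)

end

section

variable {A : Type u} {T : ℕ → Type u} [Preorder A] [∀ n, Preorder (T n)] {S : Type u}

theorem claim3 {I : Set S → Set (RC A T)} {C : S → ℕ → Set (RC A T)} {r : RC A T}
    (h1 : ∀ r' ≤ r, ∀ E : Set ℕ, (E ∩ r'.B).Finite → ∃ n, ¬ Bad I C E n r')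
    (h2 : ∀ (s : Finset ℕ) (n : ℕ), Bad I C (↑s) n r ∨ ∀ r' ≤ r, ¬ Bad I C (↑s) n r') :
    ∃ B ⊆ r.B, B.Infinite ∧ ∃ n, ∀ s : Finset ℕ, (↑s : Set ℕ) ⊆ B → ∀ r' ≤ r, ¬ Bad I C (↑s) n r' := by
  by_contra hcon
  push Not at hcon
  have key : ∀ B : Set ℕ, B ⊆ r.B → B.Infinite → ∀ n, ∃ s : Finset ℕ, (↑s : Set ℕ) ⊆ B ∧
      Bad I C (↑s) n r := by
    intro B hB hinf n
    obtain ⟨s, hs, r', hr', hbad⟩ := hcon B hB hinf n
    refine ⟨s, hs, ?_⟩
    rcases h2 s n with h | h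
    · exact h
    · exact absurd hbad (h r' hr')
  have step : ∀ k m : ℕ, ∃ (s : Finset ℕ) (t : ℕ), (∀ x ∈ s, m < x ∧ x < t) ∧ t ∈ r.B ∧ m < t ∧
      Bad I C (↑s) k r := by
    intro k m
    obtain ⟨s, hs, hbad⟩ := key (r.B \ Set.Iic m) Set.sdiff_subset
      (r.inf.sdiff (Set.finite_Iic m)) k
    obtain ⟨t, ht, htm⟩ := r.inf.exists_gt (max m (s.sup id))
    refine ⟨s, t, fun x hx => ⟨?_, ?_⟩, ht, (le_max_left _ _).trans_lt htm, hbad⟩
    · have h3 := (hs hx).2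
      rw [Set.mem_Iic, not_le] at h3
      exact h3
    · have h3 : x ≤ s.sup id := Finset.le_sup (f := id) hx
      exact (h3.trans (le_max_right _ _)).trans_lt htm
  choose s t hst htB hmt hbad using step
  obtain ⟨m, hm⟩ : ∃ m : ℕ → ℕ, ∀ k, m (k + 1) = t k (m k) :=
    ⟨fun k => Nat.rec 0 (fun k m => t k m) k, fun _ => rfl⟩
  have hmono : StrictMono m := strictMono_nat_of_lt_succ fun k => by
    rw [hm]
    exact hmt k (m k)
  let r' : RC A T := ⟨Set.range (fun k => m (k + 1)),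
    Set.infinite_range_of_injective (fun i j h => by
      have h3 := hmono.injective h
      omega), r.a, r.f⟩
  have hr' : r' ≤ r := by
    refine ⟨?_, le_rfl, fun _ _ => le_rfl, ?_⟩
    · refine Set.finite_empty.subset ?_
      rintro _ ⟨⟨k, rfl⟩, h3⟩
      apply h3
      show m (k + 1) ∈ r.B
      rw [hm]
      exact htB k (m k)
    · refine Set.finite_empty.subset ?_
      rintro n ⟨-, h3⟩
      exact h3 le_rfl
  obtain ⟨n, hn⟩ := h1 r' hr' (⋃ k, (↑(s k (m k)) : Set ℕ)) (by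
    refine Set.finite_empty.subset ?_
    rintro x ⟨hx, ⟨j, hj⟩⟩
    obtain ⟨k, hk⟩ := Set.mem_iUnion.1 hx
    have h3 := hst k (m k) x hk
    rw [← hm] at h3
    have hj' : m (j + 1) = x := hj
    rw [← hj'] at h3
    have h4 := hmono.lt_iff_lt.1 h3.1
    have h5 := hmono.lt_iff_lt.1 h3.2
    omega)
  exact hn (bad_mono_set (Set.subset_iUnion (fun k => (↑(s k (m k)) : Set ℕ)) n)
    (bad_mono hr' (hbad n (m n))))

end

section

variable {A : Type u} {T : ℕ → Type u} [Preorder A] [∀ n, Preorder (T n)] {S : Type u}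

theorem claim4_wit {I : Set S → Set (RC A T)} {r : RC A T} {C : S → ℕ → Set (RC A T)} {n : ℕ}
    (h : ∀ s : Finset ℕ, (↑s : Set ℕ) ⊆ r.B → ∀ r' ≤ r, ¬ Bad I C (↑s) n r') (s : Finset ℕ)
    (hs : (↑s : Set ℕ) ⊆ r.B) (f1 g1 : RC A T) (hf : f1 ≤ r) (hg : leE (↑s : Set ℕ) g1 f1) :
    ∃ r'' b p, Wit I C (↑s : Set ℕ) n f1 r'' b p ∧ leE (↑s : Set ℕ) r'' g1 := by
  obtain ⟨g2, h1, h2, _⟩ := leE_proj hg
  have hb := h s hs g2 (h1.trans hf)
  unfold Bad at hb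
  push Not at hb
  obtain ⟨r'', b, p, hW⟩ := hb
  refine ⟨r'', b, p, ⟨hW.1, leE_trans hW.2.1 (RC.leE_of_le h1), hW.2.2.1, fun x hx =>
    ⟨(hW.2.2.2 x hx).1, (hW.2.2.2 x hx).2.1.trans h1, (hW.2.2.2 x hx).2.2⟩⟩, leE_trans hW.2.1 h2⟩

/-- a state of the recursion -/
structure claim4_St (A : Type u) (T : ℕ → Type u) (S : Type u) : Type u where
  f : RC A T
  s : Finset ℕ
  X : Set S

theorem claim4 (hA : SigmaClosed A) (hT : ∀ n, SigmaClosed (T n)) {I : Set S → Set (RC A T)} {r0 r : RC A T}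
    (hI : GIdeal (leE ∅) I r0) (hr : r ≤ r0) {C : S → ℕ → Set (RC A T)}
    (hC : ∀ x n r, r ∈ C x n → ∀ r' ≤ r, r' ∈ C x n) {n : ℕ}
    (h : ∀ s : Finset ℕ, (↑s : Set ℕ) ⊆ r.B → ∀ r' ≤ r, ¬ Bad I C (↑s) n r') :
    ∃ r' ≤ r, ∃ b : Set S, b.Infinite ∧ r' ∈ I b ∧ ∀ x ∈ b, r' ∈ C x n := by
  classical
  have hwit : ∀ (s : Finset ℕ) (f1 g1 : RC A T), ∃ (r'' : RC A T) (b : Set S) (p : S → RC A T),
      (↑s : Set ℕ) ⊆ r.B → f1 ≤ r → leE (↑s : Set ℕ) g1 f1 →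
        Wit I C (↑s : Set ℕ) n f1 r'' b p ∧ leE (↑s : Set ℕ) r'' g1 := by
    intro s f1 g1
    by_cases hc : (↑s : Set ℕ) ⊆ r.B ∧ f1 ≤ r ∧ leE (↑s : Set ℕ) g1 f1
    · obtain ⟨r'', b, p, hw⟩ := claim4_wit h s hc.1 f1 g1 hc.2.1 hc.2.2
      exact ⟨r'', b, p, fun _ _ _ => hw⟩
    · exact ⟨r, ∅, fun _ => r, fun h1 h2 h3 => absurd ⟨h1, h2, h3⟩ hc⟩
  choose wr wb wp hw using hwit
  have hen : ∀ (s : Finset ℕ) (f1 g1 : RC A T), ∃ en : ℕ → RC A T,
      (↑s : Set ℕ) ⊆ r.B → f1 ≤ r → leE (↑s : Set ℕ) g1 f1 →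
        ∀ x ∈ wb s f1 g1, ∃ i, en i = wp s f1 g1 x := by
    intro s f1 g1
    by_cases hc : (↑s : Set ℕ) ⊆ r.B ∧ f1 ≤ r ∧ leE (↑s : Set ℕ) g1 f1
    · have hW := (hw s f1 g1 hc.1 hc.2.1 hc.2.2).1
      have hct : (wb s f1 g1).Countable := hI.ctbl _ _ hW.2.2.1
      obtain ⟨en, he⟩ := (hct.image (wp s f1 g1)).exists_eq_range (hW.1.nonempty.image _)
      refine ⟨en, fun _ _ _ x hx => ?_⟩
      have h1 : wp s f1 g1 x ∈ Set.range en := he ▸ Set.mem_image_of_mem _ hx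
      exact h1
    · exact ⟨fun _ => r, fun h1 h2 h3 => absurd ⟨h1, h2, h3⟩ hc⟩
  choose en hen using hen
  have hce : ∀ (s : Finset ℕ) (x y : RC A T), ∃ z,
      (∃ z', leE (↑s : Set ℕ) z' x ∧ leE (↑s : Set ℕ) z' y) →
        leE (↑s : Set ℕ) z x ∧ leE (↑s : Set ℕ) z y := by
    intro s x y
    by_cases hc : ∃ z', leE (↑s : Set ℕ) z' x ∧ leE (↑s : Set ℕ) z' y
    · obtain ⟨z, hz⟩ := hc
      exact ⟨z, fun _ => hz⟩
    · exact ⟨x, fun h1 => absurd h1 hc⟩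
  choose ce hce using hce
  have hpr : ∀ (s : Finset ℕ) (x y : RC A T), ∃ z, leE (↑s : Set ℕ) x y →
      z ≤ y ∧ leE (↑s : Set ℕ) z x := by
    intro s x y
    by_cases hc : leE (↑s : Set ℕ) x y
    · obtain ⟨z, hz, hz', _⟩ := leE_proj hc
      exact ⟨z, fun _ => ⟨hz, hz'⟩⟩
    · exact ⟨x, fun h1 => absurd h1 hc⟩
  choose pr hpr using hpr
  obtain ⟨e, he⟩ := exists_surjective_nat (Finset ℕ × ℕ × ℕ)
  obtain ⟨M, hM0, hMc, hMcl⟩ := exists_closed ({r} : Set (RC A T)) (Set.countable_singleton r)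
    (fun k l => if (e k).2.2 = 0 then ce (e k).1 (l.getD 0 r) (l.getD 1 r) else
      if (e k).2.2 = 1 then pr (e k).1 (l.getD 0 r) (l.getD 1 r) else
      if (e k).2.2 = 2 then wr (e k).1 (l.getD 0 r) (l.getD 1 r) else
      en (e k).1 (l.getD 0 r) (l.getD 1 r) (e k).2.1)
  have hrM : r ∈ M := hM0 rfl
  have hceM : ∀ s x y, x ∈ M → y ∈ M → ce s x y ∈ M := by
    intro s x y hx hy
    obtain ⟨k, hk⟩ := he (s, 0, 0)
    have := hMcl k [x, y] (by simp [hx, hy])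
    simpa [hk] using this
  have hprM : ∀ s x y, x ∈ M → y ∈ M → pr s x y ∈ M := by
    intro s x y hx hy
    obtain ⟨k, hk⟩ := he (s, 0, 1)
    have := hMcl k [x, y] (by simp [hx, hy])
    simpa [hk] using this
  have hwrM : ∀ s x y, x ∈ M → y ∈ M → wr s x y ∈ M := by
    intro s x y hx hy
    obtain ⟨k, hk⟩ := he (s, 0, 2)
    have := hMcl k [x, y] (by simp [hx, hy])
    simpa [hk] using this
  have henM : ∀ s x y i, x ∈ M → y ∈ M → en s x y i ∈ M := by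
    intro s x y i hx hy
    obtain ⟨k, hk⟩ := he (s, i, 3)
    have := hMcl k [x, y] (by simp [hx, hy])
    simpa [hk] using this
  have : Nonempty M := ⟨⟨r, hrM⟩⟩
  have : Countable M := hMc.to_subtype
  obtain ⟨e2, he2⟩ := exists_surjective_nat (Finset ℕ × M)
  obtain ⟨e3, he3⟩ := exists_surjective_nat (Finset ℕ × M × M)
  obtain ⟨Q, hQ0, hQM, hQle, hQO⟩ := rasiowa (fun x y : RC A T => x ≤ y) M
    (fun k => {q | (↑(e2 k).1 : Set ℕ) ⊆ r.B → ((e2 k).2 : RC A T) ≤ r →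
      (¬ ∃ z, leE (↑(e2 k).1 : Set ℕ) z q ∧ leE (↑(e2 k).1 : Set ℕ) z (e2 k).2) ∨
      ∃ g1 ∈ M, leE (↑(e2 k).1 : Set ℕ) g1 (e2 k).2 ∧ leE (↑(e2 k).1 : Set ℕ) q (wr (e2 k).1 (e2 k).2 g1)})
    r hrM (by
      intro k q hq
      generalize (e2 k) = t
      obtain ⟨s, f1, hf1⟩ := t
      by_cases hc : (↑s : Set ℕ) ⊆ r.B ∧ f1 ≤ r ∧ ∃ z, leE (↑s : Set ℕ) z q ∧ leE (↑s : Set ℕ) z f1
      · obtain ⟨h1, h2, h3⟩ := hc
        have h4 := hce s q f1 h3
        have hg1 : ce s q f1 ∈ M := hceM s q f1 hq hf1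
        have h5 := hw s f1 (ce s q f1) h1 h2 h4.2
        have h6 : leE (↑s : Set ℕ) (wr s f1 (ce s q f1)) q := leE_trans h5.2 h4.1
        have h7 := hpr s _ _ h6
        refine ⟨pr s (wr s f1 (ce s q f1)) q, hprM s _ _ (hwrM s _ _ hf1 hg1) hq, h7.1, ?_⟩
        intro _ _
        exact Or.inr ⟨ce s q f1, hg1, h4.2, h7.2⟩
      · refine ⟨q, hq, le_rfl, ?_⟩
        intro h1 h2
        refine Or.inl fun h3 => hc ⟨h1, h2, h3⟩)
  obtain ⟨w, hwQ⟩ := rc_sigmaClosed hA hT Q hQle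
  have hwr : w ≤ r := by
    have := hwQ 0
    rwa [hQ0] at this
  have hwr0 : w ≤ r0 := hwr.trans hr
  -- the countably many sets
  obtain ⟨q0, hq0w, a, hq0a, hfin⟩ := hI.pid w (RC.leE_of_le hwr0)
    (fun k => if (↑(e3 k).1 : Set ℕ) ⊆ r.B ∧ ((e3 k).2.1 : RC A T) ≤ r ∧
      leE (↑(e3 k).1 : Set ℕ) ((e3 k).2.2 : RC A T) ((e3 k).2.1 : RC A T) ∧
      leE (↑(e3 k).1 : Set ℕ) w (wr (e3 k).1 ((e3 k).2.1 : RC A T) ((e3 k).2.2 : RC A T)) then
      wb (e3 k).1 ((e3 k).2.1 : RC A T) ((e3 k).2.2 : RC A T) else ∅) (by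
      intro k
      generalize (e3 k) = t
      obtain ⟨s, ⟨f1, hf1⟩, ⟨g1, hg1⟩⟩ := t
      by_cases hc : (↑s : Set ℕ) ⊆ r.B ∧ f1 ≤ r ∧ leE (↑s : Set ℕ) g1 f1 ∧ leE (↑s : Set ℕ) w (wr s f1 g1)
      · simp only [hc, and_self, if_true]
        have h1 := (hw s f1 g1 hc.1 hc.2.1 hc.2.2.1).1.2.2.1
        exact hI.down _ _ h1 w (leE_mono (Set.empty_subset _) hc.2.2.2)
      · simp only [hc, if_false]
        exact hI.fin w (RC.leE_of_le hwr0) ∅ Set.finite_empty)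
  obtain ⟨q, hqw, hqq0, _⟩ := leE_proj hq0w
  have hqa : q ∈ I a := hI.down _ _ hq0a q hqq0
  have hqr : q ≤ r := hqw.trans hwr
  have hfin' : ∀ (s : Finset ℕ) (f1 g1 : RC A T), f1 ∈ M → g1 ∈ M → (↑s : Set ℕ) ⊆ r.B → f1 ≤ r →
      leE (↑s : Set ℕ) g1 f1 → leE (↑s : Set ℕ) w (wr s f1 g1) → (wb s f1 g1 \ a).Finite := by
    intro s f1 g1 hf1 hg1 h1 h2 h3 h4
    obtain ⟨k, hk⟩ := he3 (s, ⟨f1, hf1⟩, ⟨g1, hg1⟩)
    have h5 := hfin k
    rw [hk] at h5
    simpa [h1, h2, h3, h4] using h5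
  -- the recursion step
  have hstep : ∀ t : {t : claim4_St A T S // t.f ∈ M ∧ t.f ≤ r ∧ (↑t.s : Set ℕ) ⊆ r.B ∧
      leE (↑t.s : Set ℕ) q t.f ∧ t.X.Finite},
      ∃ (t' : {t : claim4_St A T S // t.f ∈ M ∧ t.f ≤ r ∧ (↑t.s : Set ℕ) ⊆ r.B ∧
      leE (↑t.s : Set ℕ) q t.f ∧ t.X.Finite}) (x : S) (m : ℕ),
      t'.1.f ≤ t.1.f ∧ x ∈ a ∧ x ∉ t.1.X ∧ t'.1.X = insert x t.1.X ∧ t'.1.f ∈ C x n ∧ m ∈ q.B ∧
      (∀ k ∈ t.1.s, k < m) ∧ t'.1.s = insert m t.1.s := by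
    rintro ⟨⟨f, s, X⟩, hfM, hfr, hsB, hqf, hX⟩
    simp only at hfM hfr hsB hqf hX ⊢
    obtain ⟨k, hk⟩ := he2 (s, ⟨f, hfM⟩)
    have h1 := hQO k
    rw [Set.mem_ofPred_eq, hk] at h1
    have hqQ : q ≤ Q (k + 1) := hqw.trans (hwQ (k + 1))
    rcases h1 hsB hfr with h1 | h1
    · exact absurd ⟨q, RC.leE_of_le hqQ, hqf⟩ h1
    · obtain ⟨g1, hg1M, hg1f, hQw⟩ := h1
      simp only at hg1f hQw
      have h2 : leE (↑s : Set ℕ) w (wr s f g1) := leE_trans (RC.leE_of_le (hwQ (k + 1))) hQw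
      have h3 : leE (↑s : Set ℕ) q (wr s f g1) := leE_trans (RC.leE_of_le hqQ) hQw
      obtain ⟨hW, _⟩ := hw s f g1 hsB hfr hg1f
      have h4 := hfin' s f g1 hfM hg1M hsB hfr hg1f h2
      have h5 : ((wb s f g1 ∩ a) \ X).Infinite := by
        refine Set.Infinite.sdiff ?_ hX
        intro h6
        refine hW.1 ((h4.union h6).subset ?_)
        intro x hx
        by_cases hxa : x ∈ a
        · exact Or.inr ⟨hx, hxa⟩
        · exact Or.inl ⟨hx, hxa⟩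
      obtain ⟨x, ⟨hxb, hxa⟩, hxX⟩ := h5.nonempty
      obtain ⟨hx1, hx2, hx3⟩ := hW.2.2.2 x hxb
      have hpM : wp s f g1 x ∈ M := by
        obtain ⟨i, hi⟩ := hen s f g1 hsB hfr hg1f x hxb
        rw [← hi]
        exact henM s f g1 i hfM hg1M
      have hqp : leE (↑s : Set ℕ) q (wp s f g1 x) := leE_trans h3 hx1
      have h7 : (((q.B \ (q.B \ r.B)) \ {k | k ∈ q.B ∧ ¬ q.f k ≤ (wp s f g1 x).f k}) \
          {k | k ≤ s.sup id}).Infinite :=
        ((q.inf.sdiff (RC.le_iff.1 hqr).1).sdiff hqp.2.2.2).sdiff (Set.finite_le_nat _)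
      obtain ⟨m, ⟨⟨hm1, hm2⟩, hm3⟩, hm4⟩ := h7.nonempty
      have hmr : m ∈ r.B := by
        by_contra hcon
        exact hm2 ⟨hm1, hcon⟩
      have hmf : q.f m ≤ (wp s f g1 x).f m := by
        by_contra hcon
        exact hm3 ⟨hm1, hcon⟩
      have hms : ∀ k ∈ s, k < m := by
        intro k hk
        have h8 : k ≤ s.sup id := Finset.le_sup (f := id) hk
        have h9 : ¬ m ≤ s.sup id := hm4
        omega
      refine ⟨⟨⟨wp s f g1 x, insert m s, insert x X⟩, hpM, hx2.trans hfr, ?_, ?_, hX.insert x⟩, x, m,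
        hx2, hxa, hxX, rfl, hx3, hm1, hms, rfl⟩
      · simp only [Finset.coe_insert]
        exact Set.insert_subset hmr hsB
      · simp only [Finset.coe_insert]
        refine ⟨hqp.1, hqp.2.1, ?_, hqp.2.2.2⟩
        intro k hk
        rcases Set.mem_insert_iff.1 hk with rfl | hk
        · exact hmf
        · exact hqp.2.2.1 k hk
  choose nx X0 m0 h1 h2 h3 h4 h5 h6 h7 h8 using hstep
  let t0 : {t : claim4_St A T S // t.f ∈ M ∧ t.f ≤ r ∧ (↑t.s : Set ℕ) ⊆ r.B ∧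
      leE (↑t.s : Set ℕ) q t.f ∧ t.X.Finite} :=
    ⟨⟨r, ∅, ∅⟩, hrM, le_rfl, by simp, by simpa using RC.leE_of_le (E := ∅) hqr, Set.finite_empty⟩
  let t : ℕ → {t : claim4_St A T S // t.f ∈ M ∧ t.f ≤ r ∧ (↑t.s : Set ℕ) ⊆ r.B ∧
      leE (↑t.s : Set ℕ) q t.f ∧ t.X.Finite} := fun i => Nat.rec t0 (fun _ y => nx y) i
  have ht : ∀ i, t (i + 1) = nx (t i) := fun i => rfl
  have hs : ∀ i j, i < j → m0 (t i) ∈ (t j).1.s := by
    intro i j hij
    induction j with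
    | zero => omega
    | succ j ih =>
      rw [ht, h8]
      rcases Nat.lt_succ_iff_lt_or_eq.1 hij with hlt | rfl
      · exact Finset.mem_insert_of_mem (ih hlt)
      · exact Finset.mem_insert_self _ _
  have hX : ∀ i j, i < j → X0 (t i) ∈ (t j).1.X := by
    intro i j hij
    induction j with
    | zero => omega
    | succ j ih =>
      rw [ht, h4]
      rcases Nat.lt_succ_iff_lt_or_eq.1 hij with hlt | rfl
      · exact Set.mem_insert_of_mem _ (ih hlt)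
      · exact Set.mem_insert _ _
  have hinj : Function.Injective (fun i => X0 (t i)) := by
    intro i j hij
    simp only at hij
    by_contra hne
    rcases Nat.lt_or_gt_of_ne hne with hlt | hlt
    · exact h3 (t j) (hij ▸ hX i j hlt)
    · exact h3 (t i) (hij ▸ hX j i hlt)
  have hmono : StrictMono (fun i => m0 (t i)) := by
    refine strictMono_nat_of_lt_succ ?_
    intro i
    exact h7 (t (i + 1)) _ (hs i (i + 1) (Nat.lt_succ_self i))
  obtain ⟨r', hr'q, hr'f⟩ := fuse2 hT q (fun i => (t i).1.f) (fun i => h1 (t i))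
    (fun i => leE_mono (Set.empty_subset _) (t i).2.2.2.2.1) (fun i => m0 (t i)) hmono
    (fun i => h6 (t i)) (fun i j hij => (t j).2.2.2.2.1.2.2.1 _ (hs i j hij))
  refine ⟨r', hr'f 0, Set.range (fun i => X0 (t i)), Set.infinite_range_of_injective hinj, ?_, ?_⟩
  · refine hI.sub r' a _ (hI.down _ _ hqa r' hr'q) ?_
    rintro _ ⟨i, rfl⟩
    exact h2 (t i)
  · rintro _ ⟨i, rfl⟩
    exact hC _ n _ (h5 (t i)) r' (hr'f (i + 1))

end

section

variable {A : Type u} {T : ℕ → Type u} [Preorder A] [∀ n, Preorder (T n)] {S : Type u}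

/-- Theorem C -/
theorem thmC (hA : SigmaClosed A) (hT : ∀ n, SigmaClosed (T n)) {I : Set S → Set (RC A T)} {r0 : RC A T}
    (hI : GIdeal (leE ∅) I r0) (hND : ND (leE ∅) I r0) : ND (fun r' r : RC A T => r' ≤ r) I r0 := by
  intro C hC' q hq hdense
  have hC : ∀ x n r, r ∈ C x n → ∀ r' ≤ r, r' ∈ C x n := fun x n r h r' hle => hC' x n r h r' hle
  have hq0 : q ≤ r0 := hq
  have hd : ∀ x, ∀ q' ≤ q, ∃ q'' ≤ q', ∃ n, q'' ∈ C x n := fun x q' h => hdense x q' h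
  obtain ⟨r1, hr1, h2⟩ := claim2 hA hT I C q
  have h1 : ∀ r' ≤ r1, ∀ E : Set ℕ, (E ∩ r'.B).Finite → ∃ n, ¬ Bad I C E n r' := by
    intro r' hr' E hE
    obtain ⟨f, hf, n, h⟩ := claim1a hA hT hI hND hC hq0 hd (hr'.trans hr1) E
    exact ⟨n, claim1b hA hT hI ((hr'.trans hr1).trans hq0) hE hf h⟩
  obtain ⟨B, hBs, hBinf, n, hB⟩ := claim3 h1 h2
  have hr2 : (⟨B, hBinf, r1.a, r1.f⟩ : RC A T) ≤ r1 := by
    refine RC.le_iff.2 ⟨?_, le_rfl, fun _ _ => le_rfl, ?_⟩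
    · have : (B \ r1.B) = ∅ := Set.sdiff_eq_empty.2 hBs
      simp [this]
    · simp
  obtain ⟨r', hr', b, hb, hIb, hCb⟩ := claim4 hA hT hI ((hr2.trans hr1).trans hq0) hC (n := n)
    (fun s hs r' hr' => hB s hs r' (hr'.trans hr2))
  exact ⟨r', (hr'.trans hr2).trans hr1, n, b, hb, hIb, hCb⟩

end

end Pool.Agent.H215_PID
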