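import Pool.Agent.H215_PID.Split
import Pool.Agent.H215_PID.ThmC

set_option autoImplicit false
set_option linter.unusedSectionVars false

universe u v w

namespace Pool.Agent.H215_PID

open Cardinal Ordinal Set Filter
open Pool.Agent.H215_MRP (Car IsMeasurable)

section

variable {c : ℕ → Cardinal.{u}} {W : ∀ n, Ultrafilter (Car (c n))}

theorem plus_mono (h : Setup c W) {E : Set ℕ} {r' r : RR c W} (hr : leE E r' r) {n : ℕ} (hf : r'.f n ≤ r.f n) :
    ∀ᶠ α in (W n : Filter (Car (c n))), leE E (plus r' n α) (plus r n α) := by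
  have ha : r'.a ≤ r.a := hr.2.1
  have h1 : ∀ᶠ α in (W n : Filter (Car (c n))),
      (r'.a n).join ((r'.f n).1 α) ≤ (r.a n).join ((r.f n).1 α) :=
    join_mono (mu_regular h n).aleph0_le (h.compl n) (mu_lt h n) (ha n) hf
  filter_upwards [h1] with α hα
  refine ⟨hr.1, ?_, hr.2.2.1, hr.2.2.2⟩
  intro k
  change Function.update r'.a n ((r'.a n).join ((r'.f n).1 α)) k ≤
    Function.update r.a n ((r.a n).join ((r.f n).1 α)) k
  by_cases hk : k = n
  · subst hk
    rw [Function.update_self, Function.update_self]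
    exact hα
  · rw [Function.update_of_ne hk, Function.update_of_ne hk]
    exact ha k

end

section

variable {c : ℕ → Cardinal.{u}} {W : ∀ n, Ultrafilter (Car (c n))}

theorem plus_le (r : RR c W) (n : ℕ) (α : Car (c n)) : plus r n α ≤ r := by
  refine ⟨?_, ?_, ?_, ?_⟩
  · simp [plus]
  · intro m
    by_cases hm : m = n
    · subst hm
      have h : (plus r m α).a m = (r.a m).join ((r.f m).1 α) := by simp [plus]
      rw [h]
      exact join_le_left _ _
    · have h : (plus r n α).a m = r.a m := by simp [plus, hm]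
      rw [h]
  · intro m _
    exact le_refl (r.f m)
  · have h : {m | m ∈ (plus r n α).B ∧ ¬ (plus r n α).f m ≤ r.f m} = ∅ := by
      ext m
      simp only [Set.mem_setOf_eq, Set.mem_empty_iff_false, iff_false, not_and, not_not]
      intro _
      exact le_refl (r.f m)
    rw [h]
    exact Set.finite_empty

end

section

variable {c : ℕ → Cardinal.{u}} {W : ∀ n, Ultrafilter (Car (c n))}

theorem stage_join_le {X : Type u} {μ : Cardinal.{u}} (a b : Fn X μ) : a.join b ≤ a := by
  intro x hx
  by_cases hh : #{x | (a.1 x).or (b.1 x) ≠ none} < μ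
  · have e : a.join b = (⟨fun x => (a.1 x).or (b.1 x), hh⟩ : Fn X μ) := dif_pos hh
    rw [e]
    show (a.1 x).or (b.1 x) = a.1 x
    cases hax : a.1 x with
    | none => exact absurd hax hx
    | some v => rfl
  · have e : a.join b = a := dif_neg hh
    rw [e]

theorem stage_graft_le (n : ℕ) (r : RR c W) (α : Car (c n)) (t : Tm c W n)
    (ht : t ≤ (⟨r.a, r.f⟩ : Tm c W n)) :
    leE ∅ (graft (⟨r.B, r.inf, fun k => (plus r n α).a k.1⟩ : Sm c n) t) r := by
  refine ⟨?_, ?_, fun k hk => absurd hk (Set.notMem_empty k), ?_⟩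
  · show (r.B \ r.B).Finite
    simp
  · intro k
    show (if h : k ≤ n then (plus r n α).a k else t.a k) ≤ r.a k
    split_ifs with hk
    · show Function.update r.a n ((r.a n).join ((r.f n).1 α)) k ≤ r.a k
      by_cases hkn : k = n
      · subst hkn
        rw [Function.update_self]
        exact stage_join_le _ _
      · rw [Function.update_of_ne hkn]
    · exact (ht k (by omega)).1
  · refine (Set.finite_le_nat n).subset fun k hk => ?_
    by_contra hkn
    exact hk.2 (ht k (by simpa using hkn)).2

/-- the decision lemma at `n` -/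
theorem stage (h : Setup c W) (n : ℕ) {L : Type u} (hL : #L < c n) (Φ : Car (c n) → L → Set (RR c W))
    (hdown : ∀ α i r, r ∈ Φ α i → ∀ r', leE ∅ r' r → r' ∈ Φ α i) (r : RR c W)
    (hdense : ∀ α r', leE ∅ r' r → ∃ r'', leE ∅ r'' r' ∧ ∃ i, r'' ∈ Φ α i) :
    ∃ r', r' ≤ r ∧ ∃ i, ∀ᶠ α in (W n : Filter (Car (c n))), plus r' n α ∈ Φ α i := by
  have hcard : #(Car (c n)) = c n := Cardinal.mk_ord_toType _
  -- tails
  obtain ⟨t1, ht1, hΨ⟩ := tm_distr h n (Car (c n)) (by rw [hcard]; exact (Cardinal.cantor _).le)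
    (fun α => {t : Tm c W n | ∃ s ≤ (⟨r.B, r.inf, fun k => (plus r n α).a k.1⟩ : Sm c n),
      ∃ i, graft s t ∈ Φ α i}) (⟨r.a, r.f⟩ : Tm c W n)
    (by
      intro α t ht
      obtain ⟨r'', h1, i, hi⟩ := hdense α _ (stage_graft_le n r α t ht)
      obtain ⟨s', hs', t', ht', h2⟩ := graft_split h1
      exact ⟨t', ht', s', hs', i, hdown α i r'' hi _ h2⟩)
    (by
      intro α t ht q hq
      obtain ⟨s, hs, i, hi⟩ := ht
      exact ⟨s, hs, i, hdown α i _ hi _ (graft_mono le_rfl hq)⟩)
  choose s hs i hi using hΨ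
  -- constants
  have hsetN : #(ULift.{u} (Set ℕ)) < c n := by
    rw [Cardinal.mk_uLift, Cardinal.mk_set, Cardinal.lift_power, Cardinal.mk_nat, Cardinal.lift_aleph0,
      Cardinal.lift_two]
    exact (h.strong n).two_power_lt (h.unc n)
  obtain ⟨B', hB'⟩ := compl_const (h.compl n) hsetN (fun α => ULift.up (s α).B)
  obtain ⟨i', hi'⟩ := compl_const (h.compl n) hL i
  have hk : ∀ k : ℕ, ∀ hk : k < n, ∃ l : Fn (XX c k) (mu c k), ∀ᶠ α in (W n : Filter (Car (c n))),
      (s α).a ⟨k, hk.le⟩ = l := fun k hk =>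
    compl_const (h.compl n) (small_card h hk) (fun α => (s α).a ⟨k, hk.le⟩)
  choose l hl using hk
  have hl' : ∀ᶠ α in (W n : Filter (Car (c n))), ∀ k : Fin n, (s α).a ⟨k.1, k.2.le⟩ = l k.1 k.2 :=
    Filter.eventually_all.mpr fun k => hl k.1 k.2
  obtain ⟨c0, h0, hc0, hmax⟩ := fn_limit (mu_regular h n).aleph0_le (h.compl n) (mu_lt h n)
    (fun α => (s α).a ⟨n, le_rfl⟩)
  have hsα : ∀ α, (s α).a ⟨n, le_rfl⟩ ≤ (r.a n).join ((r.f n).1 α) := by
    intro α
    have := (hs α).2 ⟨n, le_rfl⟩
    have e : (plus r n α).a n = (r.a n).join ((r.f n).1 α) := by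
      simp [plus]
    rw [← e]
    exact this
  have hmax' := hmax (r.a n) (r.f n) (Filter.Eventually.of_forall hsα)
  obtain ⟨α0, hα0B, hα0i, hα0l⟩ := (hB'.and (hi'.and hl')).exists
  have hB0 : (s α0).B = B'.down := by rw [← hα0B]
  refine ⟨⟨B'.down, hB0 ▸ (s α0).inf,
    Function.update (fun k => if hk : k < n then l k hk else t1.a k) n c0,
    Function.update (fun k => if k < n then r.f k else t1.f k) n h0⟩, ?_, i', ?_⟩
  · refine ⟨?_, ?_, ?_, ?_⟩
    · show (B'.down \ r.B).Finite
      rw [← hB0]
      exact (hs α0).1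
    · intro k
      show Function.update (fun k => if hk : k < n then l k hk else t1.a k) n c0 k ≤ r.a k
      by_cases hkn : k = n
      · subst hkn
        rw [Function.update_self]
        exact hmax'.1
      · rw [Function.update_of_ne hkn]
        by_cases hk : k < n
        · simp only [hk, dif_pos]
          rw [← hα0l ⟨k, hk⟩]
          have := (hs α0).2 ⟨k, hk.le⟩
          have e : (plus r n α0).a k = r.a k := by
            simp [plus, Function.update_of_ne hkn]
          rw [← e]
          exact this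
        · simp only [hk, dif_neg, not_false_iff]
          exact (ht1 k (by omega)).1
    · intro k _
      show Function.update (fun k => if k < n then r.f k else t1.f k) n h0 k ≤ r.f k
      by_cases hkn : k = n
      · subst hkn
        rw [Function.update_self]
        exact hmax'.2
      · rw [Function.update_of_ne hkn]
        by_cases hk : k < n
        · simp only [hk, if_true]
          exact le_rfl
        · simp only [hk, if_false]
          exact (ht1 k (by omega)).2
    · convert Set.finite_empty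
      ext k
      simp only [Set.mem_setOf_eq, Set.mem_empty_iff_false, iff_false, not_and, not_not]
      intro _
      show Function.update (fun k => if k < n then r.f k else t1.f k) n h0 k ≤ r.f k
      by_cases hkn : k = n
      · subst hkn
        rw [Function.update_self]
        exact hmax'.2
      · rw [Function.update_of_ne hkn]
        by_cases hk : k < n
        · simp only [hk, if_true]
          exact le_rfl
        · simp only [hk, if_false]
          exact (ht1 k (by omega)).2
  · filter_upwards [hB', hi', hl', hc0] with α hBα hiα hlα hcα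
    rw [← hiα]
    refine hdown α (i α) _ (hi α) _ ?_
    have hB1 : (s α).B = B'.down := by rw [← hBα]
    refine ⟨?_, ?_, fun k hk => absurd hk (Set.notMem_empty k), ?_⟩
    · show (B'.down \ (s α).B).Finite
      rw [hB1]
      simp
    · intro k
      show Function.update (Function.update (fun k => if hk : k < n then l k hk else t1.a k) n c0) n
        ((Function.update (fun k => if hk : k < n then l k hk else t1.a k) n c0 n).join
          ((Function.update (fun k => if k < n then r.f k else t1.f k) n h0 n).1 α)) k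
        ≤ (if hk : k ≤ n then (s α).a ⟨k, hk⟩ else t1.a k)
      by_cases hkn : k = n
      · subst hkn
        simp only [Function.update_self, le_rfl, dif_pos]
        rw [hcα]
      · rw [Function.update_of_ne hkn, Function.update_of_ne hkn]
        by_cases hk : k < n
        · have hk' : k ≤ n := hk.le
          simp only [hk, hk', dif_pos]
          rw [← hlα ⟨k, hk⟩]
        · have hk' : ¬ k ≤ n := by omega
          simp only [hk, hk', dif_neg, not_false_iff]
          exact le_rfl
    · refine (Set.finite_le_nat n).subset fun k hk => ?_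
      by_contra hkn
      apply hk.2
      have hkn' : n < k := by simpa using hkn
      show Function.update (fun k => if k < n then r.f k else t1.f k) n h0 k ≤ t1.f k
      rw [Function.update_of_ne (by omega)]
      have hk' : ¬ k < n := by omega
      simp only [hk', if_false]
      exact le_rfl

end

section

variable {c : ℕ → Cardinal.{u}} {W : ∀ n, Ultrafilter (Car (c n))}

/-- the decision lemma -/
theorem decide_all (h : Setup c W) {L : Type u} {k : ℕ} (hL : #L < c k)
    (Φ : ∀ n, Car (c n) → L → Set (PP c W)) (hdown : ∀ n α i, Down (Φ n α i)) (p : PP c W)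
    (hdense : ∀ n α q, q ≤ p → ∃ r, r ≤ q ∧ ∃ i, r ∈ Φ n α i) :
    ∃ q, q ≤ p ∧ ∃ i : ℕ → L, ∀ n, k ≤ n →
      ∀ᶠ α in (W n : Filter (Car (c n))), (⟨plus q.r n α⟩ : PP c W) ∈ Φ n α (i n) := by
  classical
  have hcar : Nonempty (Car (c 0)) := by
    rw [← Cardinal.mk_ne_zero_iff, Cardinal.mk_ord_toType]
    exact (lt_trans Cardinal.aleph0_pos (h.unc 0)).ne'
  obtain ⟨α₀⟩ := hcar
  obtain ⟨_, _, i₀, _⟩ := hdense 0 α₀ p le_rfl
  have step : ∀ (n : ℕ) (r : {r : RR c W // (P1.mk r : PP c W) ≤ p}),
      ∃ (r' : {r : RR c W // (P1.mk r : PP c W) ≤ p}) (i : L), r'.1 ≤ r.1 ∧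
        (k ≤ n → ∀ᶠ α in (W n : Filter (Car (c n))), (P1.mk (plus r'.1 n α) : PP c W) ∈ Φ n α i) := by
    rintro n ⟨r, hr⟩
    by_cases hn : k ≤ n
    · have hL' : #L < c n := hL.trans_le (h.mono.monotone hn)
      obtain ⟨r', hr', i, hi⟩ := stage h n hL' (fun α l => {r | (P1.mk r : PP c W) ∈ Φ n α l})
        (fun α i r h1 r' h2 => hdown n α i _ h1 _ h2) r (by
          intro α r' hr'
          obtain ⟨s, hs, i, hi⟩ := hdense n α (P1.mk r') (le_trans (P1.le_iff.2 hr') hr)
          exact ⟨s.r, hs, i, hi⟩)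
      exact ⟨⟨r', le_trans (P1.le_iff.2 (RC.leE_of_le hr')) hr⟩, i, hr', fun _ => hi⟩
    · exact ⟨⟨r, hr⟩, i₀, le_rfl, fun hh => absurd hh hn⟩
  choose F I hF hI using step
  let sq : ℕ → {r : RR c W // (P1.mk r : PP c W) ≤ p} := fun n => Nat.rec ⟨p.r, le_rfl⟩ F n
  have hsq : ∀ n, sq (n + 1) = F n (sq n) := fun n => rfl
  obtain ⟨w, hw⟩ := rc_sigmaClosed (aa_sigma h) (tt_sigma h) (fun n => (sq n).1) (fun n => by
    simpa only [hsq] using hF n (sq n))
  refine ⟨P1.mk w, P1.le_iff.2 (RC.leE_of_le (hw 0)), fun n => I n (sq n), fun n hn => ?_⟩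
  have hw1 := hw (n + 1)
  have h1 : w.f n ≤ ((sq (n + 1)).1).f n := hw1.2.2.1 n (Set.mem_univ n)
  have h2 := hI n (sq n) hn
  have h3 := plus_mono h (E := ∅) (RC.leE_of_le hw1) h1
  filter_upwards [h2, h3] with α h4 h5
  exact hdown n α _ _ h4 _ (P1.le_iff.2 h5)

end

end Pool.Agent.H215_PID
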