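import Pool.Agent.H215_PID.Strong
import Pool.Agent.H215_PID.Meas
import Pool.Agent.H215_PID.Stage

set_option autoImplicit false
set_option linter.unusedSectionVars false

universe u v w

namespace Pool.Agent.H215_PID

open Cardinal Ordinal Set Filter
open Pool.Agent.H215_MRP (Car IsMeasurable)

section

variable {c : ℕ → Cardinal.{u}} {W : ∀ n, Ultrafilter (Car (c n))}

theorem pp_injPow (h : Setup c W) {n : ℕ} {lam : Cardinal.{u}} (hl : lam ≤ c n) (p : PP c W) :
    p ∈ fInjPow (PP c W) lam (mu c n) := by
  classical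
  have hinf : ℵ₀ ≤ mu c n := (mu_regular h n).aleph0_le
  have hc1 : #(Car lam) ≤ #(Car (c n)) := by
    rw [Cardinal.mk_ord_toType, Cardinal.mk_ord_toType]; exact hl
  obtain ⟨ι⟩ := hc1
  let E : Car lam → Car (mu c n) → Set (PP c W) := fun x i =>
    {p | (p.r.a n).1 (ι x, i) = some true}
  have key : ∀ x x', x ≠ x' → ∀ q : PP c W, q ∉ feq (E x) (E x') := by
    intro x x' hne q hq
    have hj : ι x ≠ ι x' := fun h => hne (ι.injective h)
    obtain ⟨i, hi1, hi2⟩ : ∃ i : Car (mu c n), (q.r.a n).1 (ι x, i) = none ∧
        (q.r.a n).1 (ι x', i) = none := by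
      by_contra hcon
      push Not at hcon
      have hsurj : Function.Surjective
          (fun y : {y | (q.r.a n).1 y ≠ none} => (y : XX c n).2) := by
        intro i
        by_cases h1 : (q.r.a n).1 (ι x, i) = none
        · exact ⟨⟨(ι x', i), hcon i h1⟩, rfl⟩
        · exact ⟨⟨(ι x, i), h1⟩, rfl⟩
      have h2 := Cardinal.mk_le_of_surjective hsurj
      rw [Cardinal.mk_ord_toType] at h2
      exact absurd (q.r.a n).2 (not_lt_of_ge h2)
    let a' : XX c n → Option Bool := fun y =>
      if y = (ι x, i) then some true else if y = (ι x', i) then some false else (q.r.a n).1 y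
    have ha' : #{y | a' y ≠ none} < mu c n := by
      have hsub : {y | a' y ≠ none} ⊆ {y | (q.r.a n).1 y ≠ none} ∪ {(ι x, i), (ι x', i)} := by
        intro y hy
        by_cases h1 : y = (ι x, i)
        · exact Or.inr (Or.inl h1)
        · by_cases h2 : y = (ι x', i)
          · exact Or.inr (Or.inr h2)
          · left
            have h3 : a' y = (q.r.a n).1 y := by
              change (if y = (ι x, i) then some true else if y = (ι x', i) then some false
                else (q.r.a n).1 y) = _
              rw [if_neg h1, if_neg h2]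
            change (q.r.a n).1 y ≠ none
            rw [← h3]; exact hy
      refine lt_of_le_of_lt (Cardinal.mk_le_mk_of_subset hsub) ?_
      refine lt_of_le_of_lt (Cardinal.mk_union_le _ _) ?_
      refine Cardinal.add_lt_of_lt hinf (q.r.a n).2 ?_
      refine lt_of_lt_of_le ?_ hinf
      exact Cardinal.lt_aleph0_iff_set_finite.2 (Set.toFinite _)
    obtain ⟨A', hA'⟩ : ∃ A' : Fn (XX c n) (mu c n), A'.1 = a' := ⟨⟨a', ha'⟩, rfl⟩
    let r : PP c W := ⟨⟨q.r.B, q.r.inf, Function.update q.r.a n A', q.r.f⟩⟩
    have hrn : (r.r.a n).1 = a' := by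
      change (Function.update q.r.a n A' n).1 = _
      rw [Function.update_self]
      exact hA'
    have hrq : r ≤ q := by
      refine ⟨?_, ?_, ?_, ?_⟩
      · change (q.r.B \ q.r.B).Finite
        simp
      · intro k
        change Function.update q.r.a n A' k ≤ q.r.a k
        by_cases hk : k = n
        · subst hk
          rw [Function.update_self]
          intro y hy
          rw [hA']
          change (if y = (ι x, i) then some true else if y = (ι x', i) then some false
                else (q.r.a k).1 y) = _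
          have h1 : y ≠ (ι x, i) := by rintro rfl; exact hy hi1
          have h2 : y ≠ (ι x', i) := by rintro rfl; exact hy hi2
          rw [if_neg h1, if_neg h2]
        · rw [Function.update_of_ne hk]
      · intro k hk
        exact absurd hk (Set.notMem_empty k)
      · change {n | n ∈ q.r.B ∧ ¬ q.r.f n ≤ q.r.f n}.Finite
        simp
    have hrE : r ∈ E x i := by
      change (r.r.a n).1 (ι x, i) = some true
      rw [hrn]
      change (if (ι x, i) = (ι x, i) then some true else if (ι x, i) = (ι x', i) then some false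
                else (q.r.a n).1 (ι x, i)) = _
      rw [if_pos rfl]
    have hr1 : r ∈ fmem (E x) i := meets_of_mem hrE
    have hr2 : r ∈ fmem (E x') i := mem_fmem_of_feq (down_feq _ _ _ hq _ hrq) hr1
    obtain ⟨s, hsr, t, ht, hst⟩ := hr2 r le_rfl
    have ht' : (t.r.a n).1 (ι x', i) = some true := ht
    have hs1 : (s.r.a n).1 (ι x', i) = some true := by
      rw [← ht']
      exact hst.2.1 n (ι x', i) (by rw [ht']; simp)
    have hrv : (r.r.a n).1 (ι x', i) = some false := by
      rw [hrn]
      change (if (ι x', i) = (ι x, i) then some true else if (ι x', i) = (ι x', i) then some false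
                else (q.r.a n).1 (ι x', i)) = _
      have h1 : (ι x', i) ≠ (ι x, i) := fun h => hj (congrArg Prod.fst h).symm
      rw [if_neg h1, if_pos rfl]
    have hs2 : (s.r.a n).1 (ι x', i) = some false := by
      rw [← hrv]
      exact hsr.2.1 n (ι x', i) (by rw [hrv]; simp)
    rw [hs1] at hs2
    simp at hs2
  refine mem_fex_of_mem E (down_fall fun x => down_fall fun x' => down_fimp _ _) ?_
  intro x x'
  rw [mem_fimp]
  intro q _ hq
  by_cases hxx : x = x'
  · exact ⟨q, le_rfl, hxx⟩
  · exact absurd hq (key x x' hxx q)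

end

section

variable {c : ℕ → Cardinal.{u}} {W : ∀ n, Ultrafilter (Car (c n))}

theorem pp_not_meas (h : Setup c W) {lam : Cardinal.{u}} (hl : lam ≤ ⨆ n, c n) (p : PP c W) :
    p ∈ fnot (fMeasurable (PP c W) lam) := by
  rcases le_or_gt lam ℵ₀ with h0 | h0
  · exact not_meas_small h0 p
  have hbdd : BddAbove (Set.range c) := Cardinal.bddAbove_of_small
  rcases eq_or_lt_of_le hl with heq | hlt
  · -- lam = iSup c
    have hci : ∀ n, Order.succ (c n) < lam := by
      intro n
      have h1 : Order.succ (c n) ≤ c (n + 1) := Order.succ_le_of_lt (h.mono (Nat.lt_succ_self n))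
      have h2 : c (n + 1) < c (n + 2) := h.mono (Nat.lt_succ_self _)
      have h3 : c (n + 2) ≤ lam := by
        rw [heq]
        exact le_ciSup hbdd (n + 2)
      exact h1.trans_lt (h2.trans_le h3)
    have hco : ∀ n, (c n).ord < lam.ord := fun n =>
      Cardinal.ord_lt_ord.2 ((Order.lt_succ (c n)).trans (hci n))
    refine not_meas_of_cover h0
      (fun n => Set.Iio (Ordinal.ToType.mk (o := lam.ord) ⟨(c n).ord, hco n⟩)) ?_ ?_ p
    · intro n
      exact Cardinal.mk_Iio_toType_ord_lt _
    · intro x
      have hx : (Ordinal.ToType.mk.symm x : Set.Iio lam.ord).1.card < ⨆ n, c n := by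
        rw [← heq]
        exact Cardinal.lt_ord.1 (Ordinal.ToType.mk.symm x : Set.Iio lam.ord).2
      obtain ⟨n, hn⟩ := exists_lt_of_lt_ciSup hx
      refine ⟨n, ?_⟩
      show x < Ordinal.ToType.mk (o := lam.ord) ⟨(c n).ord, hco n⟩
      rw [← OrderIso.symm_apply_lt]
      exact Cardinal.lt_ord.2 hn
  · obtain ⟨n0, hn0⟩ := exists_lt_of_lt_ciSup hlt
    classical
    have hex : ∃ n, lam ≤ c n := ⟨n0, hn0.le⟩
    set n := Nat.find hex with hn
    have hnle : lam ≤ c n := Nat.find_spec hex
    rcases lt_or_ge (mu c n) lam with hmu | hmu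
    · exact not_meas_of_injPow hmu (pp_injPow h hnle p)
    · rcases Nat.eq_zero_or_pos n with hz | hpos
      · rw [hz] at hmu
        have hmu' : lam ≤ ℵ_ 2 := hmu
        rcases le_or_gt lam (2 ^ ℵ₀) with h1 | h1
        · exact not_meas_of_injPow h0 (injPow_ground h1 p)
        · have h2 : ℵ_ 1 < lam := by
            refine lt_of_le_of_lt ?_ h1
            have h3 := Cardinal.cantor (ℵ₀ : Cardinal.{u})
            rw [← Cardinal.succ_aleph0]
            exact Order.succ_le_of_lt h3
          have h4 : lam ≤ 2 ^ (ℵ_ 1) := by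
            refine hmu'.trans ?_
            have h3 := Cardinal.cantor (ℵ_ 1 : Cardinal.{u})
            have h5 : ℵ_ 2 = Order.succ (ℵ_ 1 : Cardinal.{u}) := by
              rw [← Cardinal.aleph_succ]
              congr 1
              rw [← Ordinal.add_one_eq_succ]
              norm_num
            rw [h5]
            exact Order.succ_le_of_lt h3
          exact not_meas_of_injPow h2 (injPow_ground h4 p)
      · obtain ⟨m, hm⟩ : ∃ m, n = m + 1 := ⟨n - 1, by omega⟩
        have hlt' : c m < lam := by
          have := Nat.find_min hex (m := m) (by rw [← hn]; omega)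
          exact not_le.mp this
        rw [hm] at hmu
        have hmu' : lam ≤ Order.succ (2 ^ c m) := hmu
        rcases le_or_gt lam (2 ^ c m) with h1 | h1
        · exact not_meas_of_injPow hlt' (injPow_ground h1 p)
        · refine not_meas_of_injPow h1 (injPow_ground (hmu'.trans ?_) p)
          exact Order.succ_le_of_lt (Cardinal.cantor _)

end

section

variable {c : ℕ → Cardinal.{u}} {W : ∀ n, Ultrafilter (Car (c n))}

theorem pp_strongLimit (h : Setup c W) (p : PP c W) : p ∈ fStrongLimit (PP c W) (⨆ n, c n) := by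
  have hb : BddAbove (Set.range c) := Cardinal.bddAbove_range c
  have hle : ∀ n, c n ≤ ⨆ n, c n := fun n => le_ciSup hb n
  have hlt : ∀ n, c n < ⨆ n, c n := fun n => (h.mono (Nat.lt_succ_self n)).trans_le (hle (n + 1))
  have hex : ∀ γ < ⨆ n, c n, ∃ n, γ < c n := fun γ hγ => exists_lt_of_lt_ciSup hγ
  have hω : ℵ₀ < ⨆ n, c n := (h.unc 0).trans (hlt 0)
  have hκ : (⨆ n, c n).IsStrongLimit := by
    refine ⟨(Cardinal.aleph0_pos.trans hω).ne', fun x hx => ?_⟩
    obtain ⟨n, hn⟩ := hex x hx
    exact ((h.strong n).two_power_lt hn).trans (hlt n)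
  refine strongLimit_of hω fun γ hγ => not_injPow hκ (fun δ hδ => ?_) hγ p
  obtain ⟨m, hm⟩ := hex δ hδ
  refine ⟨2 ^ c m, hm.le.trans (Cardinal.cantor _).le, (h.unc m).le.trans (Cardinal.cantor _).le,
    ?_, pp_decomp h m⟩
  exact ((h.strong (m + 1)).two_power_lt (h.mono (Nat.lt_succ_self m))).trans (hlt (m + 1))

end

end Pool.Agent.H215_PID
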