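import Pool.Agent.H215_PID.Base

set_option autoImplicit false
set_option linter.unusedSectionVars false

universe u v w

namespace Pool.Agent.H215_PID

open Cardinal Ordinal Set Filter
open Pool.Agent.H215_MRP (Car IsMeasurable)

section

variable {A : Type u} {T : ℕ → Type u} [Preorder A] [∀ n, Preorder (T n)] {S : Type u}

/-- a countable set closed under countably many operations -/
theorem exists_closed {O : Type u} (A0 : Set O) (h : A0.Countable) (F : ℕ → List O → O) :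
    ∃ M : Set O, A0 ⊆ M ∧ M.Countable ∧ Closed F M := by
  classical
  let step : Set O → Set O := fun M => M ∪ Set.range (fun p : ℕ × List M => F p.1 (p.2.map Subtype.val))
  obtain ⟨Mn, h0, hsucc⟩ : ∃ Mn : ℕ → Set O, Mn 0 = A0 ∧ ∀ n, Mn (n + 1) = step (Mn n) :=
    ⟨fun n => step^[n] A0, rfl, fun n => Function.iterate_succ_apply' step n A0⟩
  have hcount : ∀ n, (Mn n).Countable := by
    intro n
    induction n with
    | zero => rw [h0]; exact h
    | succ n ih =>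
      rw [hsucc]
      have : _root_.Countable ↥(Mn n) := ih.to_subtype
      have hr : (Set.range (fun p : ℕ × List ↥(Mn n) => F p.1 (p.2.map Subtype.val))).Countable :=
        Set.countable_range _
      exact ih.union hr
  have hmono : Monotone Mn := by
    refine monotone_nat_of_le_succ fun n => ?_
    rw [hsucc]
    exact Set.subset_union_left
  refine ⟨⋃ n, Mn n, ?_, Set.countable_iUnion hcount, ?_⟩
  · rw [← h0]; exact Set.subset_iUnion Mn 0
  · intro k l hl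
    have hN : ∃ N, ∀ x ∈ l, x ∈ Mn N := by
      induction l with
      | nil => exact ⟨0, by simp⟩
      | cons a t ih =>
        obtain ⟨N1, h1⟩ := ih (fun x hx => hl x (List.mem_cons_of_mem _ hx))
        obtain ⟨N2, h2⟩ := Set.mem_iUnion.1 (hl a List.mem_cons_self)
        refine ⟨max N1 N2, fun x hx => ?_⟩
        rcases List.mem_cons.1 hx with rfl | hx
        · exact hmono (le_max_right _ _) h2
        · exact hmono (le_max_left _ _) (h1 x hx)
    obtain ⟨N, hN⟩ := hN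
    refine Set.mem_iUnion.2 ⟨N + 1, ?_⟩
    rw [hsucc]
    refine Or.inr ⟨(k, l.attach.map fun x => ⟨x.1, hN x.1 x.2⟩), ?_⟩
    simp [List.map_map, Function.comp_def]

end

section

variable {R S : Type u} [Preorder R]

/-- meeting countably many dense sets -/
theorem rasiowa {O : Type u} (le : O → O → Prop) (M : Set O) (𝒪 : ℕ → Set O) (p : O) (hp : p ∈ M)
    (h : ∀ n, ∀ q ∈ M, ∃ q' ∈ M, le q' q ∧ q' ∈ 𝒪 n) :
    ∃ s : ℕ → O, s 0 = p ∧ (∀ n, s n ∈ M) ∧ (∀ n, le (s (n + 1)) (s n)) ∧ ∀ n, s (n + 1) ∈ 𝒪 n := by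
  classical
  choose g hgM hgl hgo using h
  let t : ℕ → {x : O // x ∈ M} := fun n =>
    Nat.rec (motive := fun _ => {x : O // x ∈ M}) ⟨p, hp⟩
      (fun k q => ⟨g k q.1 q.2, hgM k q.1 q.2⟩) n
  refine ⟨fun n => (t n).1, rfl, fun n => (t n).2, fun n => ?_, fun n => ?_⟩
  · exact hgl n (t n).1 (t n).2
  · exact hgo n (t n).1 (t n).2

end

section

theorem distr_of_dclosed_lower {Q : Type u} [Preorder Q] {μ : Cardinal.{u}} (hμ : ℵ₀ ≤ μ)
    (h : DClosed Q μ) {A : Type u} (hA : #A < μ) (r : A → A → Prop) (hr : IsWellOrder A r) (f : A → Q)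
    (p : Q) (B : Set A) (h1 : ∀ a ∈ B, f a ≤ p) (h2 : ∀ a ∈ B, ∀ b ∈ B, r b a → f a ≤ f b) :
    ∃ l, l ≤ p ∧ ∀ a ∈ B, l ≤ f a := by
  have hdir : ∀ x ∈ insert p (f '' B), ∀ y ∈ insert p (f '' B), ∃ z ∈ insert p (f '' B),
      z ≤ x ∧ z ≤ y := by
    rintro x hx y hy
    rcases hx with rfl | ⟨a, ha, rfl⟩
    · rcases hy with rfl | ⟨b, hb, rfl⟩
      · exact ⟨_, Set.mem_insert _ _, le_refl _, le_refl _⟩
      · exact ⟨f b, Set.mem_insert_of_mem _ ⟨b, hb, rfl⟩, h1 b hb, le_refl _⟩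
    · rcases hy with rfl | ⟨b, hb, rfl⟩
      · exact ⟨f a, Set.mem_insert_of_mem _ ⟨a, ha, rfl⟩, le_refl _, h1 a ha⟩
      · rcases trichotomous_of r a b with hab | rfl | hab
        · exact ⟨f b, Set.mem_insert_of_mem _ ⟨b, hb, rfl⟩, h2 b hb a ha hab, le_refl _⟩
        · exact ⟨f a, Set.mem_insert_of_mem _ ⟨a, ha, rfl⟩, le_refl _, le_refl _⟩
        · exact ⟨f a, Set.mem_insert_of_mem _ ⟨a, ha, rfl⟩, le_refl _, h2 a ha b hb hab⟩
  have hcard : #(insert p (f '' B) : Set Q) < μ := by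
    refine lt_of_le_of_lt (mk_insert_le) ?_
    refine Cardinal.add_lt_of_lt hμ ?_ (lt_of_lt_of_le Cardinal.one_lt_aleph0 hμ)
    exact lt_of_le_of_lt (mk_image_le.trans (mk_set_le B)) hA
  obtain ⟨l, hl⟩ := h (insert p (f '' B)) ⟨p, Set.mem_insert _ _⟩ hdir hcard
  exact ⟨l, hl p (Set.mem_insert _ _), fun a ha => hl _ (Set.mem_insert_of_mem _ ⟨a, ha, rfl⟩)⟩

theorem distr_of_dclosed {Q : Type u} [Preorder Q] {μ θ : Cardinal.{u}} (hμ : ℵ₀ ≤ μ) (h : DClosed Q μ)
    (hθ : θ < μ) : Distr Q θ := by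
  intro A hA Ψ p hdense hdown
  classical
  have hAμ : #A < μ := lt_of_le_of_lt hA hθ
  let r : A → A → Prop := WellOrderingRel
  have hr : IsWellOrder A r := inferInstance
  have hwf : WellFounded r := hr.wf
  let F : (a : A) → ((b : A) → r b a → Q) → Q := fun a ih =>
    if hq : ∃ q, q ≤ p ∧ (∀ b hb, q ≤ ih b hb) ∧ q ∈ Ψ a then hq.choose else p
  let f : A → Q := hwf.fix F
  have hf : ∀ a, f a = F a (fun b _ => f b) := fun a => hwf.fix_eq F a
  have key : ∀ a, f a ≤ p ∧ (∀ b, r b a → f a ≤ f b) ∧ f a ∈ Ψ a := by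
    intro a
    induction a using hwf.induction with
    | _ a ih =>
      obtain ⟨l, hlp, hl⟩ := distr_of_dclosed_lower hμ h hAμ r hr f p {b | r b a}
        (fun b hb => (ih b hb).1) (fun b hb c _ hcb => (ih b hb).2.1 c hcb)
      obtain ⟨q, hql, hq⟩ := hdense a l hlp
      have hex : ∃ q, q ≤ p ∧ (∀ b (_ : r b a), q ≤ f b) ∧ q ∈ Ψ a :=
        ⟨q, hql.trans hlp, fun b hb => hql.trans (hl b hb), hq⟩
      have e : f a = hex.choose := by
        rw [hf a]
        exact dif_pos hex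
      rw [e]
      exact hex.choose_spec
  obtain ⟨l, hlp, hl⟩ := distr_of_dclosed_lower hμ h hAμ r hr f p Set.univ
    (fun b _ => (key b).1) (fun b _ c _ hcb => (key b).2.1 c hcb)
  exact ⟨l, hlp, fun a => hdown a _ (key a).2.2 _ (hl a (Set.mem_univ a))⟩

end

section

theorem sigmaClosed_of_dclosed {Q : Type u} [Preorder Q] {μ : Cardinal.{u}} (hμ : ℵ₀ < μ) (h : DClosed Q μ) :
    SigmaClosed Q := by
  intro s hs
  have hanti : Antitone s := antitone_nat_of_succ_le hs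
  obtain ⟨r, hr⟩ := h (Set.range s) ⟨s 0, 0, rfl⟩ (by
    rintro _ ⟨i, rfl⟩ _ ⟨j, rfl⟩
    exact ⟨s (max i j), ⟨_, rfl⟩, hanti (le_max_left _ _), hanti (le_max_right _ _)⟩)
    (lt_of_le_of_lt (Cardinal.mk_le_aleph0_iff.2 (Set.countable_range s).to_subtype) hμ)
  exact ⟨r, fun n => hr _ ⟨n, rfl⟩⟩

end

section

theorem dclosed_pi {Q : ℕ → Type u} [∀ i, Preorder (Q i)] {μ : Cardinal.{u}} (h : ∀ i, DClosed (Q i) μ) :
    DClosed (∀ i, Q i) μ := by
  intro Z hne hdir hcard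
  have h1 : ∀ i, ∃ r : Q i, ∀ z ∈ Z, r ≤ z i := by
    intro i
    obtain ⟨r, hr⟩ := h i ((fun z : ∀ i, Q i => z i) '' Z) (hne.image _)
      (by
        rintro _ ⟨x, hx, rfl⟩ _ ⟨y, hy, rfl⟩
        obtain ⟨z, hz, hzx, hzy⟩ := hdir x hx y hy
        exact ⟨z i, ⟨z, hz, rfl⟩, hzx i, hzy i⟩)
      (lt_of_le_of_lt Cardinal.mk_image_le hcard)
    exact ⟨r, fun z hz => hr (z i) ⟨z, hz, rfl⟩⟩
  choose r hr using h1
  exact ⟨r, fun z hz i => hr i z hz⟩

end

end Pool.Agent.H215_PID
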