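import Mathlib
import Pool.Agent.H215_MRP.Defs

set_option autoImplicit false

/-!
# The forcing language, PID and `(*)` in a forcing extension, and PFA

The ground model `V` is the universe `Type u`. A sentence of the forcing language of a preordered set `P : Type u`
of conditions (`q ≤ p` means that `q` is stronger than `p`) is represented by the set of all conditions which force
it. Negation, conjunction and universal quantification are the primitive connectives, with their usual forcing
clauses; the other connectives are defined from them classically.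
-/

universe u v w

namespace Pool.Agent.H215_PID

open Cardinal Ordinal Set
open Pool.Agent.H215_MRP (Car)

-- #block flang
section Language

variable {P : Type u} [Preorder P]

/-- `p` forces `not φ` iff no `q ≤ p` forces `φ`. -/
def fnot (φ : Set P) : Set P := {p | ∀ q, q ≤ p → q ∉ φ}

/-- `p` forces `φ and ψ` iff it forces both. -/
def fand (φ ψ : Set P) : Set P := {p | p ∈ φ ∧ p ∈ ψ}

/-- `p` forces `for all i, φ i` iff it forces every `φ i`. -/
def fall {ι : Sort v} (φ : ι → Set P) : Set P := {p | ∀ i, p ∈ φ i}

/-- `φ implies ψ` is `not (φ and not ψ)`. -/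
def fimp (φ ψ : Set P) : Set P := fnot (fand φ (fnot ψ))

/-- `φ or ψ` is `not (not φ and not ψ)`. -/
def fOr (φ ψ : Set P) : Set P := fnot (fand (fnot φ) (fnot ψ))

/-- `there is i with φ i` is `not for all i, not φ i`. -/
def fex {ι : Sort v} (φ : ι → Set P) : Set P := fnot (fall fun i => fnot (φ i))

/-- An absolute statement about objects of the ground model. -/
def fground (h : Prop) : Set P := {_p | h}

/-- `p` forces that the generic filter meets `N`: the set of the conditions below some member of `N` is dense
below `p`. -/
def meets (N : Set P) : Set P := {p | ∀ q, q ≤ p → ∃ r, r ≤ q ∧ ∃ s ∈ N, r ≤ s}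

/-! ### Names for subsets of a ground model set `X`

A name for a subset of `X` is a map `A : X → Set P`; `A x` is the set of the conditions attached to `x`. Every subset
of `X` in the extension has such a name. -/

/-- `x ∈ A` -/
def fmem {X : Type v} (A : X → Set P) (x : X) : Set P := meets (A x)

/-- `A ⊆ B` -/
def fsub {X : Type v} (A B : X → Set P) : Set P := fall fun x => fimp (fmem A x) (fmem B x)

/-- `A = B` -/
def feq {X : Type v} (A B : X → Set P) : Set P := fand (fsub A B) (fsub B A)

/-- the empty set -/
def nempty {X : Type v} : X → Set P := fun _ => ∅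

/-- the set `X` itself -/
def nuniv {X : Type v} : X → Set P := fun _ => Set.univ

/-- the singleton `{x}` -/
def nsing {X : Type v} (x : X) : X → Set P := fun y => {_p | y = x}

/-- `A ∪ B` -/
def nunion {X : Type v} (A B : X → Set P) : X → Set P := fun x => fOr (fmem A x) (fmem B x)

/-- `A ∩ B` -/
def ninter {X : Type v} (A B : X → Set P) : X → Set P := fun x => fand (fmem A x) (fmem B x)

/-- `A \ B` -/
def ndiff {X : Type v} (A B : X → Set P) : X → Set P := fun x => fand (fmem A x) (fnot (fmem B x))

/-- `X \ A` -/
def ncompl {X : Type v} (A : X → Set P) : X → Set P := fun x => fnot (fmem A x)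

/-- the intersection of all `A i` -/
def nInter {X : Type v} {ι : Type w} (A : ι → X → Set P) : X → Set P := fun x => fall fun i => fmem (A i) x

/-- The relation named by `R` is the graph of a (partial) function. -/
def fFunctional {X : Type v} {Y : Type w} (R : X → Y → Set P) : Set P :=
  fall fun x => fall fun y => fall fun y' => fimp (fand (meets (R x y)) (meets (R x y'))) (fground (y = y'))

/-- The relation named by `R` is injective. -/
def fInjective {X : Type v} {Y : Type w} (R : X → Y → Set P) : Set P :=
  fall fun x => fall fun x' => fall fun y => fimp (fand (meets (R x y)) (meets (R x' y))) (fground (x = x'))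

/-- `A` embeds into `Y`: some relation is an injective function on the set `A` with values in `Y`. -/
def fEmb {X : Type v} (A : X → Set P) (Y : Type w) : Set P :=
  fex fun R : X → Y → Set P =>
    fand (fall fun x => fimp (fmem A x) (fex fun y => meets (R x y))) (fand (fFunctional R) (fInjective R))

/-- `A` is countable: it embeds into `ℕ`. -/
def fCtbl {X : Type v} (A : X → Set P) : Set P := fEmb A ℕ

/-- `A` is finite: it is contained in a finite subset of `X` of the ground model. -/
def fFin {X : Type v} (A : X → Set P) : Set P :=
  fex fun F : Finset X => fall fun x => fimp (fmem A x) (fground (x ∈ F))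

/-- `A` has cardinality less than `κ`: it embeds into a cardinal `γ < κ`. -/
def fSmall {X : Type v} (κ : Cardinal.{u}) (A : X → Set P) : Set P :=
  fex fun γ : Set.Iio κ => fEmb A (Car (γ : Cardinal.{u}))

/-! ### Names for sets of subsets of `X`

A name for a set of subsets of `X` is a map `I` from names of subsets of `X` to sets of conditions; it has to be
extensional. -/

/-- `A ∈ I` -/
def fMem {X : Type v} (I : (X → Set P) → Set P) (A : X → Set P) : Set P := meets (I A)

/-- `I` respects equality. -/
def fExt {X : Type v} (I : (X → Set P) → Set P) : Set P :=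
  fall fun A : X → Set P => fall fun B : X → Set P => fimp (fand (feq A B) (fMem I A)) (fMem I B)

/-! ### The P-ideal dichotomy in the extension -/

/-- `I` is a P-ideal of countable subsets of `S`. -/
def fPIdeal {S : Type u} (I : (S → Set P) → Set P) : Set P :=
  fand (fExt I) <|
  fand (fall fun A : S → Set P => fimp (fMem I A) (fCtbl A)) <|
  fand (fall fun A : S → Set P => fimp (fFin A) (fMem I A)) <|
  fand (fall fun A : S → Set P => fall fun B : S → Set P => fimp (fand (fMem I B) (fsub A B)) (fMem I A)) <|
  fand (fall fun A : S → Set P => fall fun B : S → Set P =>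
    fimp (fand (fMem I A) (fMem I B)) (fMem I (nunion A B)))
  (fall fun A : ℕ → S → Set P => fimp (fall fun n => fMem I (A n))
    (fex fun B : S → Set P => fand (fMem I B) (fall fun n => fFin (ndiff (A n) B))))

/-- The first alternative: some uncountable `A ⊆ S` has all its countable subsets in `I`. -/
def fAlt1 {S : Type u} (I : (S → Set P) → Set P) : Set P :=
  fex fun A : S → Set P => fand (fnot (fCtbl A))
    (fall fun B : S → Set P => fimp (fand (fsub B A) (fCtbl B)) (fMem I B))

/-- The second alternative: `S` is the union of sets `T n` (`n ∈ ω`), each of which meets every member of `I` in a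
finite set. -/
def fAlt2 {S : Type u} (I : (S → Set P) → Set P) : Set P :=
  fex fun T : ℕ → S → Set P => fand (fall fun x : S => fex fun n => fmem (T n) x)
    (fall fun n => fall fun A : S → Set P => fimp (fMem I A) (fFin (ninter (T n) A)))

variable (P) in
/-- The P-ideal dichotomy holds in the extension. (Every set of the extension is in bijection with a set `S` of the
ground model.) -/
def fPID : Set P :=
  fall fun S : Type u => fall fun I : (S → Set P) → Set P => fimp (fPIdeal I) (fOr (fAlt1 I) (fAlt2 I))

/-! ### The statement `(*)` in the extension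

Every cardinal of the extension is a cardinal of the ground model. -/

variable (P) in
/-- `κ` is a cardinal of the extension: it does not embed into a smaller cardinal. -/
def fIsCard (κ : Cardinal.{u}) : Set P := fnot (fSmall κ (nuniv : Car κ → Set P))

variable (P) in
/-- There is an injection from `lam` to the power set of `γ`. -/
def fInjPow (lam γ : Cardinal.{u}) : Set P :=
  fex fun E : Car lam → Car γ → Set P => fall fun x => fall fun x' =>
    fimp (feq (E x) (E x')) (fground (x = x'))

variable (P) in
/-- `κ` is an uncountable strong limit cardinal: for `γ < κ` there is no injection from `κ` to `𝒫(γ)`. -/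
def fStrongLimit (κ : Cardinal.{u}) : Set P :=
  fand (fIsCard P κ) <| fand (fnot (fCtbl (nuniv : Car κ → Set P))) <|
  fall fun γ : Set.Iio κ => fnot (fInjPow P κ γ)

/-- `U` is an ultrafilter on `X`. -/
def fUltrafilter {X : Type v} (U : (X → Set P) → Set P) : Set P :=
  fand (fExt U) <|
  fand (fnot (fMem U nempty)) <|
  fand (fall fun A : X → Set P => fall fun B : X → Set P => fimp (fand (fMem U A) (fsub A B)) (fMem U B)) <|
  fand (fall fun A : X → Set P => fall fun B : X → Set P =>
    fimp (fand (fMem U A) (fMem U B)) (fMem U (ninter A B)))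
  (fall fun A : X → Set P => fOr (fMem U A) (fMem U (ncompl A)))

/-- `U` is a uniform set of subsets of `κ`: no member has cardinality less than `κ`. -/
def fUniform (κ : Cardinal.{u}) (U : (Car κ → Set P) → Set P) : Set P :=
  fall fun A : Car κ → Set P => fimp (fMem U A) (fnot (fSmall κ A))

/-- `U` is `lam`-decomposable: there is a function `F : κ → lam` such that `F ⁻¹[B] ∉ U` for all `B ⊆ lam` of
cardinality less than `lam`. -/
def fDecomposable (κ lam : Cardinal.{u}) (U : (Car κ → Set P) → Set P) : Set P :=
  fex fun F : Car κ → Car lam → Set P =>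
    fand (fand (fall fun x => fex fun y => meets (F x y)) (fFunctional F))
      (fall fun B : Car lam → Set P => fimp (fSmall lam B)
        (fnot (fMem U fun x => fex fun y => fand (meets (F x y)) (fmem B y))))

/-- `U` is indecomposable: it is not `lam`-decomposable for any uncountable cardinal `lam < κ`. -/
def fIndecomposable (κ : Cardinal.{u}) (U : (Car κ → Set P) → Set P) : Set P :=
  fall fun lam : Set.Iio κ =>
    fimp (fand (fIsCard P (lam : Cardinal.{u})) (fnot (fCtbl (nuniv : Car (lam : Cardinal.{u}) → Set P))))
      (fnot (fDecomposable κ lam U))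

variable (P) in
/-- `κ` is a measurable cardinal: an uncountable cardinal with a nonprincipal `κ`-complete ultrafilter. -/
def fMeasurable (κ : Cardinal.{u}) : Set P :=
  fand (fIsCard P κ) <| fand (fnot (fCtbl (nuniv : Car κ → Set P))) <|
  fex fun U : (Car κ → Set P) → Set P => fand (fUltrafilter U) <|
    fand (fall fun x => fnot (fMem U (nsing x)))
    (fall fun γ : Set.Iio κ => fall fun A : Car (γ : Cardinal.{u}) → Car κ → Set P =>
      fimp (fall fun i => fMem U (A i)) (fMem U (nInter A)))

variable (P) in
/-- `(*)` in the extension: every uncountable strong limit cardinal `κ` which carries a uniform indecomposable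
ultrafilter is measurable or the supremum of a countable set `C` of measurable cardinals. -/
def fStar : Set P :=
  fall fun κ : Cardinal.{u} =>
    fimp
      (fand (fStrongLimit P κ) (fex fun U : (Car κ → Set P) → Set P =>
        fand (fUltrafilter U) (fand (fUniform κ U) (fIndecomposable κ U))))
      (fOr (fMeasurable P κ)
        (fex fun C : Set.Iic κ → Set P => fand (fCtbl C) <|
          fand (fall fun c : Set.Iic κ => fimp (fmem C c) (fMeasurable P (c : Cardinal.{u})))
          (fall fun γ : Set.Iio κ => fex fun c : Set.Iic κ =>
            fand (fmem C c) (fground ((γ : Cardinal.{u}) < (c : Cardinal.{u}))))))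

end Language

-- #end
-- #block closed
/-! ## The proper forcing axiom -/

/-- `M` is closed under the finitary operations `F n`. -/
def Closed {O : Type*} (F : ℕ → List O → O) (M : Set O) : Prop := ∀ n l, (∀ x ∈ l, x ∈ M) → F n l ∈ M

/-- `𝒟` is dense. -/
def DenseSet {P : Type*} [Preorder P] (𝒟 : Set P) : Prop := ∀ p, ∃ q ∈ 𝒟, q ≤ p

-- #end
-- #block pfa
/-- The poset `P` is proper: for all countable `M ⊆ P ∪ 𝒫(P)` in a club of `[P ∪ 𝒫(P)]^ω` (the sets closed under
countably many finitary operations), every `p ∈ M` has an extension `q` which is `(M, P)`-generic: for every dense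
`𝒟 ∈ M` the set `𝒟 ∩ M` is predense below `q`. -/
def IsProper (P : Type u) [Preorder P] : Prop :=
  ∃ F : ℕ → List (P ⊕ Set P) → P ⊕ Set P, ∀ M : Set (P ⊕ Set P), M.Countable → Closed F M →
    ∀ p : P, Sum.inl p ∈ M → ∃ q ≤ p, ∀ 𝒟 : Set P, Sum.inr 𝒟 ∈ M → DenseSet 𝒟 →
      ∀ r ≤ q, ∃ d ∈ 𝒟, Sum.inl d ∈ M ∧ ∃ t, t ≤ r ∧ t ≤ d

/-- The proper forcing axiom: for every proper poset `P` and all dense sets `𝒟 i` (`i ∈ ω₁`) there is a filter `G`
which meets all `𝒟 i`. -/
def PFA : Prop :=
  ∀ (P : Type u) [Preorder P] [Nonempty P], IsProper P →
    ∀ 𝒟 : Car.{u} (ℵ_ 1) → Set P, (∀ i, DenseSet (𝒟 i)) →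
      ∃ G : Set P, G.Nonempty ∧ (∀ p ∈ G, ∀ q, p ≤ q → q ∈ G) ∧ (∀ p ∈ G, ∀ q ∈ G, ∃ r ∈ G, r ≤ p ∧ r ≤ q) ∧
        ∀ i, ∃ p ∈ G, p ∈ 𝒟 i

-- #end
end Pool.Agent.H215_PID
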