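import Pool.Agent.H215_PID.Gen

set_option autoImplicit false
set_option linter.unusedSectionVars false

universe u v w

namespace Pool.Agent.H215_PID

open Cardinal Ordinal Set Filter
open Pool.Agent.H215_MRP (Car IsMeasurable)

section

theorem ctbl_decide {P : Type u} [Preorder P] (hP : SigmaDistr P) {X : Type v} (A : X → Set P) {p : P}
    (h : p ∈ fCtbl A) : ∃ q ≤ p, ∃ b : Set X, b.Countable ∧ q ∈ feq A (chk b) := by
  obtain ⟨q, hq, R, hR⟩ := mem_fex.1 h p le_rfl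
  obtain ⟨h1, h2, h3⟩ := hR
  let D : ℕ → Set P := fun n =>
    {r | (∃ x, r ∈ fmem A x ∧ r ∈ meets (R x n)) ∨ ∀ x, r ∈ fnot (fand (fmem A x) (meets (R x n)))}
  have hD : ∀ n, Down (D n) := by
    intro n r hr r' hr'
    rcases hr with ⟨x, hx, hx'⟩ | hr
    · exact Or.inl ⟨x, down_fmem _ _ _ hx _ hr', down_meets _ _ hx' _ hr'⟩
    · exact Or.inr fun x => down_fnot _ _ (hr x) _ hr'
  have hdense : ∀ n q', ∃ r, r ≤ q' ∧ r ∈ D n := by
    intro n q'
    by_cases hc : ∃ r, r ≤ q' ∧ ∃ x, r ∈ fmem A x ∧ r ∈ meets (R x n)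
    · obtain ⟨r, hr, x, hx⟩ := hc
      exact ⟨r, hr, Or.inl ⟨x, hx⟩⟩
    · exact ⟨q', le_rfl, Or.inr fun x r hr hrx => hc ⟨r, hr, x, hrx.1, hrx.2⟩⟩
  obtain ⟨q', hq', hq'D⟩ := hP D q (fun n r _ => hdense n r) hD
  -- injectivity, for all conditions below `q`
  have hinj : ∀ r, r ≤ q → ∀ x x' n, r ∈ meets (R x n) → r ∈ meets (R x' n) → x = x' := by
    intro r hr x x' n hx hx'
    have h4 : q ∈ fimp (fand (meets (R x n)) (meets (R x' n))) (fground (x = x')) := h3 x x' n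
    have h5 := fimp_mp (down_fimp _ _ _ h4 _ hr) ⟨hx, hx'⟩
      (down_fand (down_meets _) (down_meets _)) (reg_fground _)
    exact mem_fground.1 h5
  refine ⟨q', hq'.trans hq, {x | ∃ n, q' ∈ fmem A x ∧ q' ∈ meets (R x n)}, ?_, ?_⟩
  · have : {x | ∃ n, q' ∈ fmem A x ∧ q' ∈ meets (R x n)} =
        ⋃ n, {x | q' ∈ fmem A x ∧ q' ∈ meets (R x n)} := by
      ext x; simp
    rw [this]
    refine Set.countable_iUnion fun n => Set.Subsingleton.countable ?_
    intro x hx x' hx'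
    exact hinj q' hq' x x' n hx.2 hx'.2
  · refine ⟨fsub_of ?_, fsub_of ?_⟩
    · intro x r hr hx
      rw [mem_fmem_chk]
      have h6 : q ∈ fimp (fmem A x) (fex fun y => meets (R x y)) := h1 x
      have h7 : r ∈ fex fun y => meets (R x y) :=
        fimp_mp (down_fimp _ _ _ h6 _ (hr.trans hq')) hx (down_fmem _ _) (reg_fex _)
      obtain ⟨r', hr', n, hn⟩ := mem_fex.1 h7 r le_rfl
      rcases hq'D n with ⟨x', hx', hx'n⟩ | hno
      · have : x = x' := hinj r' (hr'.trans (hr.trans hq')) x x' n hn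
          (down_meets _ _ hx'n _ (hr'.trans hr))
        rw [this]
        exact ⟨n, hx', hx'n⟩
      · exact absurd ⟨down_fmem _ _ _ hx _ hr', hn⟩ (hno x r' (hr'.trans hr))
    · intro x r hr hx
      rw [mem_fmem_chk] at hx
      obtain ⟨n, hx1, -⟩ := hx
      exact down_fmem _ _ _ hx1 _ hr

end

section

theorem ctbl_chk {P : Type u} [Preorder P] {X : Type v} {b : Set X} (hb : b.Countable) (p : P) :
    p ∈ fCtbl (chk b : X → Set P) := by
  obtain ⟨j, hj⟩ := Set.countable_iff_exists_injOn.1 hb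
  let R : X → ℕ → Set P := fun x n => {_p | x ∈ b ∧ j x = n}
  have hmR : ∀ x n (q : P), q ∈ meets (R x n) ↔ x ∈ b ∧ j x = n := by
    intro x n q
    constructor
    · intro h
      obtain ⟨r, _, s, hs, _⟩ := h q le_rfl
      exact hs
    · intro h
      exact meets_of_mem (N := R x n) (p := q) h
  unfold fCtbl fEmb
  refine mem_fex_of_mem R ?_ ⟨?_, ?_, ?_⟩
  · refine down_fand (down_fall fun x => down_fimp _ _) (down_fand ?_ ?_)
    · exact down_fall fun x => down_fall fun y => down_fall fun y' => down_fimp _ _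
    · exact down_fall fun x => down_fall fun y => down_fall fun y' => down_fimp _ _
  · intro x
    rw [mem_fimp]
    intro q _ hx
    rw [mem_fmem_chk] at hx
    exact ⟨q, le_rfl, mem_fex_of_mem (j x) (down_meets _) ((hmR x (j x) q).2 ⟨hx, rfl⟩)⟩
  · intro x y y'
    rw [mem_fimp]
    intro q _ hq
    have h1 := (hmR x y q).1 hq.1
    have h2 := (hmR x y' q).1 hq.2
    exact ⟨q, le_rfl, h1.2.symm.trans h2.2⟩
  · intro x x' y
    rw [mem_fimp]
    intro q _ hq
    have h1 := (hmR x y q).1 hq.1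
    have h2 := (hmR x' y q).1 hq.2
    exact ⟨q, le_rfl, hj h1.1 h2.1 (h1.2.trans h2.2.symm)⟩

end

section

theorem not_ctbl_chk {P : Type u} [Preorder P] (hP : SigmaDistr P) {X : Type v} {b : Set X} (hb : ¬ b.Countable)
    (p : P) : p ∈ fnot (fCtbl (chk b : X → Set P)) := by
  intro q _ hq
  obtain ⟨q', _, b', hb', h⟩ := ctbl_decide hP _ hq
  refine hb (hb'.mono fun x hx => ?_)
  exact mem_fmem_chk.1 (mem_fmem_of_feq h (mem_fmem_chk.2 hx))

end

section

theorem inter_decide {P : Type u} [Preorder P] (hP : SigmaDistr P) {X : Type v} (A : X → Set P) {a : Set X}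
    (ha : a.Countable) (p : P) : ∃ q ≤ p, ∃ b ⊆ a, (∀ x ∈ b, q ∈ fmem A x) ∧ ∀ x ∈ a, x ∉ b → q ∈ fnot (fmem A x) := by
  rcases Set.eq_empty_or_nonempty a with hae | hane
  · refine ⟨p, le_rfl, ∅, Set.empty_subset _, fun x hx => absurd hx (Set.notMem_empty x), ?_⟩
    intro x hx
    rw [hae] at hx
    exact absurd hx (Set.notMem_empty x)
  · obtain ⟨f, hf⟩ := ha.exists_eq_range hane
    obtain ⟨q, hq, hqD⟩ := hP (fun n => fmem A (f n) ∪ fnot (fmem A (f n))) p (by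
      intro n q _
      by_cases h : q ∈ fnot (fmem A (f n))
      · exact ⟨q, le_rfl, Or.inr h⟩
      · rw [mem_fnot] at h
        push Not at h
        obtain ⟨r, hr, hr'⟩ := h
        exact ⟨r, hr, Or.inl hr'⟩) (by
      intro n r hr s hs
      rcases hr with hr | hr
      · exact Or.inl (down_fmem A (f n) r hr s hs)
      · exact Or.inr (down_fnot _ r hr s hs))
    refine ⟨q, hq, {x | x ∈ a ∧ q ∈ fmem A x}, fun x hx => hx.1, fun x hx => hx.2, ?_⟩
    intro x hx hxb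
    rw [hf] at hx
    obtain ⟨n, rfl⟩ := hx
    rcases hqD n with h | h
    · exact absurd ⟨by rw [hf]; exact ⟨n, rfl⟩, h⟩ hxb
    · exact h

end

section

theorem gideal_of_fPIdeal_ext {P : Type u} [Preorder P] {S : Type u} {I : (S → Set P) → Set P} {p r : P}
    (h : p ∈ fExt I) (hr : r ≤ p) {A B : S → Set P} (h1 : r ∈ feq A B) (h2 : r ∈ fMem I A) : r ∈ fMem I B :=
  fimp_mp (down_fimp _ _ _ (h A B) r hr) ⟨h1, h2⟩ (down_fand (down_feq _ _) (down_fMem _ _)) (reg_fMem _ _)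

theorem gideal_of_fPIdeal_sub {P : Type u} [Preorder P] {S : Type u} {b c : Set S} (h : c ⊆ b) (r : P) :
    r ∈ fsub (chk c) (chk b) :=
  fsub_of fun _ _ _ hx => mem_fmem_chk.2 (h (mem_fmem_chk.1 hx))

theorem gideal_of_fPIdeal_fin {P : Type u} [Preorder P] {S : Type u} {F : Set S} (hF : F.Finite) (r : P) :
    r ∈ fFin (chk F : S → Set P) :=
  mem_fex_of_mem hF.toFinset (down_fall fun _ => down_fimp _ _)
    (fun x => mem_fimp.2 fun q _ hx => ⟨q, le_rfl, (hF.mem_toFinset.2 (mem_fmem_chk.1 hx) : x ∈ hF.toFinset)⟩)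

theorem gideal_of_fPIdeal_nunion {P : Type u} [Preorder P] {S : Type u} (A B : S → Set P) (x : S) :
    fmem (nunion A B) x = fOr (fmem A x) (fmem B x) :=
  meets_eq (down_fOr _ _) (reg_fOr _ _)

theorem gideal_of_fPIdeal_feq {P : Type u} [Preorder P] {S : Type u} (b c : Set S) (r : P) :
    r ∈ feq (nunion (chk b) (chk c)) (chk (b ∪ c)) := by
  constructor
  · refine fsub_of fun x q _ hx => mem_fmem_chk.2 ?_
    rw [gideal_of_fPIdeal_nunion] at hx
    obtain ⟨t, _, h1 | h1⟩ := mem_fOr.1 hx q le_rfl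
    · exact Or.inl (mem_fmem_chk.1 h1)
    · exact Or.inr (mem_fmem_chk.1 h1)
  · refine fsub_of fun x q _ hx => ?_
    rw [gideal_of_fPIdeal_nunion]
    rcases mem_fmem_chk.1 hx with h1 | h1
    · exact mem_fOr.2 fun t _ => ⟨t, le_rfl, Or.inl (mem_fmem_chk.2 h1)⟩
    · exact mem_fOr.2 fun t _ => ⟨t, le_rfl, Or.inr (mem_fmem_chk.2 h1)⟩

theorem gideal_of_fPIdeal_ndiff {P : Type u} [Preorder P] {S : Type u} (A B : S → Set P) (x : S) :
    fmem (ndiff A B) x = fand (fmem A x) (fnot (fmem B x)) :=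
  meets_eq (down_fand (down_fmem _ _) (down_fnot _)) (reg_fand (reg_fmem _ _) (reg_fnot (down_fmem _ _)))

theorem gideal_of_fPIdeal_diff {P : Type u} [Preorder P] {S : Type u} {b a : Set S} {B : S → Set P} {r : P}
    (hB : r ∈ feq B (chk a)) (h : r ∈ fFin (ndiff (chk b) B)) : (b \ a).Finite := by
  obtain ⟨t, ht, F, hF⟩ := mem_fex.1 h r le_rfl
  refine F.finite_toSet.subset fun x hx => ?_
  have h1 : t ∈ fmem (ndiff (chk b) B) x := by
    rw [gideal_of_fPIdeal_ndiff]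
    refine ⟨mem_fmem_chk.2 hx.1, fun q hq hq' => hx.2 ?_⟩
    exact mem_fmem_chk.1 (mem_fmem_of_feq (down_feq _ _ _ hB q (hq.trans ht)) hq')
  exact (fimp_mp (hF x) h1 (down_fmem _ _) (reg_fground _) : t ∈ fground (x ∈ F))

theorem gideal_of_fPIdeal {P : Type u} [Preorder P] (hP : SigmaDistr P) {S : Type u} (I : (S → Set P) → Set P) {p : P}
    (h : p ∈ fPIdeal I) :
    GIdeal (fun q p : P => q ≤ p) (fun b : Set S => {r | r ≤ p ∧ b.Countable ∧ r ∈ fMem I (chk b)}) p := by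
  have hE := h.1
  have hC := h.2.1
  have hF := h.2.2.1
  have hS := h.2.2.2.1
  have hU := h.2.2.2.2.1
  have hP6 := h.2.2.2.2.2
  refine ⟨?_, ?_, ?_, ?_, ?_, ?_⟩
  · intro r b hr
    exact hr.2.1
  · intro r b hr r' hr'
    exact ⟨le_trans hr' hr.1, hr.2.1, down_fMem _ _ _ hr.2.2 _ hr'⟩
  · intro r b c hr hcb
    refine ⟨hr.1, hr.2.1.mono hcb, ?_⟩
    exact fimp_mp (down_fimp _ _ _ (hS (chk c) (chk b)) r hr.1) ⟨hr.2.2, gideal_of_fPIdeal_sub hcb r⟩
      (down_fand (down_fMem _ _) (down_fsub _ _)) (reg_fMem _ _)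
  · intro r hr F hFF
    refine ⟨hr, hFF.countable, ?_⟩
    exact fimp_mp (down_fimp _ _ _ (hF (chk F)) r hr) (gideal_of_fPIdeal_fin hFF r) (down_fFin _) (reg_fMem _ _)
  · intro r b c hb hc
    refine ⟨hb.1, hb.2.1.union hc.2.1, ?_⟩
    refine gideal_of_fPIdeal_ext hE hb.1 (gideal_of_fPIdeal_feq b c r) ?_
    exact fimp_mp (down_fimp _ _ _ (hU (chk b) (chk c)) r hb.1) ⟨hb.2.2, hc.2.2⟩
      (down_fand (down_fMem _ _) (down_fMem _ _)) (reg_fMem _ _)
  · intro r hr b hb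
    have h1 := fimp_mp (down_fimp _ _ _ (hP6 (fun n => chk (b n))) r hr) (fun n => (hb n).2.2)
      (down_fall fun n => down_fMem _ _) (reg_fex _)
    obtain ⟨q, hq, B, hB1, hB2⟩ := mem_fex.1 h1 r le_rfl
    have hqp : q ≤ p := le_trans hq hr
    have h2 : q ∈ fCtbl B := fimp_mp (down_fimp _ _ _ (hC B) q hqp) hB1 (down_fMem _ _) (reg_fCtbl _)
    obtain ⟨r', hr', a, ha, haB⟩ := ctbl_decide hP B h2
    refine ⟨r', le_trans hr' hq, a, ⟨le_trans hr' hqp, ha, ?_⟩, fun n => ?_⟩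
    · exact gideal_of_fPIdeal_ext hE (le_trans hr' hqp) haB (down_fMem _ _ _ hB1 _ hr')
    · exact gideal_of_fPIdeal_diff haB (down_fFin _ _ (hB2 n) _ hr')

end

section

theorem alt1_of {P : Type u} [Preorder P] (hP : SigmaDistr P) {S : Type u} (I : (S → Set P) → Set P) {p : P}
    (h : p ∈ fExt I) (A : Set S) (hA : ¬ A.Countable)
    (hb : ∀ b ⊆ A, b.Countable → p ∈ fMem I (chk b)) : p ∈ fAlt1 I := by
  unfold fAlt1
  apply mem_fex_of_mem (chk A : S → Set P)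
  · exact down_fand (down_fnot _) (down_fall fun _ => down_fimp _ _)
  · refine ⟨not_ctbl_chk hP hA p, fun B => mem_fimp.2 fun q hq hqB => ?_⟩
    obtain ⟨hq1, hq2⟩ := hqB
    obtain ⟨r, hr, b, hbc, hrb⟩ := ctbl_decide hP B hq2
    refine ⟨r, hr, ?_⟩
    have hrA : r ∈ fsub B (chk A) := down_fsub _ _ _ hq1 _ hr
    have hbA : b ⊆ A := by
      intro x hx
      have h1 : r ∈ fmem B x := mem_fmem_of_feq (feq_symm hrb) (mem_fmem_chk.2 hx)
      exact mem_fmem_chk.1 (mem_fmem_of_fsub hrA h1)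
    have h2 : r ∈ fMem I (chk b) := down_fMem _ _ _ (hb b hbA hbc) _ (hr.trans hq)
    have h3 : r ∈ fExt I :=
      (down_fall fun _ => down_fall fun _ => down_fimp _ _ : Down (fExt I)) p h r (hr.trans hq)
    exact fimp_mp (h3 (chk b) B) ⟨feq_symm hrb, h2⟩ (down_fand (down_feq _ _) (down_fMem _ _))
      (reg_fMem _ _)

end

section

theorem alt2_of {P : Type u} [Preorder P] (hP : SigmaDistr P) {S : Type u} (I : (S → Set P) → Set P) {p q : P}
    (h : p ∈ fPIdeal I) (hq : q ≤ p) (C : S → ℕ → Set P) (hC : ∀ x n, Down (C x n))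
    (hd : ∀ x q', q' ≤ q → ∃ q'' ≤ q', ∃ n, q'' ∈ C x n)
    (ho : ∀ q' ≤ q, ∀ n, ∀ b : Set S, b.Infinite → b.Countable → q' ∈ fMem I (chk b) → ¬ ∀ x ∈ b, q' ∈ C x n) :
    q ∈ fAlt2 I := by
  classical
  refine mem_fex_of_mem (fun n x => C x n)
    (down_fand (down_fall fun _ => down_fex _) (down_fall fun _ => down_fall fun _ => down_fimp _ _)) ⟨?_, ?_⟩
  · intro x
    refine mem_fex.2 fun q' hq' => ?_
    obtain ⟨q'', hq'', n, hn⟩ := hd x q' hq'
    exact ⟨q'', hq'', n, meets_of_mem hn⟩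
  · intro n A
    refine mem_fimp.2 fun q' hq' hA => ?_
    have hct : q' ∈ fCtbl A :=
      fimp_mp (down_fimp _ _ _ (h.2.1 A) q' (hq'.trans hq)) hA (down_fMem _ _) (reg_fCtbl _)
    obtain ⟨q1, hq1, a, ha, hfe⟩ := ctbl_decide hP A hct
    have h1 : q1 ∈ fMem I (chk a) :=
      fimp_mp (down_fimp _ _ _ (h.1 A (chk a)) q1 ((hq1.trans hq').trans hq))
        ⟨hfe, down_fMem _ _ _ hA q1 hq1⟩ (down_fand (down_feq _ _) (down_fMem _ _)) (reg_fMem _ _)
    obtain ⟨q2, hq2, b, hba, hb1, hb2⟩ := inter_decide hP (fun x => C x n) ha q1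
    have hbc : b.Countable := ha.mono hba
    have h3 : ∃ q3 ≤ q2, ∀ x ∈ b, q3 ∈ C x n := by
      by_cases hbn : b.Nonempty
      · obtain ⟨e, he⟩ := hbc.exists_eq_range hbn
        have heb : ∀ k, e k ∈ b := fun k => by rw [he]; exact ⟨k, rfl⟩
        obtain ⟨q3, hq3, hq3'⟩ := hP (fun k => C (e k) n) q2 (by
          intro k r hr
          exact exists_of_meets (hC _ _) (down_fmem _ _ _ (hb1 (e k) (heb k)) r hr)) (fun k => hC _ _)
        refine ⟨q3, hq3, ?_⟩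
        intro x hx
        rw [he] at hx
        obtain ⟨k, rfl⟩ := hx
        exact hq3' k
      · exact ⟨q2, le_rfl, fun x hx => absurd ⟨x, hx⟩ hbn⟩
    obtain ⟨q3, hq3, hq3'⟩ := h3
    have hq3q : q3 ≤ q := ((hq3.trans hq2).trans hq1).trans hq'
    have hsub : q3 ∈ fsub (chk b) (chk a) :=
      fsub_of fun x r _ hx => mem_fmem_chk.2 (hba (mem_fmem_chk.1 hx))
    have hMb : q3 ∈ fMem I (chk b) :=
      fimp_mp (down_fimp _ _ _ (h.2.2.2.1 (chk b) (chk a)) q3 (hq3q.trans hq))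
        ⟨down_fMem _ _ _ h1 q3 (hq3.trans hq2), hsub⟩ (down_fand (down_fMem _ _) (down_fsub _ _)) (reg_fMem _ _)
    have hbf : b.Finite := by
      by_contra hinf
      exact ho q3 hq3q n b hinf hbc hMb hq3'
    refine ⟨q3, (hq3.trans hq2).trans hq1, ?_⟩
    refine mem_fex_of_mem hbf.toFinset (down_fall fun _ => down_fimp _ _) ?_
    intro x
    refine mem_fimp.2 fun r hr hx => ⟨r, le_rfl, ?_⟩
    have hx' : r ∈ fand (fmem (fun x => C x n) x) (fmem A x) := by
      have := meets_eq (N := ninter (fun x => C x n) A x)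
        (down_fand (down_fmem _ _) (down_fmem _ _)) (reg_fand (reg_fmem _ _) (reg_fmem _ _))
      have hx2 : r ∈ meets (ninter (fun x => C x n) A x) := hx
      rw [this] at hx2
      exact hx2
    have hxa : x ∈ a := by
      have h5 : r ∈ feq A (chk a) := down_feq _ _ _ hfe r ((hr.trans hq3).trans hq2)
      exact mem_fmem_chk.1 (mem_fmem_of_feq h5 hx'.2)
    show x ∈ hbf.toFinset
    rw [Set.Finite.mem_toFinset]
    by_contra hxb
    exact hb2 x hxa hxb r (hr.trans hq3) hx'.1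

end

section

theorem fpid_of_gpid {P : Type u} [Preorder P] (hP : SigmaDistr P) (h : GPID P) (p : P) : p ∈ fPID P := by
  intro S I
  refine mem_fimp.2 fun q _ hI => ?_
  have hor1 : ∀ r, r ∈ fAlt1 I → r ∈ fOr (fAlt1 I) (fAlt2 I) := fun r hr =>
    mem_fOr.2 fun q' hq' => ⟨q', le_rfl, Or.inl (down_fex _ _ hr q' hq')⟩
  have hor2 : ∀ r, r ∈ fAlt2 I → r ∈ fOr (fAlt1 I) (fAlt2 I) := fun r hr =>
    mem_fOr.2 fun q' hq' => ⟨q', le_rfl, Or.inr (down_fex _ _ hr q' hq')⟩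
  have G := gideal_of_fPIdeal hP I hI
  by_cases hND : ND (fun q p : P => q ≤ p)
      (fun b : Set S => {r | r ≤ q ∧ b.Countable ∧ r ∈ fMem I (chk b)}) q
  · obtain ⟨r, hr, A, hA, hb⟩ := h S _ q G hND
    refine ⟨r, hr, hor1 r (alt1_of hP I ?_ A hA fun b h1 h2 => (hb b h1 h2).2.2)⟩
    exact down_fall (fun _ => down_fall fun _ => down_fimp _ _) _ hI.1 r hr
  · simp only [ND, not_forall] at hND
    obtain ⟨C, hC, q1, hq1, hd, hne⟩ := hND
    refine ⟨q1, hq1, hor2 q1 (alt2_of hP I hI hq1 C (fun x n r hr r' hr' => hC x n r hr r' hr') ?_ ?_)⟩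
    · intro x q' hq'
      obtain ⟨q'', h1, h2⟩ := hd x q' hq'
      exact ⟨q'', h1, h2⟩
    · intro q' hq' n b hinf hct hm hall
      exact hne ⟨q', hq', n, b, hinf, ⟨hq'.trans hq1, hct, hm⟩, hall⟩

end

end Pool.Agent.H215_PID
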