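import Pool.Agent.H215_PID.Gen

set_option autoImplicit false
set_option linter.unusedSectionVars false

universe u v w

namespace Pool.Agent.H215_PID

open Cardinal Ordinal Set Filter
open Pool.Agent.H215_MRP (Car IsMeasurable)

section

variable {R S : Type u} [Preorder R]

theorem cof_split (hσ : SigmaClosed R) {I : Set S → Set R} {r0 : R} (hI : GIdeal (fun q p : R => q ≤ p) I r0)
    {r : R} (hr : r ≤ r0) {X : Set S → Set R} (hX : NmOK I X) (hc : IsCof I r X) {a : Set S} (ha : r ∈ I a) :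
    ∃ F : Set S, F.Finite ∧ ∃ r' ≤ r, IsCof I r' (restr X (a \ F)) := by
  classical
  by_contra hcon
  have hact : a.Countable := hI.ctbl r a ha
  have hcf : {t : Set S | t.Finite ∧ t ⊆ a}.Countable := Set.countable_ofPred_finite_subset hact
  obtain ⟨Fk, hFk⟩ := hcf.exists_eq_range ⟨∅, Set.finite_empty, Set.empty_subset a⟩
  have hFfin : ∀ k, (Fk k).Finite := fun k => by
    have : Fk k ∈ {t : Set S | t.Finite ∧ t ⊆ a} := by rw [hFk]; exact ⟨k, rfl⟩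
    exact this.1
  have step : ∀ (k : ℕ) (ρ : {ρ : R // ρ ≤ r}), ∃ (ρ' : {ρ : R // ρ ≤ r}) (c : Set S), ρ'.1 ≤ ρ.1 ∧ ρ'.1 ∈ I c ∧
      ∀ u ≤ ρ'.1, ∀ b', u ∈ restr X (a \ Fk k) b' → ¬ (c \ b').Finite := by
    rintro k ⟨ρ, hρ⟩
    have h1 : ¬ IsCof I ρ (restr X (a \ Fk k)) := fun h => hcon ⟨Fk k, hFfin k, ρ, hρ, h⟩
    unfold IsCof at h1
    push Not at h1
    obtain ⟨r', hr', b, hb, h2⟩ := h1
    exact ⟨⟨r', hr'.trans hρ⟩, b, hr', hb, fun u hu b' hub' hfin => (h2 u hu b' hub') hfin⟩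
  choose g c hg1 hg2 hg3 using step
  let s : ℕ → {ρ : R // ρ ≤ r} := fun n => Nat.rec ⟨r, le_rfl⟩ (fun k ρ => g k ρ) n
  have hs : ∀ n, s (n + 1) = g n (s n) := fun n => rfl
  obtain ⟨w, hw⟩ := hσ (fun n => (s n).1) (fun n => by
    change (s (n + 1)).1 ≤ (s n).1
    rw [hs]
    exact hg1 n (s n))
  have hwr : w ≤ r := hw 0
  have hwc : ∀ n, w ∈ I (c n (s n)) := by
    intro n
    apply hI.down _ _ (hg2 n (s n)) w
    have := hw (n + 1)
    rw [← hs]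
    exact this
  obtain ⟨r', hr', c', hc', hfin⟩ := hI.pid w (hwr.trans hr) (fun n => Nat.casesOn n a (fun m => c m (s m)))
    (fun n => by
      cases n with
      | zero => exact hI.down r a ha w hwr
      | succ m => exact hwc m)
  have hfin0 : (a \ c').Finite := hfin 0
  have hfin1 : ∀ m, (c m (s m) \ c').Finite := fun m => hfin (m + 1)
  obtain ⟨r'', hr'', b', hb', hcb⟩ := hc r' (hr'.trans hwr) c' hc'
  have hab : (a \ b').Finite := by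
    apply (hfin0.union hcb).subset
    intro x hx
    by_cases hxc : x ∈ c'
    · exact Or.inr ⟨hxc, hx.2⟩
    · exact Or.inl ⟨hx.1, hxc⟩
  obtain ⟨k, hk⟩ : ∃ k, Fk k = a \ b' := by
    have : a \ b' ∈ {t : Set S | t.Finite ∧ t ⊆ a} := ⟨hab, Set.sdiff_subset⟩
    rw [hFk] at this
    exact this
  have hcfin : (c k (s k) \ b').Finite := by
    apply ((hfin1 k).union hcb).subset
    intro x hx
    by_cases hxc : x ∈ c'
    · exact Or.inr ⟨hxc, hx.2⟩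
    · exact Or.inl ⟨hx.1, hxc⟩
  have hle : r'' ≤ (g k (s k)).1 := by
    rw [← hs]
    exact hr''.trans (hr'.trans (hw (k + 1)))
  refine hg3 k (s k) r'' hle b' ⟨hb', ?_⟩ hcfin
  rw [hk]
  intro x hx
  by_contra hxb
  exact hx.2 ⟨hx.1, hxb⟩

end

section

variable {R S : Type u} [Preorder R]

/-- passing to a stronger condition of `R` -/
theorem key_ext_cond {I : Set S → Set R} {r0 : R} (hI : GIdeal (fun q p : R => q ≤ p) I r0) (d : EE R S I r0)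
    {ρ : R} (hρ : ρ ≤ d.r) : ∃ d3 : EE R S I r0, d3.r = ρ ∧ d3.x = d.x ∧ d3.G = d.G ∧ d3 ≤ d := by
  refine ⟨⟨ρ, d.x, d.G, hρ.trans d.le, d.inj, d.ctblx, hI.down _ _ d.mem _ hρ, d.ctblG, ?_⟩, rfl, rfl, rfl, ?_⟩
  · intro X c hXc
    obtain ⟨h1, h2, h3⟩ := d.prom X c hXc
    exact ⟨h1, h2, fun r' hr' b hb => h3 r' (hr'.trans hρ) b hb⟩
  · exact ⟨hρ, fun _ _ => rfl, subset_rfl⟩

theorem key_ext {I : Set S → Set R} {r0 : R} (hI : GIdeal (fun q p : R => q ≤ p) I r0) (d : EE R S I r0)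
    (𝒟 : Set (EE R S I r0)) (h𝒟 : DenseSet 𝒟) {ρ : R} (hρ : ρ ≤ d.r) : ∃ ρ' ≤ ρ, ∃ b0, Kprop I ρ' d 𝒟 b0 := by
  by_contra hcon
  have hneg : ∀ r' ≤ ρ, ∀ b0 : Set S, r' ∈ I b0 → ∃ F : Set S, F.Finite ∧ ∃ r'' ≤ r', ∀ d' ∈ dn 𝒟, d' ≤ d →
      d'.r ≤ r'' → ¬ (rng d'.x \ rng d.x ⊆ b0 \ F) := by
    intro r' hr' b0 hb0
    by_contra hc
    apply hcon
    refine ⟨r', hr', b0, hb0, ?_⟩
    intro F hF ρ' hρ'
    by_contra hc2
    apply hc
    refine ⟨F, hF, ρ', hρ', ?_⟩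
    intro d' hd' hle hr hs
    exact hc2 ⟨d', hd', hle, hr, hs⟩
  let X : Set S → Set R := fun b => {u | u ≤ ρ ∧ u ∈ I b ∧ ∀ d' ∈ dn 𝒟, d' ≤ d → d'.r ≤ u →
    ¬ (rng d'.x \ rng d.x ⊆ b)}
  have hX1 : NmOK I X := by
    refine ⟨fun b u hu => hu.2.1, ?_⟩
    intro b u hu u' hu'
    exact ⟨hu'.trans hu.1, hI.down _ _ hu.2.1 _ hu', fun d' hd' hle hr => hu.2.2 d' hd' hle (hr.trans hu')⟩
  have hX2 : IsCof I ρ X := by
    intro r' hr' b hb
    obtain ⟨F, hF, r'', hr'', h⟩ := hneg r' hr' b hb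
    refine ⟨r'', hr'', b \ F, ⟨hr''.trans hr', hI.sub _ _ _ (hI.down _ _ hb _ hr'') sdiff_subset, h⟩, ?_⟩
    refine hF.subset ?_
    intro s hs
    by_contra hsF
    exact hs.2 ⟨hs.1, hsF⟩
  have hprom : ∀ Y c, (Y, c) ∈ insert (X, rng d.x) d.G → NmOK I Y ∧ c ⊆ rng d.x ∧
      IsCof I ρ (restr Y (rng d.x \ c)) := by
    intro Y c hY
    rcases hY with hY | hY
    · have h1 : Y = X := congrArg Prod.fst hY
      have h2 : c = rng d.x := congrArg Prod.snd hY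
      subst h1 h2
      refine ⟨hX1, subset_rfl, ?_⟩
      intro r' hr' b hb
      obtain ⟨r'', hr'', b', hb', hf⟩ := hX2 r' hr' b hb
      refine ⟨r'', hr'', b', ⟨hb', ?_⟩, hf⟩
      rw [sdiff_self]
      exact empty_subset _
    · obtain ⟨h1, h2, h3⟩ := d.prom Y c hY
      exact ⟨h1, h2, fun r' hr' b hb => h3 r' (hr'.trans hρ) b hb⟩
  let ds : EE R S I r0 := ⟨ρ, d.x, insert (X, rng d.x) d.G, hρ.trans d.le, d.inj, d.ctblx,
    hI.down _ _ d.mem _ hρ, d.ctblG.insert _, hprom⟩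
  have hds : ds ≤ d := ⟨hρ, fun _ _ => rfl, subset_insert _ _⟩
  obtain ⟨d2, hd2, hle2⟩ := h𝒟 ds
  have hmem : (X, rng d.x) ∈ d2.G := hle2.2.2 (mem_insert _ _)
  obtain ⟨-, -, hcof⟩ := d2.prom _ _ hmem
  obtain ⟨r'', hr'', b', ⟨hb', hsub⟩, -⟩ := hcof d2.r le_rfl ∅ (hI.fin _ d2.le ∅ finite_empty)
  obtain ⟨d3, e1, e2, -, hle3⟩ := key_ext_cond hI d2 hr''
  refine hb'.2.2 d3 ⟨d2, hd2, hle3⟩ ((hle3.trans hle2).trans hds) (le_of_eq e1) ?_
  rw [e2]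
  exact hsub

end

section

variable {R S : Type u} [Preorder R]

theorem one_point_rng (x : Car.{u} (ℵ_ 1) → Option S) (i : Car.{u} (ℵ_ 1)) (s : S) (hi : x i = none) :
    rng (Function.update x i (some s)) = insert s (rng x) := by
  ext t
  constructor
  · rintro ⟨j, hj⟩
    by_cases hji : j = i
    · subst hji
      rw [Function.update_self] at hj
      exact Or.inl (Option.some.inj hj).symm
    · rw [Function.update_of_ne hji] at hj
      exact Or.inr ⟨j, hj⟩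
  · rintro (rfl | ⟨j, hj⟩)
    · exact ⟨i, Function.update_self _ _ _⟩
    · have hji : j ≠ i := by rintro rfl; rw [hi] at hj; exact absurd hj (by simp)
      exact ⟨j, by rw [Function.update_of_ne hji]; exact hj⟩

theorem one_point_claim {I : Set S → Set R} {r0 : R} (hI : GIdeal (fun q p : R => q ≤ p) I r0)
    (hND : ND (fun q p : R => q ≤ p) I r0) (p : EE R S I r0) :
    ∃ x, x ∉ rng p.x ∧ ∃ u ≤ p.r, ∀ X c, (X, c) ∈ p.G → IsCof I u (restr X (insert x (rng p.x) \ c)) := by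
  classical
  by_contra hcon
  push Not at hcon
  obtain ⟨f, hf⟩ := Set.countable_iff_exists_injOn.1 p.ctblG
  obtain ⟨g, hg⟩ := Set.countable_iff_exists_injOn.1 (hI.ctbl p.r _ p.mem)
  let C : S → ℕ → Set R := fun x m => {u | (∃ X c, (X, c) ∈ p.G ∧ m = 2 * f (X, c) ∧ ∃ c', u ∈ I c' ∧
    ∀ u' ≤ u, ∀ b', u' ∈ restr X (insert x (rng p.x) \ c) b' → ¬ (c' \ b').Finite) ∨
      (x ∈ rng p.x ∧ m = 2 * g x + 1)}
  have hCdown : ∀ x n r, r ∈ C x n → ∀ r', r' ≤ r → r' ∈ C x n := by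
    rintro x n r (⟨X, c, h1, h2, c', h3, h4⟩ | h) r' hr'
    · exact Or.inl ⟨X, c, h1, h2, c', hI.down r c' h3 r' hr', fun u' hu' => h4 u' (hu'.trans hr')⟩
    · exact Or.inr h
  obtain ⟨q', hq', n, b, hbinf, hqb, hbC⟩ := hND C hCdown p.r p.le (by
    intro x q' hq'
    by_cases hx : x ∈ rng p.x
    · exact ⟨q', le_rfl, 2 * g x + 1, Or.inr ⟨hx, rfl⟩⟩
    · obtain ⟨X, c, h1, h2⟩ := hcon x hx q' hq'
      unfold IsCof at h2
      push Not at h2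
      obtain ⟨r', hr', c', h3, h4⟩ := h2
      exact ⟨r', hr', 2 * f (X, c), Or.inl ⟨X, c, h1, rfl, c', h3, h4⟩⟩)
  have heven : ∀ x ∈ b, ∃ X c, (X, c) ∈ p.G ∧ n = 2 * f (X, c) ∧ ∃ c', q' ∈ I c' ∧
    ∀ u' ≤ q', ∀ b', u' ∈ restr X (insert x (rng p.x) \ c) b' → ¬ (c' \ b').Finite := by
    intro x hx
    rcases hbC x hx with h | ⟨h1, h2⟩
    · exact h
    · exfalso
      apply hbinf
      refine (Set.finite_singleton x).subset ?_
      intro y hy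
      rcases hbC y hy with ⟨X, c, _, h3, _⟩ | ⟨h3, h4⟩
      · omega
      · exact hg h3 h1 (by omega)
  obtain ⟨x0, hx0⟩ := hbinf.nonempty
  obtain ⟨X, c, hXc, hn, -⟩ := heven x0 hx0
  have hc' : ∀ x : S, ∃ c', q' ∈ I c' ∧ (x ∈ b → 
    ∀ u' ≤ q', ∀ b', u' ∈ restr X (insert x (rng p.x) \ c) b' → ¬ (c' \ b').Finite) := by
    intro x
    by_cases hx : x ∈ b
    · obtain ⟨X', c1, hXc', hn', c', h3, h4⟩ := heven x hx
      have : (X', c1) = (X, c) := hf hXc' hXc (by omega)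
      obtain ⟨rfl, rfl⟩ := Prod.mk.inj this
      exact ⟨c', h3, fun _ => h4⟩
    · exact ⟨b, hqb, fun h => absurd h hx⟩
  choose c' hc1 hc2 using hc'
  obtain ⟨e, he⟩ := (hI.ctbl q' b hqb).exists_eq_range ⟨x0, hx0⟩
  obtain ⟨r', hr', a, hra, hfin⟩ := hI.pid q' (hq'.trans p.le) (fun n => if n = 0 then b else c' (e (n - 1))) (by
    intro n
    by_cases h : n = 0
    · simpa [h] using hqb
    · simpa [h] using hc1 _)
  have hfb : (b \ a).Finite := by simpa using hfin 0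
  have hfc : ∀ x ∈ b, (c' x \ a).Finite := by
    intro x hx
    rw [he] at hx
    obtain ⟨k, rfl⟩ := hx
    simpa using hfin (k + 1)
  obtain ⟨hNm, hcr, hcof⟩ := p.prom X c hXc
  obtain ⟨r'', hr'', b', ⟨hb1, hb2⟩, hfab⟩ := hcof r' (hr'.trans hq') a hra
  have hbb' : (b \ b').Finite := (hfb.union hfab).subset (by
    rintro y ⟨hy1, hy2⟩
    by_cases hya : y ∈ a
    · exact Or.inr ⟨hya, hy2⟩
    · exact Or.inl ⟨hy1, hya⟩)
  have hne : (b ∩ b').Nonempty := by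
    by_contra hemp
    apply hbinf
    refine hbb'.subset ?_
    intro y hy
    refine ⟨hy, fun hy' => hemp ⟨y, hy, hy'⟩⟩
  obtain ⟨x, hxb, hxb'⟩ := hne
  refine hc2 x hxb r'' (hr''.trans hr') b' ⟨hb1, ?_⟩ (((hfc x hxb).union hfab).subset ?_)
  · rintro y ⟨hy1, hy2⟩
    rcases hy1 with rfl | hy1
    · exact hxb'
    · exact hb2 ⟨hy1, hy2⟩
  · rintro y ⟨hy1, hy2⟩
    by_cases hya : y ∈ a
    · exact Or.inr ⟨hya, hy2⟩
    · exact Or.inl ⟨hy1, hya⟩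

theorem one_point (hσ : SigmaClosed R) {I : Set S → Set R} {r0 : R} (hI : GIdeal (fun q p : R => q ≤ p) I r0)
    (hND : ND (fun q p : R => q ≤ p) I r0) (p : EE R S I r0) (i : Car.{u} (ℵ_ 1)) : ∃ q ≤ p, q.x i ≠ none := by
  by_cases hpi : p.x i = none
  · obtain ⟨x, hx, u, hu, hG⟩ := one_point_claim hI hND p
    have hrng := one_point_rng p.x i x hpi
    let q : EE R S I r0 :=
      { r := u
        x := Function.update p.x i (some x)
        G := p.G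
        le := hu.trans p.le
        inj := by
          intro j k s hj hk
          by_cases hji : j = i
          · subst hji
            rw [Function.update_self] at hj
            by_cases hkj : k = j
            · exact hkj.symm
            · rw [Function.update_of_ne hkj] at hk
              have := Option.some.inj hj
              subst this
              exact absurd ⟨k, hk⟩ hx
          · rw [Function.update_of_ne hji] at hj
            by_cases hki : k = i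
            · subst hki
              rw [Function.update_self] at hk
              have := Option.some.inj hk
              subst this
              exact absurd ⟨j, hj⟩ hx
            · rw [Function.update_of_ne hki] at hk
              exact p.inj j k s hj hk
        ctblx := by
          refine (p.ctblx.insert i).mono ?_
          intro j hj
          by_cases hji : j = i
          · exact Or.inl hji
          · refine Or.inr ?_
            have hj' : Function.update p.x i (some x) j ≠ none := hj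
            rw [Function.update_of_ne hji] at hj'
            exact hj'
        mem := by
          rw [hrng, Set.insert_eq]
          exact hI.union _ _ _ (hI.fin u (hu.trans p.le) _ (Set.finite_singleton x))
            (hI.down _ _ p.mem _ hu)
        ctblG := p.ctblG
        prom := by
          intro X c h
          obtain ⟨h1, h2, -⟩ := p.prom X c h
          rw [hrng]
          exact ⟨h1, h2.trans (Set.subset_insert _ _), hG X c h⟩ }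
    refine ⟨q, ⟨hu, ?_, subset_rfl⟩, ?_⟩
    · intro j hj
      have hji : j ≠ i := by rintro rfl; exact hj hpi
      exact Function.update_of_ne hji _ _
    · show Function.update p.x i (some x) i ≠ none
      rw [Function.update_self]
      simp
  · exact ⟨p, le_rfl, hpi⟩

end

section

variable {R S : Type u} [Preorder R]

theorem exists_Fk (S : Type u) : ∃ Fk : Set S → ℕ → Set S, (∀ b k, (Fk b k).Finite) ∧
    ∀ b : Set S, b.Countable → ∀ F : Set S, F.Finite → F ⊆ b → ∃ k, F ⊆ Fk b k := by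
  classical
  have key : ∀ b : Set S, ∃ G : ℕ → Set S, (∀ k, (G k).Finite) ∧
      (b.Countable → ∀ F : Set S, F.Finite → F ⊆ b → ∃ k, F ⊆ G k) := by
    intro b
    by_cases hb : b.Countable ∧ b.Nonempty
    · obtain ⟨f, hf⟩ := hb.1.exists_eq_range hb.2
      refine ⟨fun k => f '' Set.Iio k, fun k => (Set.finite_Iio k).image f, fun _ F hF hFb => ?_⟩
      have h1 : ∀ x : S, x ∈ F → ∃ i, f i = x := fun x hx => by
        have := hFb hx
        rw [hf] at this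
        exact this
      choose! i hi using h1
      obtain ⟨N, hN⟩ := (hF.image i).bddAbove
      refine ⟨N + 1, fun x hx => ⟨i x, ?_, hi x hx⟩⟩
      have := hN (Set.mem_image_of_mem i hx)
      exact Set.mem_Iio.2 (Nat.lt_succ_of_le this)
    · refine ⟨fun _ => ∅, fun _ => Set.finite_empty, fun hc F _ hFb => ⟨0, fun x hx => ?_⟩⟩
      exact absurd ⟨hc, ⟨x, hFb hx⟩⟩ hb
  choose G hG using key
  exact ⟨G, fun b k => (hG b).1 k, fun b hb F hF hFb => (hG b).2 hb F hF hFb⟩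

end

section

variable {R S : Type u} [Preorder R]

/-- the condition with empty function and no promises -/
def exists_skolem_nil {I : Set S → Set R} {r0 : R} (hI : GIdeal (fun q p : R => q ≤ p) I r0) (u : R) (hu : u ≤ r0) :
    EE R S I r0 where
  r := u
  x := fun _ => none
  G := ∅
  le := hu
  inj := by intro i j s h; cases h
  ctblx := by simp
  mem := by
    have h : rng (fun _ : Car.{u} (ℵ_ 1) => (none : Option S)) = ∅ := by
      ext s; simp [rng]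
    rw [h]; exact hI.fin u hu ∅ Set.finite_empty
  ctblG := Set.countable_empty
  prom := by intro X c h; exact absurd h (Set.notMem_empty _)

end

section

variable {R S : Type u} [Preorder R]

theorem exists_skolem {I : Set S → Set R} {r0 : R} (hI : GIdeal (fun q p : R => q ≤ p) I r0)
    (Fk : Set S → ℕ → Set S) (hFk : ∀ b k, (Fk b k).Finite) :
    ∃ (β : EE R S I r0 → EE R S I r0 → Set (EE R S I r0) → Set S)
      (F : ℕ → List (EE R S I r0 ⊕ Set (EE R S I r0)) → EE R S I r0 ⊕ Set (EE R S I r0)),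
      ∀ M, Closed F M → GoodM I r0 β Fk M := by
  classical
  let β : EE R S I r0 → EE R S I r0 → Set (EE R S I r0) → Set S := fun e d 𝒟 =>
    if h : ∃ b0, Kprop I e.r d 𝒟 b0 then h.choose else ∅
  have hβ : ∀ e d 𝒟, (∃ b0, Kprop I e.r d 𝒟 b0) → Kprop I e.r d 𝒟 (β e d 𝒟) := by
    intro e d 𝒟 h
    have : β e d 𝒟 = h.choose := dif_pos h
    rw [this]; exact h.choose_spec
  -- amalgamation
  have h0 : ∀ e e' : EE R S I r0, ∃ e'' : EE R S I r0, (∃ ρ, ρ ≤ e.r ∧ ρ ≤ e'.r) → e''.r ≤ e.r ∧ e''.r ≤ e'.r := by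
    intro e e'
    by_cases h : ∃ ρ, ρ ≤ e.r ∧ ρ ≤ e'.r
    · obtain ⟨ρ, h1, h2⟩ := h
      exact ⟨exists_skolem_nil hI ρ (h1.trans e.le), fun _ => ⟨h1, h2⟩⟩
    · exact ⟨e, fun h' => absurd h' h⟩
  choose f0 hf0 using h0
  have h1 : ∀ (d e : EE R S I r0) (𝒟 : Set (EE R S I r0)), ∃ e' : EE R S I r0, DenseSet 𝒟 → e.r ≤ d.r →
      e'.r ≤ e.r ∧ Kprop I e'.r d 𝒟 (β e' d 𝒟) := by
    intro d e 𝒟
    by_cases h : DenseSet 𝒟 ∧ e.r ≤ d.r
    · obtain ⟨ρ', hρ', b0, hb0⟩ := key_ext hI d 𝒟 h.1 h.2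
      refine ⟨exists_skolem_nil hI ρ' (hρ'.trans e.le), fun _ _ => ⟨hρ', hβ _ _ _ ⟨b0, hb0⟩⟩⟩
    · exact ⟨e, fun ha hb => absurd ⟨ha, hb⟩ h⟩
  choose f1 hf1 using h1
  have h2 : ∀ (d : EE R S I r0) (𝒟 : Set (EE R S I r0)), ∃ e : EE R S I r0, d ∈ dn 𝒟 → e ∈ 𝒟 ∧ d ≤ e := by
    intro d 𝒟
    by_cases h : d ∈ dn 𝒟
    · obtain ⟨e, he⟩ := h
      exact ⟨e, fun _ => he⟩
    · exact ⟨d, fun h' => absurd h' h⟩
  choose f2 hf2 using h2
  have h3 : ∀ (k : ℕ) (d e e' : EE R S I r0) (𝒟 : Set (EE R S I r0)), ∃ d' : EE R S I r0,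
      Kprop I e.r d 𝒟 (β e d 𝒟) → e'.r ≤ e.r →
        d' ∈ dn 𝒟 ∧ d' ≤ d ∧ d'.r ≤ e'.r ∧ rng d'.x \ rng d.x ⊆ β e d 𝒟 \ Fk (β e d 𝒟) k := by
    intro k d e e' 𝒟
    by_cases h : Kprop I e.r d 𝒟 (β e d 𝒟) ∧ e'.r ≤ e.r
    · obtain ⟨d', hd', h1', h2', h3'⟩ := h.1.2 (Fk (β e d 𝒟) k) (hFk _ _) e'.r h.2
      exact ⟨d', fun _ _ => ⟨hd', h1', h2', h3'⟩⟩
    · exact ⟨e, fun ha hb => absurd ⟨ha, hb⟩ h⟩
  choose f3 hf3 using h3
  let F : ℕ → List (EE R S I r0 ⊕ Set (EE R S I r0)) → EE R S I r0 ⊕ Set (EE R S I r0) := fun n l =>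
    match n, l with
    | 0, [Sum.inl e, Sum.inl e'] => Sum.inl (f0 e e')
    | 1, [Sum.inl d, Sum.inl e, Sum.inr 𝒟] => Sum.inl (f1 d e 𝒟)
    | 2, [Sum.inl d, Sum.inr 𝒟] => Sum.inl (f2 d 𝒟)
    | k + 3, [Sum.inl d, Sum.inl e, Sum.inl e', Sum.inr 𝒟] => Sum.inl (f3 k d e e' 𝒟)
    | _, _ => Sum.inr ∅
  refine ⟨β, F, fun M hM => ⟨?_, ?_, ?_, ?_⟩⟩
  · intro e e' he he' hc
    refine ⟨f0 e e', ?_, hf0 e e' hc⟩
    have := hM 0 [Sum.inl e, Sum.inl e'] (by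
      intro x hx
      simp only [List.mem_cons, List.not_mem_nil, or_false] at hx
      rcases hx with rfl | rfl
      · exact he
      · exact he')
    exact this
  · intro d e 𝒟 hd he h𝒟 hD hle
    refine ⟨f1 d e 𝒟, ?_, hf1 d e 𝒟 hD hle⟩
    have := hM 1 [Sum.inl d, Sum.inl e, Sum.inr 𝒟] (by
      intro x hx
      simp only [List.mem_cons, List.not_mem_nil, or_false] at hx
      rcases hx with rfl | rfl | rfl
      · exact hd
      · exact he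
      · exact h𝒟)
    exact this
  · intro d e e' 𝒟 k hd he he' h𝒟 hK hle
    refine ⟨f3 k d e e' 𝒟, ?_, hf3 k d e e' 𝒟 hK hle⟩
    have := hM (k + 3) [Sum.inl d, Sum.inl e, Sum.inl e', Sum.inr 𝒟] (by
      intro x hx
      simp only [List.mem_cons, List.not_mem_nil, or_false] at hx
      rcases hx with rfl | rfl | rfl | rfl
      · exact hd
      · exact he
      · exact he'
      · exact h𝒟)
    exact this
  · intro d 𝒟 hd h𝒟 hdn
    refine ⟨f2 d 𝒟, (hf2 d 𝒟 hdn).1, ?_, (hf2 d 𝒟 hdn).2⟩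
    have := hM 2 [Sum.inl d, Sum.inr 𝒟] (by
      intro x hx
      simp only [List.mem_cons, List.not_mem_nil, or_false] at hx
      rcases hx with rfl | rfl
      · exact hd
      · exact h𝒟)
    exact this

end

section

variable {R S : Type u} [Preorder R]

theorem generic_seq (hσ : SigmaClosed R) {I : Set S → Set R} {r0 : R} (hI : GIdeal (fun q p : R => q ≤ p) I r0)
    {β : EE R S I r0 → EE R S I r0 → Set (EE R S I r0) → Set S} {Fk : Set S → ℕ → Set S}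
    (hFk : ∀ b k, (Fk b k).Finite)
    (hFk' : ∀ b : Set S, b.Countable → ∀ F : Set S, F.Finite → F ⊆ b → ∃ k, F ⊆ Fk b k)
    {M : Set (EE R S I r0 ⊕ Set (EE R S I r0))} (hM : M.Countable) (hG : GoodM I r0 β Fk M) (p : EE R S I r0)
    (hp : Sum.inl p ∈ M) :
    ∃ ρ ≤ p.r, ∀ d 𝒟, Sum.inl d ∈ M → Sum.inr 𝒟 ∈ M → DenseSet 𝒟 → (∃ ρ', ρ' ≤ ρ ∧ ρ' ≤ d.r) →
      ∃ b0, ρ ∈ I b0 ∧ ∀ F : Set S, F.Finite → ∃ d', Sum.inl d' ∈ M ∧ d' ∈ dn 𝒟 ∧ d' ≤ d ∧ ρ ≤ d'.r ∧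
        rng d'.x \ rng d.x ⊆ b0 \ F := by
  classical
  -- requirements
  let A : EE R S I r0 → Set (EE R S I r0) → Set (EE R S I r0) := fun d 𝒟 =>
    {e | (¬ ∃ u, u ≤ e.r ∧ u ≤ d.r) ∨ Kprop I e.r d 𝒟 (β e d 𝒟)}
  let B : EE R S I r0 → EE R S I r0 → Set (EE R S I r0) → ℕ → Set (EE R S I r0) := fun d e0 𝒟 k =>
    {e | (¬ ∃ u, u ≤ e.r ∧ u ≤ e0.r) ∨ ∃ d', Sum.inl d' ∈ M ∧ d' ∈ dn 𝒟 ∧ d' ≤ d ∧ e.r ≤ d'.r ∧
      rng d'.x \ rng d.x ⊆ β e0 d 𝒟 \ Fk (β e0 d 𝒟) k}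
  let Mp : Set (EE R S I r0) := {e | Sum.inl e ∈ M}
  let MD : Set (Set (EE R S I r0)) := {𝒟 | Sum.inr 𝒟 ∈ M}
  have hMp : Mp.Countable := hM.preimage Sum.inl_injective
  have hMD : MD.Countable := hM.preimage Sum.inr_injective
  let 𝔖 : Set (Set (EE R S I r0)) := insert Set.univ
    ((fun q : EE R S I r0 × Set (EE R S I r0) => A q.1 q.2) ''
        ((Mp ×ˢ MD) ∩ {q | DenseSet q.2}) ∪
      (fun q : (EE R S I r0 × EE R S I r0) × (Set (EE R S I r0) × ℕ) => B q.1.1 q.1.2 q.2.1 q.2.2) ''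
        (((Mp ×ˢ Mp) ×ˢ (MD ×ˢ Set.univ)) ∩
          {q | Kprop I q.1.2.r q.1.1 q.2.1 (β q.1.2 q.1.1 q.2.1)}))
  have h𝔖 : 𝔖.Countable := by
    refine Set.Countable.insert _ (Set.Countable.union ?_ ?_)
    · exact ((hMp.prod hMD).mono Set.inter_subset_left).image _
    · exact (((hMp.prod hMp).prod (hMD.prod (Set.countable_univ))).mono
        Set.inter_subset_left).image _
  obtain ⟨f, hf⟩ := h𝔖.exists_eq_range ⟨Set.univ, Set.mem_insert _ _⟩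
  have hdense : ∀ O ∈ 𝔖, ∀ q ∈ Mp, ∃ q' ∈ Mp, q'.r ≤ q.r ∧ q' ∈ O := by
    intro O hO e he
    rcases hO with rfl | ⟨⟨d, 𝒟⟩, ⟨⟨hd, h𝒟⟩, hD⟩, rfl⟩ | ⟨⟨⟨d, e0⟩, ⟨𝒟, k⟩⟩, ⟨⟨⟨hd, he0⟩, ⟨h𝒟, -⟩⟩, hK⟩, rfl⟩
    · exact ⟨e, he, le_rfl, Set.mem_univ _⟩
    · by_cases hc : ∃ u, u ≤ e.r ∧ u ≤ d.r
      · obtain ⟨e2, he2, h1, h2⟩ := hG.amalg e d he hd hc
        obtain ⟨e', he', h3, h4⟩ := hG.key d e2 𝒟 hd he2 h𝒟 hD h2
        exact ⟨e', he', h3.trans h1, Or.inr h4⟩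
      · exact ⟨e, he, le_rfl, Or.inl hc⟩
    · by_cases hc : ∃ u, u ≤ e.r ∧ u ≤ e0.r
      · obtain ⟨e2, he2, h1, h2⟩ := hG.amalg e e0 he he0 hc
        obtain ⟨d', hd', h3, h4, h5, h6⟩ := hG.ext d e0 e2 𝒟 k hd he0 he2 h𝒟 hK h2
        exact ⟨d', hd', h5.trans h1, Or.inr ⟨d', hd', h3, h4, le_rfl, h6⟩⟩
      · exact ⟨e, he, le_rfl, Or.inl hc⟩
  obtain ⟨s, hs0, hsM, hsle, hsO⟩ := rasiowa (fun e' e : EE R S I r0 => e'.r ≤ e.r) Mp f p hp
    (fun n q hq => hdense (f n) (by rw [hf]; exact Set.mem_range_self n) q hq)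
  obtain ⟨ρ, hρ⟩ := hσ (fun n => (s n).r) hsle
  refine ⟨ρ, by rw [← hs0]; exact hρ 0, ?_⟩
  intro d 𝒟 hd h𝒟 hD hcomp
  obtain ⟨ρ', hρ'1, hρ'2⟩ := hcomp
  have hA : A d 𝒟 ∈ 𝔖 := Or.inr (Or.inl ⟨(d, 𝒟), ⟨⟨hd, h𝒟⟩, hD⟩, rfl⟩)
  rw [hf] at hA
  obtain ⟨j, hj⟩ := hA
  have hsj := hsO j
  rw [hj] at hsj
  have hK : Kprop I (s (j + 1)).r d 𝒟 (β (s (j + 1)) d 𝒟) := by
    rcases hsj with h | h
    · exact absurd ⟨ρ', hρ'1.trans (hρ (j + 1)), hρ'2⟩ h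
    · exact h
  refine ⟨β (s (j + 1)) d 𝒟, hI.down _ _ hK.1 ρ (hρ (j + 1)), ?_⟩
  intro F hF
  obtain ⟨k, hk⟩ := hFk' (β (s (j + 1)) d 𝒟) (hI.ctbl _ _ hK.1) (F ∩ β (s (j + 1)) d 𝒟)
    (hF.subset Set.inter_subset_left) Set.inter_subset_right
  have hB : B d (s (j + 1)) 𝒟 k ∈ 𝔖 :=
    Or.inr (Or.inr ⟨((d, s (j + 1)), (𝒟, k)), ⟨⟨⟨hd, hsM (j + 1)⟩, ⟨h𝒟, Set.mem_univ _⟩⟩, hK⟩, rfl⟩)
  rw [hf] at hB
  obtain ⟨i, hi⟩ := hB
  have hsi := hsO i
  rw [hi] at hsi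
  rcases hsi with h | ⟨d', hd', h1, h2, h3, h4⟩
  · exact absurd ⟨ρ, hρ (i + 1), hρ (j + 1)⟩ h
  · refine ⟨d', hd', h1, h2, (hρ (i + 1)).trans h3, h4.trans ?_⟩
    rintro x ⟨hx1, hx2⟩
    exact ⟨hx1, fun hxF => hx2 (hk ⟨hxF, hx1⟩)⟩

end

section

variable {R S : Type u} [Preorder R]

theorem fusion_isCof_down {I : Set S → Set R} {r w : R} (hw : w ≤ r) {X : Set S → Set R}
    (h : IsCof I r X) : IsCof I w X := fun r' hr' => h r' (hr'.trans hw)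

theorem fusion_isCof_mono {I : Set S → Set R} {r : R} {X Y : Set S → Set R}
    (h : IsCof I r X) (hXY : ∀ b, X b ⊆ Y b) : IsCof I r Y := by
  intro r' hr' b hb
  obtain ⟨r'', h1, b', h2, h3⟩ := h r' hr' b hb
  exact ⟨r'', h1, b', hXY b' h2, h3⟩

theorem fusion_nm {I : Set S → Set R} {X : Set S → Set R} (h : NmOK I X) (c : Set S) :
    NmOK I (restr X c) :=
  ⟨fun b _ hx => h.1 b hx.1, fun b ρ hρ ρ' hρ' => ⟨h.2 b ρ hρ.1 ρ' hρ', hρ.2⟩⟩

/-- the states of the construction -/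
def fusion_St {I : Set S → Set R} {r0 : R} (M : Set (EE R S I r0 ⊕ Set (EE R S I r0))) (ρ ρ1 : R)
    (a : Set S) : Type u :=
  {s : EE R S I r0 × R × Set S // Sum.inl s.1 ∈ M ∧ ρ ≤ s.1.r ∧ s.2.1 ≤ ρ1 ∧ s.2.2 ⊆ a ∧
    (a \ s.2.2).Finite}

/-- one step of the construction -/
theorem fusion_step (hσ : SigmaClosed R) {I : Set S → Set R} {r0 : R}
    (hI : GIdeal (fun q p : R => q ≤ p) I r0)
    {M : Set (EE R S I r0 ⊕ Set (EE R S I r0))} {ρ ρ1 : R} {a : Set S} (hρ0 : ρ ≤ r0)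
    (hρ1 : ρ1 ≤ ρ) (ha : ρ1 ∈ I a)
    (hD : ∀ (d : EE R S I r0) (𝒟 : Set (EE R S I r0)), Sum.inl d ∈ M → Sum.inr 𝒟 ∈ M →
      DenseSet 𝒟 → ρ ≤ d.r → ∀ a' : Set S, (a \ a').Finite →
      ∃ d' : EE R S I r0, Sum.inl d' ∈ M ∧ d' ∈ dn 𝒟 ∧ d' ≤ d ∧ ρ ≤ d'.r ∧
        rng d'.x \ rng d.x ⊆ a')
    (s : fusion_St M ρ ρ1 a) (t : (Set S → Set R) × Set S) (𝒟 : Set (EE R S I r0)) :
    ∃ s' : fusion_St M ρ ρ1 a, s'.1.1 ≤ s.1.1 ∧ s'.1.2.1 ≤ s.1.2.1 ∧ s'.1.2.2 ⊆ s.1.2.2 ∧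
      (t ∈ s.1.1.G → IsCof I s'.1.2.1 (restr (restr t.1 (rng s.1.1.x \ t.2)) s'.1.2.2)) ∧
      (Sum.inr 𝒟 ∈ M → DenseSet 𝒟 → s'.1.1 ∈ dn 𝒟) ∧
      rng s'.1.1.x \ rng s.1.1.x ⊆ s'.1.2.2 := by
  obtain ⟨⟨d, σ, b⟩, h1, h2, h3, h4, h5⟩ := s
  simp only at h1 h2 h3 h4 h5 ⊢
  -- step (a)
  obtain ⟨σ', b', h6, h7, h8, h9⟩ : ∃ (σ' : R) (b' : Set S), σ' ≤ σ ∧ b' ⊆ b ∧ (a \ b').Finite ∧
      (t ∈ d.G → IsCof I σ' (restr (restr t.1 (rng d.x \ t.2)) b')) := by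
    by_cases ht : t ∈ d.G
    · obtain ⟨g1, g2, g3⟩ := d.prom t.1 t.2 ht
      have g4 : σ ≤ d.r := h3.trans (hρ1.trans h2)
      have g5 : σ ∈ I b := hI.sub _ _ _ (hI.down _ _ ha _ h3) h4
      obtain ⟨F, hF, σ', g6, g7⟩ := cof_split hσ hI (h3.trans (hρ1.trans hρ0))
        (fusion_nm g1 (rng d.x \ t.2)) (fusion_isCof_down g4 g3) g5
      refine ⟨σ', b \ F, g6, sdiff_subset, ?_, fun _ => g7⟩
      refine (h5.union hF).subset ?_
      intro y hy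
      by_cases hyb : y ∈ b
      · right
        by_contra hyF
        exact hy.2 ⟨hyb, hyF⟩
      · exact Or.inl ⟨hy.1, hyb⟩
    · exact ⟨σ, b, le_rfl, subset_rfl, h5, fun h => absurd h ht⟩
  by_cases hDD : Sum.inr 𝒟 ∈ M ∧ DenseSet 𝒟
  · obtain ⟨d', g1, g2, g3, g4, g5⟩ := hD d 𝒟 h1 hDD.1 hDD.2 h2 b' h8
    exact ⟨⟨(d', σ', b'), g1, g4, h6.trans h3, h7.trans h4, h8⟩, g3, h6, h7, h9,
      fun _ _ => g2, g5⟩
  · refine ⟨⟨(d, σ', b'), h1, h2, h6.trans h3, h7.trans h4, h8⟩, le_rfl, h6, h7, h9,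
      fun g1 g2 => absurd ⟨g1, g2⟩ hDD, ?_⟩
    simp

theorem fusion (hσ : SigmaClosed R) {I : Set S → Set R} {r0 : R} (hI : GIdeal (fun q p : R => q ≤ p) I r0)
    {M : Set (EE R S I r0 ⊕ Set (EE R S I r0))} (hM : M.Countable)
    (hup : ∀ d 𝒟, Sum.inl d ∈ M → Sum.inr 𝒟 ∈ M → d ∈ dn 𝒟 → ∃ e ∈ 𝒟, Sum.inl e ∈ M ∧ d ≤ e)
    (p : EE R S I r0) (hp : Sum.inl p ∈ M) {ρ : R} (hρ : ρ ≤ p.r)
    (h : ∀ d 𝒟, Sum.inl d ∈ M → Sum.inr 𝒟 ∈ M → DenseSet 𝒟 → (∃ ρ', ρ' ≤ ρ ∧ ρ' ≤ d.r) →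
      ∃ b0, ρ ∈ I b0 ∧ ∀ F : Set S, F.Finite → ∃ d', Sum.inl d' ∈ M ∧ d' ∈ dn 𝒟 ∧ d' ≤ d ∧ ρ ≤ d'.r ∧
        rng d'.x \ rng d.x ⊆ b0 \ F) :
    ∃ q ≤ p, ∀ 𝒟, Sum.inr 𝒟 ∈ M → DenseSet 𝒟 → ∃ d ∈ 𝒟, Sum.inl d ∈ M ∧ q ≤ d := by

  classical
  have hρ0 : ρ ≤ r0 := hρ.trans p.le
  have : Nonempty (EE R S I r0) := ⟨p⟩
  -- the sets `b0`
  have hex : ∀ (z : EE R S I r0 × Set (EE R S I r0)), ∃ b0 : Set S,
      (Sum.inl z.1 ∈ M ∧ Sum.inr z.2 ∈ M ∧ DenseSet z.2 ∧ (∃ ρ', ρ' ≤ ρ ∧ ρ' ≤ z.1.r)) →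
      (ρ ∈ I b0 ∧ ∀ F : Set S, F.Finite → ∃ d' : EE R S I r0, Sum.inl d' ∈ M ∧ d' ∈ dn z.2 ∧
        d' ≤ z.1 ∧ ρ ≤ d'.r ∧ rng d'.x \ rng z.1.x ⊆ b0 \ F) := by
    intro z
    by_cases hz : Sum.inl z.1 ∈ M ∧ Sum.inr z.2 ∈ M ∧ DenseSet z.2 ∧ (∃ ρ', ρ' ≤ ρ ∧ ρ' ≤ z.1.r)
    · obtain ⟨b0, h1⟩ := h z.1 z.2 hz.1 hz.2.1 hz.2.2.1 hz.2.2.2
      exact ⟨b0, fun _ => h1⟩
    · exact ⟨∅, fun h1 => absurd h1 hz⟩
  choose b0 hb0 using hex
  -- countability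
  have hcM1 : {d : EE R S I r0 | Sum.inl d ∈ M}.Countable :=
    hM.preimage_of_injOn (Sum.inl_injective.injOn)
  have hcM2 : {𝒟 : Set (EE R S I r0) | Sum.inr 𝒟 ∈ M}.Countable :=
    hM.preimage_of_injOn (Sum.inr_injective.injOn)
  obtain ⟨f, hf⟩ := Set.countable_iff_exists_subset_range.1 (hcM1.prod hcM2)
  obtain ⟨D, hDr⟩ := Set.countable_iff_exists_subset_range.1 hcM2
  have hct : {t : (Set S → Set R) × Set S | ∃ d : EE R S I r0, Sum.inl d ∈ M ∧ t ∈ d.G}.Countable := by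
    have : {t : (Set S → Set R) × Set S | ∃ d : EE R S I r0, Sum.inl d ∈ M ∧ t ∈ d.G} =
        ⋃ d ∈ {d : EE R S I r0 | Sum.inl d ∈ M}, d.G := by
      ext t
      simp
    rw [this]
    exact hcM1.biUnion fun d _ => d.ctblG
  have : Nonempty ((Set S → Set R) × Set S) := ⟨(fun _ => ∅, ∅)⟩
  obtain ⟨t, ht⟩ := Set.countable_iff_exists_subset_range.1 hct
  -- the pseudo-union
  obtain ⟨ρ1, hρ1, a, ha, hfin⟩ := hI.pid ρ hρ0
    (fun n => if (Sum.inl (f n).1 ∈ M ∧ Sum.inr (f n).2 ∈ M ∧ DenseSet (f n).2 ∧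
      (∃ ρ', ρ' ≤ ρ ∧ ρ' ≤ (f n).1.r)) then b0 (f n) else ∅) (by
    intro n
    split_ifs with h1
    · exact (hb0 (f n) h1).1
    · exact hI.fin ρ hρ0 ∅ Set.finite_empty)
  have hD : ∀ (d : EE R S I r0) (𝒟 : Set (EE R S I r0)), Sum.inl d ∈ M → Sum.inr 𝒟 ∈ M →
      DenseSet 𝒟 → ρ ≤ d.r → ∀ a' : Set S, (a \ a').Finite →
      ∃ d' : EE R S I r0, Sum.inl d' ∈ M ∧ d' ∈ dn 𝒟 ∧ d' ≤ d ∧ ρ ≤ d'.r ∧
        rng d'.x \ rng d.x ⊆ a' := by
    intro d 𝒟 h1 h2 h3 h4 a' ha'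
    have h5 : Sum.inl (d, 𝒟).1 ∈ M ∧ Sum.inr (d, 𝒟).2 ∈ M ∧ DenseSet (d, 𝒟).2 ∧
      (∃ ρ', ρ' ≤ ρ ∧ ρ' ≤ (d, 𝒟).1.r) := ⟨h1, h2, h3, ρ, le_rfl, h4⟩
    obtain ⟨n, hn⟩ := hf (show (d, 𝒟) ∈ _ from ⟨h1, h2⟩)
    have h6 := hfin n
    rw [hn, if_pos h5] at h6
    have h7 : (b0 (d, 𝒟) \ a').Finite := by
      refine (h6.union ha').subset ?_
      intro y hy
      by_cases hya : y ∈ a
      · exact Or.inr ⟨hya, hy.2⟩
      · exact Or.inl ⟨hy.1, hya⟩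
    obtain ⟨d', g1, g2, g3, g4, g5⟩ := (hb0 (d, 𝒟) h5).2 _ h7
    refine ⟨d', g1, g2, g3, g4, fun y hy => ?_⟩
    have := g5 hy
    by_contra hya
    exact this.2 ⟨this.1, hya⟩
  -- the construction
  have hstep := fusion_step hσ hI hρ0 hρ1 ha hD
  choose nx n1 n2 n3 n4 n5 n6 using hstep
  set s : ℕ → fusion_St M ρ ρ1 a := fun n => Nat.rec
    (⟨(p, ρ1, a), hp, hρ, le_rfl, subset_rfl, by simp⟩ : fusion_St M ρ ρ1 a)
    (fun i s => nx s (t (Nat.unpair i).2) (D i)) n with hs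
  have hs0 : (s 0).1.1 = p := rfl
  have hsucc : ∀ i, s (i + 1) = nx (s i) (t (Nat.unpair i).2) (D i) := fun i => rfl
  have hdle : ∀ i, (s (i + 1)).1.1 ≤ (s i).1.1 := fun i => by rw [hsucc]; exact n1 _ _ _
  have hrle : ∀ i, (s (i + 1)).1.2.1 ≤ (s i).1.2.1 := fun i => by rw [hsucc]; exact n2 _ _ _
  have hale : ∀ i, (s (i + 1)).1.2.2 ⊆ (s i).1.2.2 := fun i => by rw [hsucc]; exact n3 _ _ _
  have hcof : ∀ i, t (Nat.unpair i).2 ∈ (s i).1.1.G → IsCof I (s (i + 1)).1.2.1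
      (restr (restr (t (Nat.unpair i).2).1 (rng (s i).1.1.x \ (t (Nat.unpair i).2).2))
        (s (i + 1)).1.2.2) := fun i => by rw [hsucc]; exact n4 _ _ _
  have hdn : ∀ i, Sum.inr (D i) ∈ M → DenseSet (D i) → (s (i + 1)).1.1 ∈ dn (D i) := fun i => by
    rw [hsucc]; exact n5 _ _ _
  have hrg : ∀ i, rng (s (i + 1)).1.1.x \ rng (s i).1.1.x ⊆ (s (i + 1)).1.2.2 := fun i => by
    rw [hsucc]; exact n6 _ _ _
  have hdle' : ∀ i j, i ≤ j → (s j).1.1 ≤ (s i).1.1 := by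
    intro i j hij
    induction hij with
    | refl => exact le_rfl
    | step _ ih => exact (hdle _).trans ih
  have hale' : ∀ i j, i ≤ j → (s j).1.2.2 ⊆ (s i).1.2.2 := by
    intro i j hij
    induction hij with
    | refl => exact subset_rfl
    | step _ ih => exact (hale _).trans ih
  obtain ⟨w, hw⟩ := hσ (fun i => (s i).1.2.1) hrle
  have hwρ1 : w ≤ ρ1 := (hw 0).trans (s 0).2.2.2.1
  have hwd : ∀ i, w ≤ (s i).1.1.r := fun i => hwρ1.trans (hρ1.trans (s i).2.2.1)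
  -- the function `x`
  have hxex : ∀ j : Car.{u} (ℵ_ 1), ∃ y : Option S, (∀ i, (s i).1.1.x j ≠ none →
      y = (s i).1.1.x j) ∧ (y ≠ none → ∃ i, (s i).1.1.x j = y) := by
    intro j
    by_cases hj : ∃ i, (s i).1.1.x j ≠ none
    · obtain ⟨i, hi⟩ := hj
      refine ⟨(s i).1.1.x j, ?_, fun _ => ⟨i, rfl⟩⟩
      intro i' hi'
      rcases le_total i i' with h1 | h1
      · exact ((EE.le_iff.1 (hdle' i i' h1)).2.1 j hi).symm
      · exact (EE.le_iff.1 (hdle' i' i h1)).2.1 j hi'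
    · push Not at hj
      exact ⟨none, fun i hi => absurd (hj i) hi, fun h1 => absurd rfl h1⟩
  choose x hx1 hx2 using hxex
  have hxsome : ∀ j y, x j = some y → ∃ i, (s i).1.1.x j = some y := by
    intro j y hy
    obtain ⟨i, hi⟩ := hx2 j (by rw [hy]; simp)
    exact ⟨i, by rw [hi, hy]⟩
  have hsomex : ∀ i j y, (s i).1.1.x j = some y → x j = some y := by
    intro i j y hy
    rw [hx1 j i (by rw [hy]; simp), hy]
  have hrng_sub : ∀ i, rng (s i).1.1.x ⊆ rng x := by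
    rintro i y ⟨j, hj⟩
    exact ⟨j, hsomex i j y hj⟩
  have hrng_mem : ∀ y ∈ rng x, ∃ i, y ∈ rng (s i).1.1.x := by
    rintro y ⟨j, hj⟩
    obtain ⟨i, hi⟩ := hxsome j y hj
    exact ⟨i, j, hi⟩
  have hrng_mono : ∀ i j, i ≤ j → rng (s i).1.1.x ⊆ rng (s j).1.1.x := by
    rintro i j hij y ⟨l, hl⟩
    refine ⟨l, ?_⟩
    rw [(EE.le_iff.1 (hdle' i j hij)).2.1 l (by rw [hl]; simp), hl]
  have hrng_from : ∀ i n, rng (s (i + n)).1.1.x ⊆ rng (s i).1.1.x ∪ (s (i + 1)).1.2.2 := by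
    intro i n
    induction n with
    | zero => exact subset_union_left
    | succ n ih =>
      intro y hy
      by_cases hy2 : y ∈ rng (s (i + n)).1.1.x
      · exact ih hy2
      · right
        have h1 := hrg (i + n) ⟨hy, hy2⟩
        exact hale' (i + 1) (i + n + 1) (by omega) h1
  have hrng_tot : ∀ i, rng x ⊆ rng (s i).1.1.x ∪ (s (i + 1)).1.2.2 := by
    intro i y hy
    obtain ⟨l, hl⟩ := hrng_mem y hy
    have h1 := hrng_mono l (i + l) (by omega) hl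
    exact hrng_from i l h1
  have hwI : w ∈ I (rng x) := by
    have h1 : w ∈ I (rng p.x) := hI.down _ _ p.mem _ (hwρ1.trans (hρ1.trans hρ))
    have h2 : w ∈ I a := hI.down _ _ ha _ hwρ1
    refine hI.sub _ _ _ (hI.union _ _ _ h1 h2) ?_
    refine (hrng_tot 0).trans (union_subset_union ?_ ?_)
    · rw [hs0]
    · exact (s (0 + 1)).2.2.2.2.1
  let q : EE R S I r0 :=
    { r := w
      x := x
      G := ⋃ i, (s i).1.1.G
      le := hwρ1.trans (hρ1.trans hρ0)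
      inj := by
        intro i j y hi hj
        obtain ⟨m, hm⟩ := hxsome i y hi
        obtain ⟨n, hn⟩ := hxsome j y hj
        have e1 : (s (max m n)).1.1.x i = some y := by
          rw [(EE.le_iff.1 (hdle' m (max m n) (le_max_left _ _))).2.1 i (by rw [hm]; simp), hm]
        have e2 : (s (max m n)).1.1.x j = some y := by
          rw [(EE.le_iff.1 (hdle' n (max m n) (le_max_right _ _))).2.1 j (by rw [hn]; simp), hn]
        exact (s (max m n)).1.1.inj i j y e1 e2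
      ctblx := by
        refine (Set.countable_iUnion fun i => (s i).1.1.ctblx).mono ?_
        intro j hj
        obtain ⟨i, hi⟩ := hx2 j hj
        rw [mem_iUnion]
        refine ⟨i, ?_⟩
        show (s i).1.1.x j ≠ none
        rw [hi]
        exact hj
      mem := hwI
      ctblG := Set.countable_iUnion fun i => (s i).1.1.ctblG
      prom := by
        intro X c hXc
        rw [mem_iUnion] at hXc
        obtain ⟨j, hj⟩ := hXc
        obtain ⟨g1, g2, g3⟩ := (s j).1.1.prom X c hj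
        refine ⟨g1, g2.trans (hrng_sub j), ?_⟩
        obtain ⟨k, hk⟩ := ht (show (X, c) ∈ _ from ⟨(s j).1.1, (s j).2.1, hj⟩)
        have h2 : (Nat.unpair (Nat.pair j k)).2 = k := by rw [Nat.unpair_pair]
        have h3 : (X, c) ∈ (s (Nat.pair j k)).1.1.G :=
          (EE.le_iff.1 (hdle' j _ (Nat.left_le_pair j k))).2.2 hj
        have h4 := hcof (Nat.pair j k) (by rw [h2, hk]; exact h3)
        rw [h2, hk] at h4
        refine fusion_isCof_mono (fusion_isCof_down (hw (Nat.pair j k + 1)) h4) ?_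
        rintro b' u ⟨⟨u1, u2⟩, u3⟩
        refine ⟨u1, ?_⟩
        rintro y ⟨hy1, hy2⟩
        rcases hrng_tot (Nat.pair j k) hy1 with h5 | h5
        · exact u2 ⟨h5, hy2⟩
        · exact u3 h5 }
  have hq : ∀ i, q ≤ (s i).1.1 := by
    intro i
    rw [EE.le_iff]
    exact ⟨hwd i, fun j hj => hx1 j i hj, fun z hz => mem_iUnion.2 ⟨i, hz⟩⟩
  refine ⟨q, hq 0, ?_⟩
  intro 𝒟 h1 h2
  obtain ⟨i, hi⟩ := hDr h1
  have h3 := hdn i (by rw [hi]; exact h1) (by rw [hi]; exact h2)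
  rw [hi] at h3
  obtain ⟨e, he1, he2, he3⟩ := hup _ 𝒟 (s (i + 1)).2.1 h1 h3
  exact ⟨e, he1, he2, (hq (i + 1)).trans he3⟩

end

section

variable {R S : Type u} [Preorder R]

/-- the poset is totally proper -/
theorem total_proper (hσ : SigmaClosed R) {I : Set S → Set R} {r0 : R} (hI : GIdeal (fun q p : R => q ≤ p) I r0) :
    ∃ F : ℕ → List (EE R S I r0 ⊕ Set (EE R S I r0)) → EE R S I r0 ⊕ Set (EE R S I r0),
      ∀ M : Set (EE R S I r0 ⊕ Set (EE R S I r0)), M.Countable → Closed F M → ∀ p, Sum.inl p ∈ M →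
        ∃ q ≤ p, ∀ 𝒟, Sum.inr 𝒟 ∈ M → DenseSet 𝒟 → ∃ d ∈ 𝒟, Sum.inl d ∈ M ∧ q ≤ d := by
  obtain ⟨Fk, hFk, hFk'⟩ := exists_Fk S
  obtain ⟨β, F, hF⟩ := exists_skolem hI Fk hFk
  refine ⟨F, fun M hM hcl p hp => ?_⟩
  have hG := hF M hcl
  obtain ⟨ρ, hρ, h⟩ := generic_seq hσ hI hFk hFk' hM hG p hp
  exact fusion hσ hI hM hG.up p hp hρ h

end

section

variable {R S : Type u} [Preorder R]

theorem dense_init (hσ : SigmaClosed R) {I : Set S → Set R} {r0 : R} (hI : GIdeal (fun q p : R => q ≤ p) I r0)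
    (hND : ND (fun q p : R => q ≤ p) I r0) (i : Car.{u} (ℵ_ 1)) :
    DenseSet {p : EE R S I r0 | ∀ j ≤ i, p.x j ≠ none} := by
  intro p
  obtain ⟨F, hF⟩ := total_proper hσ hI
  have hc : (Set.Iic i).Countable := by
    have h1 : (Set.Iio i).Countable := by
      rw [← Cardinal.le_aleph0_iff_set_countable, ← Order.lt_succ_iff, Cardinal.succ_aleph0]
      exact Cardinal.mk_Iio_toType_ord_lt i
    rw [← Set.Iio_insert]
    exact h1.insert i
  obtain ⟨M, hM1, hM2, hM3⟩ := exists_closed ({Sum.inl p} ∪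
    (fun j => Sum.inr {p : EE R S I r0 | p.x j ≠ none}) '' Set.Iic i)
    ((Set.countable_singleton _).union (hc.image _)) F
  obtain ⟨q, hqp, hq⟩ := hF M hM2 hM3 p (hM1 (Or.inl rfl))
  refine ⟨q, fun j hj => ?_, hqp⟩
  obtain ⟨d, hd, _, hqd⟩ := hq _ (hM1 (Or.inr ⟨j, hj, rfl⟩)) (fun p => by
    obtain ⟨q, hq, h⟩ := one_point hσ hI hND p j
    exact ⟨q, h, hq⟩)
  rw [hqd.2.1 j hd]
  exact hd

end

section

variable {R S : Type u} [Preorder R]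

/-- the increasing chain of sets -/
def directed_sub_chain {P : Type u} (c : P → P → P) (Z0 : Set P) : ℕ → Set P
  | 0 => Z0
  | n + 1 => directed_sub_chain c Z0 n ∪
      (fun p : P × P => c p.1 p.2) '' (directed_sub_chain c Z0 n ×ˢ directed_sub_chain c Z0 n)

theorem directed_sub_mono {P : Type u} (c : P → P → P) (Z0 : Set P) :
    Monotone (directed_sub_chain c Z0) := by
  refine monotone_nat_of_le_succ fun n => ?_
  rw [directed_sub_chain]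
  exact Set.subset_union_left

theorem directed_sub_card {P : Type u} (c : P → P → P) (Z0 : Set P) (h0 : #Z0 ≤ ℵ_ 1) (n : ℕ) :
    #(directed_sub_chain c Z0 n) ≤ ℵ_ 1 := by
  have hinf : ℵ₀ ≤ (ℵ_ 1 : Cardinal.{u}) := aleph0_le_aleph 1
  induction n with
  | zero => exact h0
  | succ n ih =>
    rw [directed_sub_chain]
    refine (mk_union_le _ _).trans ?_
    have h1 : #((fun p : P × P => c p.1 p.2) ''
        (directed_sub_chain c Z0 n ×ˢ directed_sub_chain c Z0 n)) ≤ ℵ_ 1 := by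
      refine mk_image_le.trans ?_
      have e : #(directed_sub_chain c Z0 n ×ˢ directed_sub_chain c Z0 n : Set (P × P)) =
          #(directed_sub_chain c Z0 n) * #(directed_sub_chain c Z0 n) := by
        rw [Cardinal.mk_setProd]
      rw [e]
      calc #(directed_sub_chain c Z0 n) * #(directed_sub_chain c Z0 n) ≤ ℵ_ 1 * ℵ_ 1 :=
            mul_le_mul' ih ih
        _ = ℵ_ 1 := mul_eq_self hinf
    calc _ ≤ ℵ_ 1 + ℵ_ 1 := add_le_add ih h1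
      _ = ℵ_ 1 := add_eq_self hinf

/-- a directed set of size at most `ℵ₁` inside a filter -/
theorem directed_sub {P : Type u} [Preorder P] (G : Set P) (hG : ∀ p ∈ G, ∀ q ∈ G, ∃ r ∈ G, r ≤ p ∧ r ≤ q)
    (s : Car.{u} (ℵ_ 1) → P) (hs : ∀ i, s i ∈ G) :
    ∃ Z ⊆ G, Z.Nonempty ∧ (∀ i, s i ∈ Z) ∧ (∀ x ∈ Z, ∀ y ∈ Z, ∃ z ∈ Z, z ≤ x ∧ z ≤ y) ∧ #Z < ℵ_ 2 := by
  classical
  have hinf : ℵ₀ ≤ (ℵ_ 1 : Cardinal.{u}) := aleph0_le_aleph 1
  have hc0 : ∀ p q : P, ∃ r, p ∈ G → q ∈ G → r ∈ G ∧ r ≤ p ∧ r ≤ q := by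
    intro p q
    by_cases h : p ∈ G ∧ q ∈ G
    · obtain ⟨r, hr, h1, h2⟩ := hG p h.1 q h.2
      exact ⟨r, fun _ _ => ⟨hr, h1, h2⟩⟩
    · exact ⟨p, fun h1 h2 => absurd ⟨h1, h2⟩ h⟩
  choose c hc using hc0
  have hcar : #(Car.{u} (ℵ_ 1)) = ℵ_ 1 := by
    show #((ℵ_ 1 : Cardinal.{u}).ord.ToType) = ℵ_ 1
    exact mk_ord_toType _
  have hne : Nonempty (Car.{u} (ℵ_ 1)) := by
    rw [← mk_ne_zero_iff, hcar]
    exact (aleph_pos 1).ne'
  have h0 : #(Set.range s) ≤ ℵ_ 1 := mk_range_le.trans hcar.le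
  have hGn : ∀ n, directed_sub_chain c (Set.range s) n ⊆ G := by
    intro n
    induction n with
    | zero =>
      rintro _ ⟨i, rfl⟩
      exact hs i
    | succ n ih =>
      rw [directed_sub_chain]
      rintro x (hx | ⟨⟨p, q⟩, ⟨hp, hq⟩, rfl⟩)
      · exact ih hx
      · exact (hc p q (ih hp) (ih hq)).1
  refine ⟨⋃ n, directed_sub_chain c (Set.range s) n, Set.iUnion_subset hGn, ?_, ?_, ?_, ?_⟩
  · obtain ⟨i⟩ := hne
    exact ⟨s i, Set.mem_iUnion.2 ⟨0, ⟨i, rfl⟩⟩⟩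
  · intro i
    exact Set.mem_iUnion.2 ⟨0, ⟨i, rfl⟩⟩
  · intro x hx y hy
    obtain ⟨m, hm⟩ := Set.mem_iUnion.1 hx
    obtain ⟨n, hn⟩ := Set.mem_iUnion.1 hy
    have hm' := directed_sub_mono c (Set.range s) (le_max_left m n) hm
    have hn' := directed_sub_mono c (Set.range s) (le_max_right m n) hn
    refine ⟨c x y, Set.mem_iUnion.2 ⟨max m n + 1, ?_⟩, (hc x y (hGn _ hm) (hGn _ hn)).2⟩
    rw [directed_sub_chain]
    exact Or.inr ⟨(x, y), ⟨hm', hn'⟩, rfl⟩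
  · refine lt_of_le_of_lt (b := ℵ_ 1) ?_ (aleph_lt_aleph.2 (by norm_num))
    have h1 : #(⋃ n, directed_sub_chain c (Set.range s) n) ≤
        Cardinal.sum fun n : ULift.{u} ℕ => #(directed_sub_chain c (Set.range s) n.down) := by
      have e : (⋃ n, directed_sub_chain c (Set.range s) n) =
          ⋃ n : ULift.{u} ℕ, directed_sub_chain c (Set.range s) n.down := by
        ext x
        simp only [Set.mem_iUnion]
        exact ⟨fun ⟨n, hn⟩ => ⟨⟨n⟩, hn⟩, fun ⟨n, hn⟩ => ⟨n.down, hn⟩⟩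
      rw [e]
      exact mk_iUnion_le_sum_mk
    refine h1.trans ?_
    calc _ ≤ Cardinal.sum fun _ : ULift.{u} ℕ => (ℵ_ 1 : Cardinal.{u}) :=
          Cardinal.sum_le_sum _ _ fun n => directed_sub_card c _ h0 n.down
      _ = ℵ₀ * ℵ_ 1 := by rw [Cardinal.sum_const']; simp
      _ ≤ ℵ_ 1 * ℵ_ 1 := mul_le_mul' hinf le_rfl
      _ = ℵ_ 1 := mul_eq_self hinf

end

section

variable {R S : Type u} [Preorder R]

theorem thmD_lt : (ℵ₀ : Cardinal.{u}) < ℵ_ 2 := by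
  rw [← aleph_zero]
  exact aleph_lt_aleph.mpr (by norm_num)

theorem thmD_unc : ¬ (Set.univ : Set (Car.{u} (ℵ_ 1))).Countable := by
  intro h
  rw [countable_iff_lt_aleph_one] at h
  simp at h

theorem thmD_bdd (J : Set (Car.{u} (ℵ_ 1))) (hJ : J.Countable) : ∃ i, ∀ j ∈ J, j ≤ i := by
  by_contra hcon
  push Not at hcon
  apply thmD_unc
  have : (Set.univ : Set (Car.{u} (ℵ_ 1))) = ⋃ j ∈ J, Set.Iio j := by
    ext i
    obtain ⟨j, hj, hij⟩ := hcon i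
    simp only [Set.mem_univ, Set.mem_iUnion, true_iff]
    exact ⟨j, hj, hij⟩
  rw [this]
  refine hJ.biUnion fun j _ => ?_
  rw [countable_iff_lt_aleph_one]
  exact mk_Iio_toType_ord_lt j

theorem thmD_nonempty {I : Set S → Set R} {r0 : R} (hI : GIdeal (fun q p : R => q ≤ p) I r0) :
    Nonempty (EE R S I r0) := by
  refine ⟨⟨r0, fun _ => none, ∅, le_rfl, ?_, ?_, ?_, ?_, ?_⟩⟩
  · intro i j s h
    simp at h
  · simp
  · have : rng (fun _ : Car.{u} (ℵ_ 1) => (none : Option S)) = ∅ := by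
      ext s; simp [rng]
    rw [this]
    exact hI.fin r0 le_rfl ∅ Set.finite_empty
  · exact Set.countable_empty
  · intro X c h
    simp at h

theorem thmD_isProper (hσ : SigmaClosed R) {I : Set S → Set R} {r0 : R}
    (hI : GIdeal (fun q p : R => q ≤ p) I r0) : IsProper (EE R S I r0) := by
  obtain ⟨F, hF⟩ := total_proper hσ hI
  refine ⟨F, fun M hM hcl p hp => ?_⟩
  obtain ⟨q, hq, h⟩ := hF M hM hcl p hp
  refine ⟨q, hq, fun 𝒟 h𝒟 hd r hr => ?_⟩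
  obtain ⟨d, hd1, hd2, hd3⟩ := h 𝒟 h𝒟 hd
  exact ⟨d, hd1, hd2, r, le_rfl, hr.trans hd3⟩

/-- Theorem D -/
theorem thmD (hPFA : PFA.{u}) (hdc : DClosed R (ℵ_ 2)) {I : Set S → Set R} {r0 : R}
    (hI : GIdeal (fun q p : R => q ≤ p) I r0) (hND : ND (fun q p : R => q ≤ p) I r0) :
    ∃ r ≤ r0, ∃ A : Set S, ¬ A.Countable ∧ ∀ b ⊆ A, b.Countable → r ∈ I b := by
  have hσ : SigmaClosed R := sigmaClosed_of_dclosed thmD_lt hdc
  have : Nonempty (EE R S I r0) := thmD_nonempty hI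
  obtain ⟨G, hGne, hGup, hGdir, hGD⟩ := hPFA (EE R S I r0) (thmD_isProper hσ hI)
    (fun i => {p | ∀ j ≤ i, p.x j ≠ none}) (fun i => dense_init hσ hI hND i)
  choose s hsG hsD using hGD
  obtain ⟨Z, hZG, hZne, hsZ, hZdir, hZcard⟩ := directed_sub G hGdir s hsG
  obtain ⟨r, hr⟩ := hdc (EE.r '' Z) (hZne.image _) (by
    rintro _ ⟨x, hx, rfl⟩ _ ⟨y, hy, rfl⟩
    obtain ⟨z, hz, h1, h2⟩ := hZdir x hx y hy
    exact ⟨z.r, ⟨z, hz, rfl⟩, h1.1, h2.1⟩) (lt_of_le_of_lt mk_image_le hZcard)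
  have hr' : ∀ z ∈ Z, r ≤ z.r := fun z hz => hr _ ⟨z, hz, rfl⟩
  have hcomp : ∀ z ∈ G, ∀ z' ∈ G, ∀ j, z.x j ≠ none → z'.x j ≠ none → z.x j = z'.x j := by
    intro z hz z' hz' j hj hj'
    obtain ⟨w, hw, h1, h2⟩ := hGdir z hz z' hz'
    rw [← h1.2.1 j hj, ← h2.2.1 j hj']
  choose y hy using fun j => Option.ne_none_iff_exists'.mp (hsD j j le_rfl)
  have hinj : Function.Injective y := by
    intro j j' hjj
    obtain ⟨w, hw, h1, h2⟩ := hGdir (s j) (hsG j) (s j') (hsG j')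
    have e1 : w.x j = some (y j) := by rw [h1.2.1 j (hsD j j le_rfl), hy]
    have e2 : w.x j' = some (y j') := by rw [h2.2.1 j' (hsD j' j' le_rfl), hy]
    exact w.inj j j' (y j) e1 (by rw [e2, hjj])
  refine ⟨r, ?_, Set.range y, ?_, ?_⟩
  · obtain ⟨z, hz⟩ := hZne
    exact (hr' z hz).trans z.le
  · intro hc
    apply thmD_unc
    have := hc.to_subtype
    exact Set.countable_univ_iff.mpr (Equiv.ofInjective y hinj).injective.countable
  · intro b hbA hbc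
    have hJ : (y ⁻¹' b).Countable := hbc.preimage_of_injOn hinj.injOn
    obtain ⟨i, hi⟩ := thmD_bdd _ hJ
    have hsub : b ⊆ rng (s i).x := by
      intro t ht
      obtain ⟨j, rfl⟩ := hbA ht
      have hji : j ≤ i := hi j ht
      refine ⟨j, ?_⟩
      rw [hcomp (s i) (hsG i) (s j) (hsG j) j (hsD i j hji) (hsD j j le_rfl), hy]
    exact hI.sub r _ _ (hI.down _ _ (s i).mem r (hr' _ (hsZ i))) hsub

end

end Pool.Agent.H215_PID
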