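import Pool.Agent.H215_PID.ThmC
import Pool.Agent.H215_PID.ThmD

set_option autoImplicit false
set_option linter.unusedSectionVars false

universe u v w

namespace Pool.Agent.H215_PID

open Cardinal Ordinal Set Filter
open Pool.Agent.H215_MRP (Car IsMeasurable)

section

variable {c : ℕ → Cardinal.{u}} {W : ∀ n, Ultrafilter (Car (c n))}

theorem p1_sigmaDistr {A : Type u} {T : ℕ → Type u} [Preorder A] [∀ n, Preorder (T n)]
    (h : SigmaClosed (RC A T)) : SigmaDistr (P1 A T) := by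
  intro D p hd hdown
  have step : ∀ (n : ℕ) (r : {r : RC A T // leE ∅ r p.r}), ∃ r' : {r : RC A T // leE ∅ r p.r},
      r'.1 ≤ r.1 ∧ (P1.mk r'.1 : P1 A T) ∈ D n := by
    rintro n ⟨r, hr⟩
    obtain ⟨q, hq, hqD⟩ := hd n ⟨r⟩ hr
    obtain ⟨r', h1, h2, _⟩ := leE_proj (E := ∅) (r' := q.r) (r := r) hq
    exact ⟨⟨r', leE_trans h2 (leE_trans hq hr)⟩, h1, hdown n q hqD ⟨r'⟩ h2⟩
  choose nx hnx1 hnx2 using step
  let s : ℕ → {r : RC A T // leE ∅ r p.r} := fun n =>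
    Nat.rec ⟨p.r, leE_refl _ _⟩ (fun n r => nx n r) n
  have hs : ∀ n, s (n + 1) = nx n (s n) := fun n => rfl
  obtain ⟨w, hw⟩ := h (fun n => (s n).1) (fun n => by
    show (s (n + 1)).1 ≤ (s n).1
    rw [hs]
    exact hnx1 n (s n))
  refine ⟨⟨w⟩, RC.leE_of_le (hw 0), fun n => ?_⟩
  have h1 : (P1.mk (s (n + 1)).1 : P1 A T) ∈ D n := by
    rw [hs]
    exact hnx2 n (s n)
  exact hdown n _ h1 ⟨w⟩ (RC.leE_of_le (hw (n + 1)))

end

section

variable {c : ℕ → Cardinal.{u}} {W : ∀ n, Ultrafilter (Car (c n))}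

theorem p1_gpid {A : Type u} {T : ℕ → Type u} [Preorder A] [∀ n, Preorder (T n)] (hPFA : PFA.{u})
    (hA : SigmaClosed A) (hT : ∀ n, SigmaClosed (T n)) (hR : DClosed (RC A T) (ℵ_ 2)) : GPID (P1 A T) := by
  intro S I p hI hND
  let I' : Set S → Set (RC A T) := fun b => {r | (P1.mk r) ∈ I b}
  have hI1 : GIdeal (leE ∅) I' p.r :=
    { ctbl := fun r b h => hI.ctbl ⟨r⟩ b h
      down := fun r b h r' hr => hI.down ⟨r⟩ b h ⟨r'⟩ hr
      sub := fun r b c h hc => hI.sub ⟨r⟩ b c h hc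
      fin := fun r hr F hF => hI.fin ⟨r⟩ hr F hF
      union := fun r b c hb hc => hI.union ⟨r⟩ b c hb hc
      pid := by
        intro r hr b hb
        obtain ⟨r', h1, a, h2, h3⟩ := hI.pid ⟨r⟩ hr b hb
        exact ⟨r'.r, h1, a, h2, h3⟩ }
  have hND1 : ND (leE ∅) I' p.r := by
    intro C hC q hq h
    obtain ⟨q', h1, n, b, h2, h3, h4⟩ := hND (fun x n => {q : P1 A T | q.r ∈ C x n})
      (fun x n r hr r' hle => hC x n r.r hr r'.r hle) ⟨q⟩ hq (by
        intro x q' hq'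
        obtain ⟨q'', h1, n, h2⟩ := h x q'.r hq'
        exact ⟨⟨q''⟩, h1, n, h2⟩)
    exact ⟨q'.r, h1, n, b, h2, h3, h4⟩
  have hND2 := thmC hA hT hI1 hND1
  have hI2 : GIdeal (fun r' r : RC A T => r' ≤ r) I' p.r :=
    { ctbl := hI1.ctbl
      down := fun r b h r' hr => hI1.down r b h r' (RC.leE_of_le hr)
      sub := hI1.sub
      fin := fun r hr F hF => hI1.fin r (RC.leE_of_le hr) F hF
      union := hI1.union
      pid := by
        intro r hr b hb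
        obtain ⟨r', h1, a, h2, h3⟩ := hI1.pid r (RC.leE_of_le hr) b hb
        obtain ⟨r'', h4, h5, _⟩ := leE_proj h1
        exact ⟨r'', h4, a, hI1.down r' a h2 r'' h5, h3⟩ }
  obtain ⟨r, hr, Z, hZ, hb⟩ := thmD hPFA hR hI2 hND2
  exact ⟨⟨r⟩, RC.leE_of_le hr, Z, hZ, hb⟩

end

end Pool.Agent.H215_PID
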