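import Pool.Agent.H215_PID.Gen

set_option autoImplicit false
set_option linter.unusedSectionVars false

universe u v w

namespace Pool.Agent.H215_PID

open Cardinal Ordinal Set Filter
open Pool.Agent.H215_MRP (Car IsMeasurable)

section

theorem proper_of_ccc_aux {P : Type u} [Preorder P]
    (hP : ∀ Z : Set P, (∀ x ∈ Z, ∀ y ∈ Z, x ≠ y → ¬ ∃ z, z ≤ x ∧ z ≤ y) → Z.Countable)
    (D : Set P) : ∃ e : ℕ → P ⊕ Set P, DenseSet D → ∀ r : P, ∃ n a, e n = Sum.inl a ∧ a ∈ D ∧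
      ∃ t, t ≤ r ∧ t ≤ a := by
  by_cases hD : DenseSet D ∧ Nonempty P
  · obtain ⟨hD, ⟨p0⟩⟩ := hD
    obtain ⟨A, hA⟩ := zorn_subset
      {A : Set P | A ⊆ D ∧ ∀ x ∈ A, ∀ y ∈ A, x ≠ y → ¬ ∃ z, z ≤ x ∧ z ≤ y} (by
        intro c hc hchain
        refine ⟨⋃₀ c, ⟨?_, ?_⟩, fun s hs => Set.subset_sUnion_of_mem hs⟩
        · exact Set.sUnion_subset fun s hs => (hc hs).1
        · rintro x ⟨s, hs, hx⟩ y ⟨t, ht, hy⟩ hxy
          rcases hchain.total hs ht with h | h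
          · exact (hc ht).2 x (h hx) y hy hxy
          · exact (hc hs).2 x hx y (h hy) hxy)
    have hkey : ∀ r : P, ∃ a ∈ A, ∃ t, t ≤ r ∧ t ≤ a := by
      intro r
      obtain ⟨d, hdD, hdr⟩ := hD r
      by_contra hcon
      push Not at hcon
      have hno : ∀ a ∈ A, ¬ ∃ z, z ≤ d ∧ z ≤ a := by
        rintro a ha ⟨z, hz1, hz2⟩
        exact hcon a ha z (hz1.trans hdr) hz2
      have hins : insert d A ∈
          {A : Set P | A ⊆ D ∧ ∀ x ∈ A, ∀ y ∈ A, x ≠ y → ¬ ∃ z, z ≤ x ∧ z ≤ y} := by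
        refine ⟨Set.insert_subset hdD hA.prop.1, ?_⟩
        rintro x (rfl | hx) y (rfl | hy) hxy
        · exact absurd rfl hxy
        · exact hno y hy
        · rintro ⟨z, hz1, hz2⟩
          exact hno x hx ⟨z, hz2, hz1⟩
        · exact hA.prop.2 x hx y hy hxy
      have hdA : d ∈ A := hA.le_of_ge hins (Set.subset_insert d A) (Set.mem_insert d A)
      exact hno d hdA ⟨d, le_refl d, le_refl d⟩
    obtain ⟨a0, ha0, -⟩ := hkey p0
    obtain ⟨f, hf⟩ := (hP A hA.prop.2).exists_eq_range ⟨a0, ha0⟩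
    refine ⟨fun n => Sum.inl (f n), fun _ r => ?_⟩
    obtain ⟨a, ha, t, ht1, ht2⟩ := hkey r
    have ha' := ha
    rw [hf] at ha'
    obtain ⟨n, rfl⟩ := ha'
    exact ⟨n, f n, rfl, hA.prop.1 ha, t, ht1, ht2⟩
  · refine ⟨fun _ => Sum.inr ∅, fun h r => ?_⟩
    exact absurd ⟨h, ⟨r⟩⟩ hD

theorem proper_of_ccc {P : Type u} [Preorder P]
    (hP : ∀ Z : Set P, (∀ x ∈ Z, ∀ y ∈ Z, x ≠ y → ¬ ∃ z, z ≤ x ∧ z ≤ y) → Z.Countable) : IsProper P := by
  classical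
  choose e he using proper_of_ccc_aux hP
  refine ⟨fun n l => match l with
    | [Sum.inr D] => e D n
    | _ => Sum.inr ∅, ?_⟩
  intro M _ hM p _
  refine ⟨p, le_refl p, ?_⟩
  intro D hDM hD r _
  obtain ⟨n, a, hna, haD, t, ht1, ht2⟩ := he D hD r
  refine ⟨a, haD, ?_, t, ht1, ht2⟩
  have h := hM n [Sum.inr D] (by
    intro x hx
    rw [List.mem_singleton] at hx
    rw [hx]
    exact hDM)
  have h2 : e D n ∈ M := h
  rw [hna] at h2
  exact h2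

end

section

/-- The poset for `pi_of_pfa`: finite part `s` of the pseudo-intersection and finite set `F` of promises. -/
structure pi_of_pfa_P {ι : Type u} (B : ι → Set ℕ) : Type u where
  /-- finite part -/
  s : Finset ℕ
  /-- promises -/
  F : Finset ι

instance pi_of_pfa_preorder {ι : Type u} (B : ι → Set ℕ) : Preorder (pi_of_pfa_P B) where
  le x y := y.s ⊆ x.s ∧ y.F ⊆ x.F ∧ ∀ n ∈ x.s, n ∉ y.s → ∀ i ∈ y.F, n ∈ B i
  le_refl x := ⟨Finset.Subset.refl _, Finset.Subset.refl _, fun n h1 h2 => absurd h1 h2⟩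
  le_trans x y z hxy hyz := by
    obtain ⟨a1, a2, a3⟩ := hxy
    obtain ⟨b1, b2, b3⟩ := hyz
    refine ⟨b1.trans a1, b2.trans a2, ?_⟩
    intro n hn hnz i hi
    by_cases hny : n ∈ y.s
    · exact b3 n hny hnz i hi
    · exact a3 n hn hny i (b2 hi)

theorem pi_of_pfa_le_iff {ι : Type u} {B : ι → Set ℕ} (x y : pi_of_pfa_P B) :
    x ≤ y ↔ y.s ⊆ x.s ∧ y.F ⊆ x.F ∧ ∀ n ∈ x.s, n ∉ y.s → ∀ i ∈ y.F, n ∈ B i := Iff.rfl

theorem pi_of_pfa_proper {ι : Type u} (B : ι → Set ℕ) : IsProper (pi_of_pfa_P B) := by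
  classical
  apply proper_of_ccc
  intro Z hZ
  have hmaps : Set.MapsTo (fun x : pi_of_pfa_P B => x.s) Z Set.univ := fun _ _ => Set.mem_univ _
  refine hmaps.countable_of_injOn ?_ (Set.countable_univ)
  intro x hx y hy hxy
  by_contra hne
  apply hZ x hx y hy hne
  simp only at hxy
  refine ⟨⟨x.s, x.F ∪ y.F⟩, ?_, ?_⟩
  · rw [pi_of_pfa_le_iff]
    exact ⟨Finset.Subset.refl _, Finset.subset_union_left, fun n h1 h2 => absurd h1 h2⟩
  · rw [pi_of_pfa_le_iff]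
    refine ⟨?_, Finset.subset_union_right, ?_⟩
    · rw [← hxy]
    · intro n h1 h2
      rw [← hxy] at h2
      exact absurd h1 h2

theorem pi_of_pfa_directed {ι : Type u} (B : ι → Set ℕ) [Nonempty ι]
    (hdir : ∀ i j, ∃ k, (B k \ B i).Finite ∧ (B k \ B j).Finite) (F : Finset ι) :
    ∃ k, ∀ i ∈ F, (B k \ B i).Finite := by
  classical
  induction F using Finset.induction_on with
  | empty => exact ⟨Classical.arbitrary ι, by simp⟩
  | insert i F _ ih =>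
    obtain ⟨k0, hk0⟩ := ih
    obtain ⟨k, hk1, hk2⟩ := hdir i k0
    refine ⟨k, ?_⟩
    intro j hj
    rcases Finset.mem_insert.mp hj with rfl | hj
    · exact hk1
    · refine (hk2.union (hk0 j hj)).subset ?_
      rintro n ⟨hn1, hn2⟩
      by_cases h : n ∈ B k0
      · exact Or.inr ⟨h, hn2⟩
      · exact Or.inl ⟨hn1, h⟩

theorem pi_of_pfa_exists_gt {ι : Type u} (B : ι → Set ℕ) [Nonempty ι]
    (hinf : ∀ i, (B i).Infinite)
    (hdir : ∀ i j, ∃ k, (B k \ B i).Finite ∧ (B k \ B j).Finite) (F : Finset ι) (m : ℕ) :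
    ∃ n, m < n ∧ ∀ i ∈ F, n ∈ B i := by
  classical
  obtain ⟨k, hk⟩ := pi_of_pfa_directed B hdir F
  have hfin : (⋃ i ∈ F, (B k \ B i)).Finite := Set.Finite.biUnion F.finite_toSet hk
  obtain ⟨n, hn, hmn⟩ := ((hinf k).sdiff hfin).exists_gt m
  refine ⟨n, hmn, ?_⟩
  intro i hi
  by_contra hni
  apply hn.2
  exact Set.mem_biUnion hi ⟨hn.1, hni⟩

theorem pi_of_pfa_surj {ι : Type u} (hι : #ι < ℵ_ 2) :
    ∃ e : Car.{u} (ℵ_ 1) → ι ⊕ ULift.{u} ℕ, Function.Surjective e := by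
  have h1 : #ι ≤ ℵ_ 1 := by
    have h2 : (ℵ_ 2 : Cardinal.{u}) = Order.succ (ℵ_ 1) := by
      rw [← Cardinal.aleph_succ]
      congr 1
      exact (Ordinal.succ_one).symm
    rw [h2] at hι
    exact Order.lt_succ_iff.mp hι
  have h3 : #(ι ⊕ ULift.{u} ℕ) ≤ #(Car.{u} (ℵ_ 1)) := by
    rw [Cardinal.mk_sum, Cardinal.mk_ord_toType]
    simp only [Cardinal.lift_id]
    have h4 : #(ULift.{u} ℕ) ≤ ℵ_ 1 := by
      simpa using Cardinal.aleph0_le_aleph 1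
    calc #ι + #(ULift.{u} ℕ) ≤ ℵ_ 1 + ℵ_ 1 := add_le_add h1 h4
      _ = ℵ_ 1 := Cardinal.add_eq_self (Cardinal.aleph0_le_aleph 1)
  obtain ⟨f⟩ := h3
  haveI : Nonempty (ι ⊕ ULift.{u} ℕ) := ⟨Sum.inr ⟨0⟩⟩
  exact ⟨Function.invFun f, Function.invFun_surjective f.injective⟩

theorem pi_of_pfa (h : PFA.{u}) : PI.{u} := by
  classical
  intro ι B hι hne hinf hdir
  obtain ⟨e, he⟩ := pi_of_pfa_surj hι
  haveI : Nonempty (pi_of_pfa_P B) := ⟨⟨∅, ∅⟩⟩
  let 𝒟 : Car.{u} (ℵ_ 1) → Set (pi_of_pfa_P B) := fun c =>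
    Sum.elim (fun i : ι => {p : pi_of_pfa_P B | i ∈ p.F})
      (fun k : ULift.{u} ℕ => {p : pi_of_pfa_P B | ∃ n ∈ p.s, k.down < n}) (e c)
  have hdense : ∀ c, DenseSet (𝒟 c) := by
    intro c p
    rcases hc : e c with i | k
    · refine ⟨⟨p.s, insert i p.F⟩, ?_, ?_⟩
      · change _ ∈ Sum.elim _ _ (e c)
        rw [hc]
        simp
      · rw [pi_of_pfa_le_iff]
        exact ⟨Finset.Subset.refl _, Finset.subset_insert _ _, fun n h1 h2 => absurd h1 h2⟩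
    · obtain ⟨n, hn1, hn2⟩ := pi_of_pfa_exists_gt B hinf hdir p.F k.down
      refine ⟨⟨insert n p.s, p.F⟩, ?_, ?_⟩
      · change _ ∈ Sum.elim _ _ (e c)
        rw [hc]
        exact ⟨n, Finset.mem_insert_self _ _, hn1⟩
      · rw [pi_of_pfa_le_iff]
        refine ⟨Finset.subset_insert _ _, Finset.Subset.refl _, ?_⟩
        intro m hm hmp i hi
        rcases Finset.mem_insert.mp hm with rfl | hm
        · exact hn2 i hi
        · exact absurd hm hmp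
  obtain ⟨G, hG1, hG2, hG3, hG4⟩ := h (pi_of_pfa_P B) (pi_of_pfa_proper B) 𝒟 hdense
  refine ⟨{n | ∃ p ∈ G, n ∈ p.s}, ?_, ?_⟩
  · apply Set.infinite_of_not_bddAbove
    rintro ⟨b, hb⟩
    obtain ⟨c, hc⟩ := he (Sum.inr ⟨b⟩)
    obtain ⟨p, hpG, hpD⟩ := hG4 c
    change _ ∈ Sum.elim _ _ (e c) at hpD
    rw [hc] at hpD
    obtain ⟨n, hn, hbn⟩ := hpD
    have := hb ⟨p, hpG, hn⟩
    simp only at hbn
    omega
  · intro i
    obtain ⟨c, hc⟩ := he (Sum.inl i)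
    obtain ⟨p, hpG, hpD⟩ := hG4 c
    change _ ∈ Sum.elim _ _ (e c) at hpD
    rw [hc] at hpD
    have hip : i ∈ p.F := hpD
    refine p.s.finite_toSet.subset ?_
    rintro n ⟨⟨p2, hp2, hn2⟩, hni⟩
    by_contra hnp
    obtain ⟨r, _, hr1, hr2⟩ := hG3 p hpG p2 hp2
    rw [pi_of_pfa_le_iff] at hr1 hr2
    exact hni (hr1.2.2 n (hr2.1 hn2) (by simpa using hnp) i hip)

end

end Pool.Agent.H215_PID
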