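import Pool.Agent.H215_PID.Ultra
import Pool.Agent.H215_PID.Proj
import Pool.Agent.H215_PID.Real
import Pool.Agent.H215_PID.Names

set_option autoImplicit false
set_option linter.unusedSectionVars false

universe u v w

namespace Pool.Agent.H215_PID

open Cardinal Ordinal Set Filter
open Pool.Agent.H215_MRP (Car IsMeasurable)

section

variable {c : ℕ → Cardinal.{u}} {W : ∀ n, Ultrafilter (Car (c n))}

theorem pp_pid (hPFA : PFA.{u}) (h : Setup c W) (p : PP c W) : p ∈ fPID (PP c W) :=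
  fpid_of_gpid (p1_sigmaDistr (rc_sigmaClosed (aa_sigma h) (tt_sigma h)))
    (p1_gpid hPFA (aa_sigma h) (tt_sigma h) (rr_dclosed h (pi_of_pfa hPFA))) p

end

section

theorem main_mu_pos (c : ℕ → Cardinal.{u}) (n : ℕ) : 0 < mu c n := by
  cases n with
  | zero => exact Cardinal.aleph_pos 2
  | succ n => exact lt_of_le_of_lt zero_le (Order.lt_succ _)

/-- the empty Cohen condition -/
def main_fn (X : Type u) (μ : Cardinal.{u}) (h : 0 < μ) : Fn X μ :=
  ⟨fun _ => none, by simpa using h⟩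

theorem main_nonempty (c : ℕ → Cardinal.{u}) (W : ∀ n, Ultrafilter (Car (c n))) :
    Nonempty (PP c W) :=
  ⟨⟨⟨Set.univ, Set.infinite_univ, fun n => main_fn _ _ (main_mu_pos c n),
    fun n => ⟨fun _ => main_fn _ _ (main_mu_pos c n), fun _ => Filter.Eventually.of_forall fun _ => rfl⟩⟩⟩⟩

/-- The main theorem. -/
theorem main (hPFA : PFA.{u}) (h : ∃ c : ℕ → Cardinal.{u}, StrictMono c ∧ ∀ n, IsMeasurable (c n)) :
    ∃ (P : Type u) (_ : Preorder P), Nonempty P ∧ (∀ p : P, p ∈ fPID P) ∧ ∀ p : P, p ∈ fnot (fStar P) := by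
  obtain ⟨c, W, hs⟩ := exists_setup h
  exact ⟨PP c W, inferInstance, main_nonempty c W, fun p => pp_pid hPFA hs p,
    fun p => pp_not_star hs p⟩

end

end Pool.Agent.H215_PID
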