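import Pool.Agent.H215_PID.Card

set_option autoImplicit false
set_option linter.unusedSectionVars false

universe u v w

namespace Pool.Agent.H215_PID

open Cardinal Ordinal Set Filter
open Pool.Agent.H215_MRP (Car IsMeasurable)

section

variable {c : ℕ → Cardinal.{u}} {W : ∀ n, Ultrafilter (Car (c n))}

theorem graft_mono {m : ℕ} {s' s : Sm c m} {t' t : Tm c W m} (hs : s' ≤ s) (ht : t' ≤ t) :
    leE ∅ (graft s' t') (graft s t) := by
  refine ⟨hs.1, ?_, fun n hn => absurd hn (Set.notMem_empty n), ?_⟩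
  · intro k
    by_cases hk : k ≤ m
    · have h1 : (graft s' t').a k = s'.a ⟨k, hk⟩ := by
        simp only [graft, dif_pos hk]
      have h2 : (graft s t).a k = s.a ⟨k, hk⟩ := by
        simp only [graft, dif_pos hk]
      rw [h1, h2]
      exact hs.2 ⟨k, hk⟩
    · have h1 : (graft s' t').a k = t'.a k := by
        simp only [graft, dif_neg hk]
      have h2 : (graft s t).a k = t.a k := by
        simp only [graft, dif_neg hk]
      rw [h1, h2]
      exact (ht k (not_le.mp hk)).1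
  · refine (Set.finite_le_nat m).subset ?_
    intro n hn
    by_contra hnm
    exact hn.2 (ht n (not_le.mp hnm)).2

end

section

variable {c : ℕ → Cardinal.{u}} {W : ∀ n, Ultrafilter (Car (c n))}

theorem graft_split {m : ℕ} {s : Sm c m} {t : Tm c W m} {q : RR c W} (hq : leE ∅ q (graft s t)) :
    ∃ s' ≤ s, ∃ t' ≤ t, leE ∅ (graft s' t') q := by
  classical
  obtain ⟨h1, h2, -, h4⟩ := hq
  refine ⟨⟨q.B, q.inf, fun k => q.a k⟩, ⟨h1, fun k => ?_⟩,
    ⟨q.a, fun k => if q.f k ≤ t.f k then q.f k else t.f k⟩, fun k hk => ⟨?_, ?_⟩, ?_, ?_, ?_, ?_⟩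
  · have h5 := h2 k
    have h6 : (graft s t).a k = s.a k := by
      unfold graft
      dsimp only
      rw [dif_pos k.2]
    rw [h6] at h5
    exact h5
  · have h5 := h2 k
    have h6 : (graft s t).a k = t.a k := by
      unfold graft
      dsimp only
      rw [dif_neg (by omega)]
    rw [h6] at h5
    exact h5
  · dsimp only
    split_ifs with h
    · exact h
    · exact le_rfl
  · simp [graft]
  · intro k
    unfold graft
    dsimp only
    split_ifs <;> exact le_rfl
  · intro k hk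
    exact absurd hk (Set.notMem_empty k)
  · refine h4.subset ?_
    rintro k ⟨hk1, hk2⟩
    refine ⟨hk1, fun hk3 => hk2 ?_⟩
    have hk4 : q.f k ≤ t.f k := hk3
    change (if q.f k ≤ t.f k then q.f k else t.f k) ≤ q.f k
    rw [if_pos hk4]

end

section

variable {c : ℕ → Cardinal.{u}} {W : ∀ n, Ultrafilter (Car (c n))}

theorem graft_le_left {m : ℕ} {s' s : Sm c m} {t' t : Tm c W m} (h : leE ∅ (graft s' t') (graft s t)) :
    s' ≤ s := by
  refine ⟨h.1, ?_⟩
  intro k
  have h1 := h.2.1 (k : ℕ)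
  unfold graft at h1
  simp only [dif_pos k.2] at h1
  exact h1

end

section

variable {c : ℕ → Cardinal.{u}} {W : ∀ n, Ultrafilter (Car (c n))}

theorem graft_surj {m : ℕ} (r : RR c W) : ∃ (s : Sm c m) (t : Tm c W m), graft s t = r := by
  obtain ⟨B, hB, a, f⟩ := r
  refine ⟨⟨B, hB, fun k => a k⟩, ⟨a, f⟩, ?_⟩
  have h : (fun k => if _ : k ≤ m then a k else a k) = a := by
    funext k
    by_cases hk : k ≤ m
    · rw [dif_pos hk]
    · rw [dif_neg hk]
  simp only [graft]
  congr 1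

end

section

variable {c : ℕ → Cardinal.{u}} {W : ∀ n, Ultrafilter (Car (c n))}

theorem sm_card_fn (h : Setup c W) (k : ℕ) : #(Fn (XX c k) (mu c k)) ≤ 2 ^ c k := by
  have hc : ℵ₀ ≤ c k := (h.unc k).le
  have h1 : #(XX c k) ≤ c k := by
    rw [mk_prod, Cardinal.lift_id, Cardinal.lift_id, mk_ord_toType, mk_ord_toType]
    exact mul_le_of_le hc le_rfl (mu_lt h k).le
  have h2 : #(Fn (XX c k) (mu c k)) ≤ #(XX c k → Option Bool) := mk_subtype_le _
  refine h2.trans ?_
  rw [mk_pi, prod_const]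
  have h3 : Cardinal.lift.{u} #(Option Bool) = 3 := by
    rw [mk_fintype]
    simp
  rw [h3, Cardinal.lift_uzero]
  have h4 : (3 : Cardinal.{u}) ^ #(XX c k) ≤ 3 ^ c k := power_le_power_left (by norm_num) h1
  refine h4.trans (le_of_eq ?_)
  refine power_eq_two_power hc (by exact_mod_cast (by norm_num : (2 : ℕ) ≤ 3)) ?_
  refine le_trans ?_ hc
  exact_mod_cast (natCast_le_aleph0 (n := 3))

/-- a finite product -/
theorem sm_card_pi (h : Setup c W) (m : ℕ) :
    #(∀ k : {k : ℕ // k ≤ m}, Fn (XX c k) (mu c k)) ≤ 2 ^ c m := by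
  have hc : ℵ₀ ≤ c m := (h.unc m).le
  have hc2 : ℵ₀ ≤ 2 ^ c m := hc.trans (cantor (c m)).le
  rw [mk_pi]
  have h1 : (prod fun k : {k : ℕ // k ≤ m} => #(Fn (XX c k) (mu c k))) ≤
      prod fun _ : {k : ℕ // k ≤ m} => (2 ^ c m : Cardinal.{u}) := by
    refine prod_le_prod _ _ fun k => ?_
    refine (sm_card_fn h k).trans ?_
    exact power_le_power_left (by norm_num) (h.mono.monotone k.2)
  refine h1.trans ?_
  rw [prod_const]
  have : Finite {k : ℕ // k ≤ m} := Set.finite_Iic m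
  have := Fintype.ofFinite {k : ℕ // k ≤ m}
  rw [mk_fintype, Cardinal.lift_natCast, Cardinal.lift_uzero, power_natCast]
  exact power_nat_le hc2

theorem sm_card (h : Setup c W) (m : ℕ) : #(Sm c m) ≤ 2 ^ c m := by
  have hc : ℵ₀ ≤ c m := (h.unc m).le
  have hc2 : ℵ₀ ≤ 2 ^ c m := hc.trans (cantor (c m)).le
  let F : Sm c m → ULift.{u} (Set ℕ) × (∀ k : {k : ℕ // k ≤ m}, Fn (XX c k) (mu c k)) :=
    fun s => (⟨s.B⟩, s.a)
  have hF : Function.Injective F := by
    intro s t hst
    have h1 : s.B = t.B := congrArg (fun x => x.1.down) hst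
    have h2 : s.a = t.a := congrArg (fun x => x.2) hst
    cases s
    cases t
    simp only at h1 h2
    subst h1
    subst h2
    rfl
  refine (mk_le_of_injective hF).trans ?_
  rw [mk_prod, Cardinal.lift_id, Cardinal.lift_id]
  refine mul_le_of_le hc2 ?_ (sm_card_pi h m)
  rw [mk_uLift, mk_set, Cardinal.lift_power, Cardinal.lift_two, mk_nat, Cardinal.lift_aleph0]
  exact power_le_power_left (by norm_num) hc

end

section

variable {c : ℕ → Cardinal.{u}} {W : ∀ n, Ultrafilter (Car (c n))}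

theorem tm_distr (h : Setup c W) (m : ℕ) : Distr (Tm c W m) (2 ^ c m) := by
  have hreg := mu_regular h (m + 1)
  refine distr_of_dclosed (μ := mu c (m + 1)) hreg.aleph0_le ?_ (Order.lt_succ (2 ^ c m))
  intro Z hne hdir hcard
  obtain ⟨z0, hz0⟩ := hne
  have ha : ∀ k, ∃ y : Fn (XX c k) (mu c k), m < k → ∀ z ∈ Z, y ≤ z.a k := by
    intro k
    by_cases hk : m < k
    · have h1 : #((fun z : Tm c W m => z.a k) '' Z) < mu c k :=
        (Cardinal.mk_image_le.trans_lt hcard).trans_le (mu_succ_le h hk)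
      obtain ⟨y, hy⟩ := fn_dclosed (X := XX c k) (mu_regular h k) ((fun z : Tm c W m => z.a k) '' Z)
        ⟨_, z0, hz0, rfl⟩ (by
          rintro _ ⟨x, hx, rfl⟩ _ ⟨y, hy, rfl⟩
          obtain ⟨z, hz, hzx, hzy⟩ := hdir x hx y hy
          exact ⟨_, ⟨z, hz, rfl⟩, (hzx k hk).1, (hzy k hk).1⟩) h1
      exact ⟨y, fun _ z hz => hy _ ⟨z, hz, rfl⟩⟩
    · exact ⟨z0.a k, fun h' => absurd h' hk⟩
  have hf : ∀ k, ∃ y : TT c W k, m < k → ∀ z ∈ Z, y ≤ z.f k := by
    intro k
    by_cases hk : m < k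
    · have h1 : #((fun z : Tm c W m => z.f k) '' Z) < mu c k :=
        (Cardinal.mk_image_le.trans_lt hcard).trans_le (mu_succ_le h hk)
      obtain ⟨y, hy⟩ := tl_dclosed (X := XX c k) (W := W k) (mu_regular h k) (h.compl k) (mu_lt h k)
        ((fun z : Tm c W m => z.f k) '' Z)
        ⟨_, z0, hz0, rfl⟩ (by
          rintro _ ⟨x, hx, rfl⟩ _ ⟨y, hy, rfl⟩
          obtain ⟨z, hz, hzx, hzy⟩ := hdir x hx y hy
          exact ⟨_, ⟨z, hz, rfl⟩, (hzx k hk).2, (hzy k hk).2⟩) h1
      exact ⟨y, fun _ z hz => hy _ ⟨z, hz, rfl⟩⟩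
    · exact ⟨z0.f k, fun h' => absurd h' hk⟩
  choose a ha using ha
  choose f hf using hf
  exact ⟨⟨a, f⟩, fun z hz k hk => ⟨ha k hk z hz, hf k hk z hz⟩⟩

end

section

variable {c : ℕ → Cardinal.{u}} {W : ∀ n, Ultrafilter (Car (c n))}

theorem pp_decomp (h : Setup c W) (m : ℕ) : Decomp (PP c W) (2 ^ c m) := by
  refine ⟨Sm c m, Tm c W m, inferInstance, inferInstance, fun s t => P1.mk (graft s t), sm_card h m,
    tm_distr h m, fun s' s t' t hs ht => graft_mono hs ht, fun s t q hq => ?_,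
    fun s' s t' t hg => graft_le_left hg, fun q => ?_⟩
  · obtain ⟨s', hs', t', ht', hle⟩ := graft_split (q := q.r) hq
    exact ⟨s', t', hs', ht', hle⟩
  · obtain ⟨s, t, hst⟩ := graft_surj (m := m) q.r
    refine ⟨s, t, ?_⟩
    change leE ∅ (graft s t) q.r
    rw [hst]
    exact leE_refl _ _

end

end Pool.Agent.H215_PID
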