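import Pool.Agent.H215_PID.Gen

set_option autoImplicit false
set_option linter.unusedSectionVars false

universe u v w

namespace Pool.Agent.H215_PID

open Cardinal Ordinal Set Filter
open Pool.Agent.H215_MRP (Car IsMeasurable)

section

variable {P : Type u} [Preorder P]

theorem bounding {θ : Cardinal.{u}} (hθ : ℵ₀ ≤ θ) (hP : Decomp P θ) {N K : Type u} (hN : #N ≤ θ)
    (Φ : N → K → Set P) (hΦ : ∀ i ξ, Down (Φ i ξ)) (p : P)
    (hex : ∀ i ξ ξ' q, q ≤ p → q ∈ Φ i ξ → q ∈ Φ i ξ' → ξ = ξ') :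
    ∃ q, q ≤ p ∧ ∃ Z : Set K, #Z ≤ θ ∧ ∀ i ξ r, r ≤ q → r ∈ Φ i ξ → ξ ∈ Z := by
  classical
  obtain ⟨S, T, _, _, g, hS, hT, hmono, hsplit, _, hdense⟩ := hP
  obtain ⟨Psi, hPsi⟩ : ∃ Psi : N × S → Set T, Psi = fun a => {t : T |
      (∃ s', s' ≤ a.2 ∧ ∃ ξ, g s' t ∈ Φ a.1 ξ) ∨
      (∀ s', s' ≤ a.2 → ∀ t', t' ≤ t → ∀ ξ, g s' t' ∉ Φ a.1 ξ)} := ⟨_, rfl⟩
  have hcard : #(N × S) ≤ θ := by
    rw [Cardinal.mk_prod, Cardinal.lift_id, Cardinal.lift_id]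
    exact (mul_le_mul' hN hS).trans (Cardinal.mul_eq_self hθ).le
  obtain ⟨s0, t0, h0⟩ := hdense p
  obtain ⟨t1, ht1, hall⟩ := hT (N × S) hcard Psi t0 (by
    intro a t _
    by_cases h : ∃ s', s' ≤ a.2 ∧ ∃ t', t' ≤ t ∧ ∃ ξ, g s' t' ∈ Φ a.1 ξ
    · obtain ⟨s', hs', t', ht', ξ, hξ⟩ := h
      refine ⟨t', ht', ?_⟩
      rw [hPsi]
      exact Or.inl ⟨s', hs', ξ, hξ⟩
    · refine ⟨t, le_rfl, ?_⟩
      rw [hPsi]
      refine Or.inr fun s' hs' t' ht' ξ hξ => h ⟨s', hs', t', ht', ξ, hξ⟩) (by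
    intro a t ht t' ht'
    rw [hPsi] at ht ⊢
    rcases ht with ⟨s', hs', ξ, hξ⟩ | ht
    · exact Or.inl ⟨s', hs', ξ, hΦ _ _ _ hξ _ (hmono _ _ _ _ le_rfl ht')⟩
    · exact Or.inr fun s' hs' t'' ht'' ξ => ht s' hs' t'' (ht''.trans ht') ξ)
  have hq : g s0 t1 ≤ p := (hmono _ _ _ _ le_rfl ht1).trans h0
  obtain ⟨F, hF⟩ : ∃ F : N × S → Option K, ∀ a, (∃ s', s' ≤ a.2 ∧ ∃ ξ, g s' t1 ∈ Φ a.1 ξ) →
      ∃ s', s' ≤ a.2 ∧ ∃ ξ, F a = some ξ ∧ g s' t1 ∈ Φ a.1 ξ := by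
    refine ⟨fun a => if h : ∃ s', s' ≤ a.2 ∧ ∃ ξ, g s' t1 ∈ Φ a.1 ξ then
      some h.choose_spec.2.choose else none, fun a h => ?_⟩
    refine ⟨h.choose, h.choose_spec.1, h.choose_spec.2.choose, ?_, h.choose_spec.2.choose_spec⟩
    simp only [dif_pos h]
  refine ⟨g s0 t1, hq, {ξ | ∃ a, F a = some ξ}, ?_, ?_⟩
  · have h1 : #{ξ : K | ∃ a, F a = some ξ} ≤ #(N × S) := by
      refine Cardinal.mk_le_of_injective (f := fun ξ : {ξ : K | ∃ a, F a = some ξ} =>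
        ξ.2.choose) ?_
      intro ξ ξ' h
      have e1 := ξ.2.choose_spec
      have e2 := ξ'.2.choose_spec
      have h' : ξ.2.choose = ξ'.2.choose := h
      rw [h', e2] at e1
      exact Subtype.ext (Option.some.inj e1).symm
    exact h1.trans hcard
  · intro i ξ r hr hrξ
    obtain ⟨s', t', hs', ht', hle⟩ := hsplit s0 t1 r hr
    have hm : g s' t' ∈ Φ i ξ := hΦ _ _ _ hrξ _ hle
    have hψ := hall (i, s')
    rw [hPsi] at hψ
    rcases hψ with hψ | hψ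
    · obtain ⟨s'', hs'', ξ', hξ', hmem⟩ := hF (i, s') hψ
      have m1 : g s'' t' ∈ Φ i ξ' := hΦ _ _ _ hmem _ (hmono _ _ _ _ le_rfl ht')
      have m2 : g s'' t' ∈ Φ i ξ := hΦ _ _ _ hm _ (hmono _ _ _ _ hs'' le_rfl)
      have hle2 : g s'' t' ≤ p := (hmono _ _ _ _ (hs''.trans hs') ht').trans hq
      have := hex i ξ ξ' _ hle2 m2 m1
      rw [this]
      exact ⟨(i, s'), hξ'⟩
    · exact absurd hm (hψ s' le_rfl t' ht' ξ)

end

section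

variable {P : Type u} [Preorder P]

theorem nice_names {θ : Cardinal.{u}} (hθ : ℵ₀ ≤ θ) (hP : Decomp P θ) {G : Type u} (hG : #G ≤ θ) :
    ∃ (N : Type u) (nm : N → G → Set P), #N ≤ 2 ^ θ ∧ ∀ (X : G → Set P) (p : P), ∃ q, q ≤ p ∧ ∃ ν, q ∈ feq X (nm ν) := by
  obtain ⟨S, T, iS, iT, g, hS, hT, hmono, hsplit, hfst, hdense⟩ := hP
  have hGS : #(G × S) ≤ θ := by
    rw [Cardinal.mk_prod, Cardinal.lift_id, Cardinal.lift_id]
    exact Cardinal.mul_le_of_le hθ hG hS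
  refine ⟨Set (G × S), fun ν y => {q | ∃ s t, (y, s) ∈ ν ∧ q ≤ g s t}, ?_, ?_⟩
  · rw [Cardinal.mk_set]
    exact Cardinal.power_le_power_left two_ne_zero hGS
  intro X p
  obtain ⟨s0, t0, h0⟩ := hdense p
  obtain ⟨t1, ht1, hΨ⟩ := hT (G × S) hGS
    (fun ys => {t | (∃ s', s' ≤ ys.2 ∧ g s' t ∈ fmem X ys.1) ∨
      ∀ s', s' ≤ ys.2 → ∀ t', t' ≤ t → g s' t' ∉ fmem X ys.1}) t0
    (by
      intro ys t _
      by_cases h : ∀ s', s' ≤ ys.2 → ∀ t', t' ≤ t → g s' t' ∉ fmem X ys.1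
      · exact ⟨t, le_rfl, Or.inr h⟩
      · push Not at h
        obtain ⟨s', hs', t', ht', hm⟩ := h
        exact ⟨t', ht', Or.inl ⟨s', hs', hm⟩⟩)
    (by
      intro ys t ht t' htt
      rcases ht with ⟨s', hs', hm⟩ | h
      · exact Or.inl ⟨s', hs', down_fmem X ys.1 _ hm _ (hmono _ _ _ _ le_rfl htt)⟩
      · exact Or.inr fun s' hs' t'' ht'' => h s' hs' t'' (ht''.trans htt))
  refine ⟨g s0 t1, (hmono _ _ _ _ le_rfl ht1).trans h0, {ys | g ys.2 t1 ∈ fmem X ys.1}, ?_, ?_⟩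
  · refine fsub_of fun y r hr hry => ?_
    refine reg_fmem _ _ _ fun r1 hr1 => ?_
    obtain ⟨s', t', hs', ht', hle⟩ := hsplit s0 t1 r1 (hr1.trans hr)
    have hm : g s' t' ∈ fmem X y := down_fmem X y _ hry _ (hle.trans hr1)
    rcases hΨ (y, s') with ⟨s'', hs'', hm''⟩ | h
    · refine ⟨g s'' t', (hmono _ _ _ _ hs'' le_rfl).trans hle, ?_⟩
      apply meets_of_mem
      exact ⟨s'', t1, hm'', hmono _ _ _ _ le_rfl ht'⟩
    · exact absurd hm (h s' le_rfl t' ht')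
  · refine fsub_of fun y r hr hry => ?_
    refine reg_fmem _ _ _ fun r1 hr1 => ?_
    obtain ⟨r2, hr2, z, ⟨s, t, hst, hz⟩, hrz⟩ := hry r1 hr1
    obtain ⟨s', t', hs', ht', hle⟩ := hsplit s0 t1 r2 (hr2.trans (hr1.trans hr))
    have hs : s' ≤ s := hfst s' s t' t (hle.trans (hrz.trans hz))
    exact ⟨g s' t', hle.trans hr2, down_fmem X y _ hst _ (hmono _ _ _ _ hs ht')⟩

end

section

variable {P : Type u} [Preorder P]

theorem not_injPow {κ : Cardinal.{u}} (hκ : κ.IsStrongLimit)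
    (hP : ∀ γ < κ, ∃ θ, γ ≤ θ ∧ ℵ₀ ≤ θ ∧ θ < κ ∧ Decomp P θ) {γ : Cardinal.{u}} (hγ : γ < κ) (p : P) :
    p ∈ fnot (fInjPow P κ γ) := by
  rw [mem_fnot]
  intro q hq hinj
  unfold fInjPow at hinj
  rw [mem_fex] at hinj
  obtain ⟨q1, hq1, E, hE⟩ := hinj q le_rfl
  obtain ⟨θ, hγθ, hθ0, hθκ, hD⟩ := hP γ hγ
  have hG : #(Car γ) ≤ θ := by
    have h1 : #(Car γ) = γ := by
      simp [Car]
    rw [h1]; exact hγθ
  obtain ⟨N, nm, hN, hnm⟩ := nice_names hθ0 hD hG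
  have h2 : (2 : Cardinal.{u}) ^ θ < κ := hκ.isStrongPrelimit hθκ
  obtain ⟨θ', hNθ, hθ0', hθκ', hD'⟩ := hP #N (lt_of_le_of_lt hN h2)
  obtain ⟨q2, hq2, Z, hZ, hZm⟩ := bounding hθ0' hD' hNθ
    (fun ν ξ => feq (E ξ) (nm ν)) (fun ν ξ => down_feq _ _) q1 (by
      intro i ξ ξ' r hr h3 h4
      have h5 : r ∈ feq (E ξ) (E ξ') := feq_trans h3 (feq_symm h4)
      have h6 := mem_fimp.1 (hE ξ ξ') r hr h5
      obtain ⟨s, _, hs⟩ := h6
      exact hs)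
  have hlt : #Z < #(Car κ) := by
    have h1 : #(Car κ) = κ := by
      simp [Car]
    rw [h1]; exact lt_of_le_of_lt hZ hθκ'
  have hex : ∃ ξ, ξ ∉ Z := by
    by_contra hc
    push Not at hc
    have : Z = Set.univ := Set.eq_univ_of_forall hc
    rw [this, Cardinal.mk_univ] at hlt
    exact lt_irrefl _ hlt
  obtain ⟨ξ, hξ⟩ := hex
  obtain ⟨q3, hq3, ν, hν⟩ := hnm (E ξ) q2
  exact hξ (hZm ν ξ q3 hq3 hν)

end

section

variable {P : Type u} [Preorder P]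

/-- An embedding of `κ` into `Y`, restricted along a map `j : Z → Y` onto `Y`, names an injection into the power
set of `Z`. -/
theorem strongLimit_of_injPow {κ γ : Cardinal.{u}} {Y : Type w} (j : Car γ → Y) (hj : Function.Surjective j) {p : P}
    (h : p ∈ fEmb (nuniv : Car κ → Set P) Y) : ∃ q, q ≤ p ∧ q ∈ fInjPow P κ γ := by
  obtain ⟨q, hq, R, hR⟩ := mem_fex.1 h p le_rfl
  obtain ⟨hR1, _, hR3⟩ := hR
  refine ⟨q, hq, mem_fex.2 fun r hr => ⟨r, le_rfl, fun x i => R x (j i), fun x x' => mem_fimp.2 fun s hs hsx => ?_⟩⟩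
  obtain ⟨t, ht, h1⟩ := mem_fimp.1 (hR1 x) s (hs.trans hr) (meets_of_mem (N := nuniv x) trivial)
  obtain ⟨t', ht', y, hy⟩ := mem_fex.1 h1 t le_rfl
  obtain ⟨i, rfl⟩ := hj y
  have h2 : t' ∈ fmem (fun i => R x' (j i)) i :=
    mem_fmem_of_feq (down_feq _ _ _ hsx t' (ht'.trans ht)) (x := i) hy
  obtain ⟨t'', ht'', h3⟩ := mem_fimp.1 (hR3 x x' (j i)) t' (((ht'.trans ht).trans hs).trans hr) ⟨hy, h2⟩
  exact ⟨t'', (ht''.trans ht').trans ht, h3⟩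

/-- `ℵ₀` is the cardinality of `ℕ`. -/
theorem strongLimit_of_exists_surj : ∃ j : Car (ℵ₀ : Cardinal.{u}) → ℕ, Function.Surjective j := by
  have h1 : #(Car (ℵ₀ : Cardinal.{u})) = #(ULift.{u} ℕ) := by
    simp [Car]
  obtain ⟨e⟩ := Cardinal.eq.1 h1
  exact ⟨fun i => (e i).down, fun n => ⟨e.symm ⟨n⟩, by simp⟩⟩

theorem strongLimit_of {κ : Cardinal.{u}} (hκ : ℵ₀ < κ) {p : P} (h : ∀ γ < κ, p ∈ fnot (fInjPow P κ γ)) :
    p ∈ fStrongLimit P κ := by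
  refine ⟨fun q hq hs => ?_, fun q hq hs => ?_, fun γ => h γ γ.2⟩
  · obtain ⟨r, hr, γ, hγ⟩ := mem_fex.1 hs q le_rfl
    obtain ⟨t, ht, h1⟩ := strongLimit_of_injPow (γ := (γ : Cardinal.{u})) id Function.surjective_id hγ
    exact h γ γ.2 t ((ht.trans hr).trans hq) h1
  · obtain ⟨j, hj⟩ := strongLimit_of_exists_surj.{u}
    obtain ⟨t, ht, h1⟩ := strongLimit_of_injPow j hj hs
    exact h ℵ₀ hκ t (ht.trans hq) h1

end

section

variable {P : Type u} [Preorder P]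

theorem injPow_ground {lam γ : Cardinal.{u}} (h : lam ≤ 2 ^ γ) (p : P) : p ∈ fInjPow P lam γ := by
  have h1 : #(Car lam) ≤ #(Set (Car γ)) := by
    rw [Cardinal.mk_set, Cardinal.mk_ord_toType, Cardinal.mk_ord_toType]
    exact h
  obtain ⟨j⟩ := h1
  unfold fInjPow
  apply mem_fex_of_mem (fun x => chk (j x))
  · exact down_fall fun _ => down_fall fun _ => down_fimp _ _
  · intro x x'
    refine mem_fimp.2 fun q hq hqe => ⟨q, le_rfl, ?_⟩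
    rw [mem_fground]
    apply j.injective
    ext y
    constructor
    · intro hy
      exact mem_fmem_chk.1 (mem_fmem_of_feq hqe (mem_fmem_chk.2 hy))
    · intro hy
      exact mem_fmem_chk.1 (mem_fmem_of_feq (feq_symm hqe) (mem_fmem_chk.2 hy))

end

end Pool.Agent.H215_PID
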