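import Pool.Agent.H215_PID.Ext

set_option autoImplicit false
set_option linter.unusedSectionVars false

universe u v w

namespace Pool.Agent.H215_PID

open Cardinal Ordinal Set Filter
open Pool.Agent.H215_MRP (Car IsMeasurable)

section

variable {c : ℕ → Cardinal.{u}} {W : ∀ n, Ultrafilter (Car (c n))}

theorem uu_down (h : Setup c W) {κ : Cardinal.{u}} (e : ∀ n, Car (c n) → Car κ) (X : Car κ → Set (PP c W)) :
    Down (UU e X) := by
  intro p hp q hq
  obtain ⟨k, hk⟩ := hp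
  have hq' : leE ∅ q.r p.r := hq
  obtain ⟨N, hN⟩ := (hq'.1.union hq'.2.2.2).bddAbove
  refine ⟨max k (N + 1), fun n hn hkn => ?_⟩
  have hnS : n ∉ (q.r.B \ p.r.B) ∪ {n | n ∈ q.r.B ∧ ¬ q.r.f n ≤ p.r.f n} := by
    intro hmem
    have h1 : n ≤ N := hN hmem
    have h2 : N + 1 ≤ n := (le_max_right _ _).trans hkn
    omega
  have hpB : n ∈ p.r.B := by
    by_contra hc
    exact hnS (Or.inl ⟨hn, hc⟩)
  have hf : q.r.f n ≤ p.r.f n := by
    by_contra hc
    exact hnS (Or.inr ⟨hn, hc⟩)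
  filter_upwards [plus_mono h hq' hf, hk n hpB ((le_max_left _ _).trans hkn)] with α h5 h6
  exact down_fmem _ _ _ h6 _ h5

end

section

variable {c : ℕ → Cardinal.{u}} {W : ∀ n, Ultrafilter (Car (c n))}

theorem uu_mono (h : Setup c W) {κ : Cardinal.{u}} (e : ∀ n, Car (c n) → Car κ) {X Y : Car κ → Set (PP c W)}
    {p : PP c W} (hp : p ∈ fsub X Y) (hX : p ∈ fMem (UU e) X) : p ∈ fMem (UU e) Y := by
  intro q hq
  obtain ⟨r, hr, s, hs, hrs⟩ := hX q hq
  have hrX : r ∈ UU e X := uu_down h e X s hs r hrs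
  obtain ⟨k, hk⟩ := hrX
  refine ⟨r, hr, r, ⟨k, ?_⟩, le_rfl⟩
  intro n hn hkn
  filter_upwards [hk n hn hkn] with α hα
  have hle : (⟨plus r.r n α⟩ : PP c W) ≤ p :=
    le_trans (P1.le_iff.2 (RC.leE_of_le (plus_le r.r n α))) (hr.trans hq)
  exact mem_fmem_of_fsub (down_fsub X Y p hp _ hle) hα

end

section

variable {c : ℕ → Cardinal.{u}} {W : ∀ n, Ultrafilter (Car (c n))}

theorem uu_ultra (h : Setup c W) {κ : Cardinal.{u}} (e : ∀ n, Car (c n) → Car κ) (p : PP c W) :
    p ∈ fUltrafilter (UU e : (Car κ → Set (PP c W)) → Set (PP c W)) := by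
  classical
  refine ⟨?_, ?_, ?_, ?_, ?_⟩
  · intro A B
    exact mem_fimp.2 fun q hq hqe => ⟨q, le_rfl, uu_mono h e hqe.1.1 hqe.2⟩
  · intro q hq hqm
    obtain ⟨r, hr, k, hk⟩ := exists_of_meets (uu_down h e nempty) hqm
    obtain ⟨n, hn, hkn⟩ := r.r.inf.exists_gt k
    have hev := hk n hn hkn.le
    obtain ⟨α, hα⟩ := hev.exists
    obtain ⟨_, _, s, hs, _⟩ := hα _ le_rfl
    exact hs
  · intro A B
    exact mem_fimp.2 fun q hq hqe => ⟨q, le_rfl, uu_mono h e hqe.2 hqe.1⟩
  · intro A B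
    refine mem_fimp.2 fun q hq hqe => ⟨q, le_rfl, fun q' hq' => ?_⟩
    obtain ⟨r1, hr1, h1⟩ := exists_of_meets (uu_down h e A) (down_fMem _ _ _ hqe.1 q' hq')
    obtain ⟨r2, hr2, h2⟩ := exists_of_meets (uu_down h e B)
      (down_fMem _ _ _ hqe.2 r1 (hr1.trans hq'))
    have h1' := uu_down h e A r1 h1 r2 hr2
    obtain ⟨k1, hk1⟩ := h1'
    obtain ⟨k2, hk2⟩ := h2
    refine ⟨r2, hr2.trans hr1, r2, ⟨max k1 k2, fun n hn hkn => ?_⟩, le_rfl⟩
    filter_upwards [hk1 n hn ((le_max_left _ _).trans hkn),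
      hk2 n hn ((le_max_right _ _).trans hkn)] with α ha hb
    exact meets_of_mem ⟨ha, hb⟩
  · intro A
    refine mem_fOr.2 fun q hq => ?_
    have hL : #(ULift.{u} Bool) < c 0 := (Cardinal.mk_lt_aleph0 (α := ULift.{u} Bool)).trans (h.unc 0)
    obtain ⟨q', hq', i, hi⟩ := decide_all h hL
      (fun n α b => cond b.down (fmem A (e n α)) (fnot (fmem A (e n α))))
      (by
        rintro n α ⟨_ | _⟩
        · exact down_fnot _
        · exact down_fmem _ _) q (by
        intro n α q1 _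
        by_cases hh : ∃ r, r ≤ q1 ∧ r ∈ fmem A (e n α)
        · obtain ⟨r, hr, hm⟩ := hh
          exact ⟨r, hr, ⟨true⟩, hm⟩
        · exact ⟨q1, le_rfl, ⟨false⟩, fun r hr hm => hh ⟨r, hr, hm⟩⟩)
    have hb : ∃ b : Bool, {n | n ∈ q'.r.B ∧ (i n).down = b}.Infinite := by
      by_contra hc
      push Not at hc
      have h1 := hc true
      have h2 := hc false
      apply q'.r.inf
      refine (h1.union h2).subset fun n hn => ?_
      cases hin : (i n).down
      · exact Or.inr ⟨hn, hin⟩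
      · exact Or.inl ⟨hn, hin⟩
    obtain ⟨b, hb⟩ := hb
    set B0 : Set ℕ := {n | n ∈ q'.r.B ∧ (i n).down = b} with hB0
    have hsub : B0 ⊆ q'.r.B := fun n hn => hn.1
    have hdiff : (B0 \ q'.r.B).Finite := by
      rw [Set.sdiff_eq_empty.2 hsub]
      exact Set.finite_empty
    set r : PP c W := ⟨⟨B0, hb, q'.r.a, q'.r.f⟩⟩ with hr
    have hrq : r ≤ q' := by
      rw [P1.le_iff]
      refine ⟨hdiff, le_rfl, fun _ _ => le_rfl, ?_⟩
      simp [hr]
    have hplus : ∀ n (α : Car (c n)), (⟨plus r.r n α⟩ : PP c W) ≤ ⟨plus q'.r n α⟩ := by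
      intro n α
      rw [P1.le_iff]
      refine ⟨hdiff, le_rfl, fun _ _ => le_rfl, ?_⟩
      simp [plus, hr]
    refine ⟨r, hrq.trans hq', ?_⟩
    cases b with
    | true =>
      refine Or.inl (meets_of_mem ⟨0, fun n hn _ => ?_⟩)
      filter_upwards [hi n (Nat.zero_le n)] with α hα
      have hin : (i n).down = true := hn.2
      simp only [hin, cond_true] at hα
      exact down_fmem _ _ _ hα _ (hplus n α)
    | false =>
      refine Or.inr (meets_of_mem ⟨0, fun n hn _ => ?_⟩)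
      filter_upwards [hi n (Nat.zero_le n)] with α hα
      have hin : (i n).down = false := hn.2
      simp only [hin, cond_false] at hα
      exact meets_of_mem (down_fnot _ _ hα _ (hplus n α))

end

section

variable {c : ℕ → Cardinal.{u}} {W : ∀ n, Ultrafilter (Car (c n))}

theorem uu_uniform (h : Setup c W) {κ : Cardinal.{u}} (hκ : κ = ⨆ n, c n) (e : ∀ n, Car (c n) → Car κ)
    (he : ∀ n, Function.Injective (e n)) (p : PP c W) :
    p ∈ fUniform κ (UU e : (Car κ → Set (PP c W)) → Set (PP c W)) := by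
  intro A
  rw [mem_fimp]
  intro q _ hqM
  refine ⟨q, le_rfl, ?_⟩
  intro q1 hq1 hsmall
  obtain ⟨q2, hq2, γ, hemb⟩ := mem_fex.1 hsmall q1 le_rfl
  obtain ⟨q3, hq3, R, h3⟩ := mem_fex.1 hemb q2 le_rfl
  obtain ⟨htot, -, hinj⟩ := h3
  have hq3M : q3 ∈ fMem (UU e) A := down_fMem _ _ _ hqM _ ((hq3.trans hq2).trans hq1)
  obtain ⟨q4, hq4, hq4U⟩ := exists_of_meets (uu_down h e A) hq3M
  have hγ : (γ : Cardinal.{u}) < ⨆ n, c n := by
    rw [← hκ]
    exact γ.2
  obtain ⟨k, hk⟩ := exists_lt_of_lt_ciSup hγ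
  have hL : #(Option (Car (γ : Cardinal.{u}))) < c k := by
    rw [Cardinal.mk_option, Cardinal.mk_ord_toType]
    exact Cardinal.add_lt_of_lt (h.unc k).le hk (Cardinal.one_lt_aleph0.trans (h.unc k))
  let Φ : ∀ n, Car (c n) → Option (Car (γ : Cardinal.{u})) → Set (PP c W) := fun n α o =>
    match o with
    | none => fnot (fmem A (e n α))
    | some y => fand (fmem A (e n α)) (meets (R (e n α) y))
  have hdown : ∀ n α i, Down (Φ n α i) := by
    rintro n α (_ | y)
    · exact down_fnot _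
    · exact down_fand (down_fmem _ _) (down_meets _)
  have hdense : ∀ n α q, q ≤ q4 → ∃ r, r ≤ q ∧ ∃ i, r ∈ Φ n α i := by
    intro n α q hq
    by_cases hc : q ∈ fnot (fmem A (e n α))
    · exact ⟨q, le_rfl, none, hc⟩
    · rw [mem_fnot] at hc
      push Not at hc
      obtain ⟨r, hr, hrA⟩ := hc
      obtain ⟨r1, hr1, hr1y⟩ := mem_fimp.1 (htot (e n α)) r ((hr.trans hq).trans hq4) hrA
      obtain ⟨r2, hr2, y, hy⟩ := mem_fex.1 hr1y r1 le_rfl
      exact ⟨r2, (hr2.trans hr1).trans hr, some y,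
        ⟨down_fmem _ _ _ hrA _ (hr2.trans hr1), hy⟩⟩
  obtain ⟨q5, hq5, i, hi⟩ := decide_all h hL Φ hdown q4 hdense
  obtain ⟨k', hk'⟩ := uu_down h e A q4 hq4U q5 hq5
  obtain ⟨n, hnB, hn⟩ := q5.r.inf.exists_gt (max k k')
  have h5 := hi n ((le_max_left _ _).trans hn.le)
  have h6 := hk' n hnB ((le_max_right _ _).trans hn.le)
  cases hin : i n with
  | none =>
    rw [hin] at h5
    obtain ⟨α, hα1, hα2⟩ := (h5.and h6).exists
    exact hα1 _ le_rfl hα2
  | some y =>
    rw [hin] at h5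
    have h7 : ∀ᶠ α in (W n : Filter (Car (c n))),
        (⟨plus q5.r n α⟩ : PP c W) ∈ meets (R (e n α) y) := by
      filter_upwards [h5] with α hα using hα.2
    obtain ⟨α1, hα1⟩ := h7.exists
    have h8 : ∀ᶠ α in (W n : Filter (Car (c n))), α ≠ α1 := by
      have h9 : {α1}ᶜ ∈ W n := Ultrafilter.compl_mem_iff_notMem.2 (h.nonpr n α1)
      exact h9
    have h9 := tl_disjoint (W := W n) (h.compl n) (mu_lt h n) ((q5.r.f n).1 α1) (q5.r.f n)
    obtain ⟨α2, hα2, hne, hdis⟩ := (h7.and (h8.and h9)).exists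
    let s : RR c W := plus (plus q5.r n α1) n α2
    have hs1 : (⟨s⟩ : PP c W) ≤ ⟨plus q5.r n α1⟩ := RC.leE_of_le (plus_le _ n α2)
    have hs0 : (⟨plus q5.r n α1⟩ : PP c W) ≤ q5 := RC.leE_of_le (plus_le _ n α1)
    have hμ : ℵ₀ ≤ mu c n := (mu_regular h n).aleph0_le
    have hs2 : (⟨s⟩ : PP c W) ≤ ⟨plus q5.r n α2⟩ := by
      refine ⟨?_, ?_, ?_, ?_⟩
      · show (q5.r.B \ q5.r.B).Finite
        simp
      · intro m
        show Function.update (Function.update q5.r.a n ((q5.r.a n).join ((q5.r.f n).1 α1))) n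
          ((Function.update q5.r.a n ((q5.r.a n).join ((q5.r.f n).1 α1)) n).join
            ((q5.r.f n).1 α2)) m ≤
          Function.update q5.r.a n ((q5.r.a n).join ((q5.r.f n).1 α2)) m
        by_cases hm : m = n
        · subst hm
          rw [Function.update_self, Function.update_self, Function.update_self, Fn.le_iff]
          intro x hx
          rw [fn_join hμ] at hx
          rw [fn_join hμ, fn_join hμ, fn_join hμ]
          cases ha : (q5.r.a m).1 x with
          | some b => simp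
          | none =>
            rw [ha, Option.none_or] at hx
            have h10 : ((q5.r.f m).1 α1).1 x = none := by
              by_contra h11
              exact hx (hdis x h11)
            simp [h10]
        · rw [Function.update_of_ne hm, Function.update_of_ne hm, Function.update_of_ne hm]
      · intro m hm
        exact absurd hm (Set.notMem_empty m)
      · refine Set.Finite.subset Set.finite_empty ?_
        rintro m ⟨-, hm⟩
        exact hm le_rfl
    have hs3 : (⟨s⟩ : PP c W) ≤ q3 := ((hs1.trans hs0).trans hq5).trans hq4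
    obtain ⟨r, -, hr⟩ := mem_fimp.1 (hinj (e n α1) (e n α2) y) ⟨s⟩ hs3
      ⟨down_meets _ _ hα1 _ hs1, down_meets _ _ hα2 _ hs2⟩
    exact hne (he n hr).symm

end

section

variable {c : ℕ → Cardinal.{u}} {W : ∀ n, Ultrafilter (Car (c n))}

theorem uu_indec_emb {P : Type u} [Preorder P] {X : Type v} {Y : Type w} (b : Set X) (j : X → Y)
    (hj : Set.InjOn j b) (q : P) : q ∈ fEmb (chk b : X → Set P) Y := by
  have hR : ∀ (x : X) (y : Y) (r : P), r ∈ meets ({_p : P | x ∈ b ∧ j x = y}) → x ∈ b ∧ j x = y := by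
    intro x y r hr
    obtain ⟨_, _, s, hs, _⟩ := hr r le_rfl
    exact hs
  refine mem_fex_of_mem (i := fun x y => {_p : P | x ∈ b ∧ j x = y}) ?_ ⟨?_, ?_, ?_⟩
  · refine down_fand (down_fall fun _ => down_fimp _ _) (down_fand ?_ ?_)
    · exact down_fall fun _ => down_fall fun _ => down_fall fun _ => down_fimp _ _
    · exact down_fall fun _ => down_fall fun _ => down_fall fun _ => down_fimp _ _
  · intro x
    refine mem_fimp.2 fun r _ hx => ⟨r, le_rfl, ?_⟩
    have hxb : x ∈ b := mem_fmem_chk.1 hx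
    exact mem_fex_of_mem (j x) (down_meets _) (meets_of_mem ⟨hxb, rfl⟩)
  · intro x y y'
    refine mem_fimp.2 fun r _ hr => ⟨r, le_rfl, ?_⟩
    have h1 := hR x y r hr.1
    have h2 := hR x y' r hr.2
    exact h1.2.symm.trans h2.2
  · intro x x' y
    refine mem_fimp.2 fun r _ hr => ⟨r, le_rfl, ?_⟩
    have h1 := hR x y r hr.1
    have h2 := hR x' y r hr.2
    exact hj h1.1 h2.1 (h1.2.trans h2.2.symm)

theorem uu_indec_nuniv {P : Type u} [Preorder P] {X : Type v} :
    (nuniv : X → Set P) = chk Set.univ := by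
  funext x
  ext r
  simp [nuniv, chk]

theorem uu_indec (h : Setup c W) {κ : Cardinal.{u}} (hκ : κ = ⨆ n, c n) (e : ∀ n, Car (c n) → Car κ)
    (p : PP c W) : p ∈ fIndecomposable κ (UU e : (Car κ → Set (PP c W)) → Set (PP c W)) := by
  rintro ⟨lam, hlam⟩
  refine mem_fimp.2 fun q _ hq => ⟨q, le_rfl, ?_⟩
  obtain ⟨_, hq2⟩ := hq
  intro q1 hq1 hdec
  have hmk : #(Car lam) = lam := Cardinal.mk_ord_toType lam
  -- `lam` is uncountable
  have hunc : ℵ₀ < lam := by
    by_contra hc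
    push Not at hc
    have hcount : Countable (Car lam) := by
      rw [← Cardinal.mk_le_aleph0_iff, hmk]
      exact hc
    obtain ⟨j, hj⟩ := exists_injective_nat (Car lam)
    refine hq2 q le_rfl ?_
    show q ∈ fEmb (nuniv : Car lam → Set (PP c W)) ℕ
    rw [uu_indec_nuniv]
    exact uu_indec_emb Set.univ j hj.injOn q
  obtain ⟨q2, hq2', F, ⟨hF1, _⟩, hF2⟩ := mem_fex.1 hdec q1 le_rfl
  obtain ⟨k, hk⟩ : ∃ k, lam < c k := by
    have h1 : lam < ⨆ n, c n := by rw [← hκ]; exact hlam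
    exact exists_lt_of_lt_ciSup h1
  obtain ⟨q3, hq3, i, hi⟩ := decide_all h (L := Car lam) (k := k) (by rw [hmk]; exact hk)
    (fun n α l => meets (F (e n α) l)) (fun n α l => down_meets _) q2
    (fun n α r hr => mem_fex.1 (hF1 (e n α)) r hr)
  set B : Car lam → Set (PP c W) := chk (Set.range i) with hB
  have hsmall : q3 ∈ fSmall lam B := by
    refine mem_fex_of_mem (i := (⟨ℵ₀, hunc⟩ : Set.Iio lam)) (down_fEmb _ _) ?_
    obtain ⟨g, hg⟩ := Set.countable_iff_exists_injOn.1 (Set.countable_range i)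
    have hinf : Infinite (Car (ℵ₀ : Cardinal.{u})) := by
      rw [Cardinal.infinite_iff, Cardinal.mk_ord_toType]
    exact uu_indec_emb (Set.range i) (fun x => Infinite.natEmbedding (Car (ℵ₀ : Cardinal.{u})) (g x))
      (fun x hx y hy hxy => hg hx hy ((Infinite.natEmbedding _).injective hxy)) q3
  have hmem : q3 ∈ fMem (UU e) (fun x => fex fun y => fand (meets (F x y)) (fmem B y)) := by
    refine meets_of_mem ⟨k, fun n _ hn => ?_⟩
    filter_upwards [hi n hn] with α hα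
    refine meets_of_mem ?_
    refine mem_fex_of_mem (i n) (down_fand (down_meets _) (down_fmem _ _)) ⟨hα, ?_⟩
    exact mem_fmem_chk.2 (Set.mem_range_self n)
  obtain ⟨r, hr, hr'⟩ := mem_fimp.1 (hF2 B) q3 hq3 hsmall
  exact hr' r le_rfl (down_fMem _ _ q3 hmem r hr)

end

section

variable {c : ℕ → Cardinal.{u}} {W : ∀ n, Ultrafilter (Car (c n))}

theorem pp_not_star (h : Setup c W) (p : PP c W) : p ∈ fnot (fStar (PP c W)) := by
  classical
  intro q _ hq
  have hcle : ∀ n, c n ≤ ⨆ n, c n := fun n => le_ciSup Cardinal.bddAbove_of_small n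
  have he : ∀ n, ∃ e : Car (c n) → Car (⨆ n, c n), Function.Injective e := by
    intro n
    have : #(Car (c n)) ≤ #(Car (⨆ n, c n)) := by
      rw [Cardinal.mk_ord_toType, Cardinal.mk_ord_toType]; exact hcle n
    obtain ⟨e⟩ := this
    exact ⟨e, e.injective⟩
  choose e he using he
  have hpos : 0 < ⨆ n, c n := lt_of_lt_of_le (lt_trans Cardinal.aleph0_pos (h.unc 0)) (hcle 0)
  have h1 := mem_fimp.1 (hq (⨆ n, c n)) q le_rfl
  obtain ⟨r, hr, h2⟩ := h1 ⟨pp_strongLimit h q, mem_fex.2 fun q' hq' => ⟨q', le_rfl, UU e,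
    uu_ultra h e q', uu_uniform h rfl e he q', uu_indec h rfl e q'⟩⟩
  obtain ⟨r1, hr1, h3 | h3⟩ := mem_fOr.1 h2 r le_rfl
  · exact pp_not_meas h le_rfl r r1 hr1 h3
  · obtain ⟨r2, hr2, C, h4, h5, h6⟩ := mem_fex.1 h3 r1 le_rfl
    obtain ⟨r3, hr3, cc, h7, _⟩ := mem_fex.1 (h6 ⟨0, hpos⟩) r2 le_rfl
    obtain ⟨r4, hr4, h8⟩ := mem_fimp.1 (h5 cc) r3 hr3 h7
    exact pp_not_meas h cc.2 r3 r4 hr4 h8

end

end Pool.Agent.H215_PID
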